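import Pool.Agent.Helper876_NK.QDefs
import Pool.Agent.H212R2.KLS.T1

set_option autoImplicit false

open MeasureTheory Set Metric Filter Topology WithLp
open scoped ENNReal NNReal Pointwise Real

namespace Pool.Agent.Helper876.NK

open Pool.Agent.R225.NM

private theorem bmc_two {d : ℕ} (t : ℝ) (ht0 : 0 < t) (ht1 : t < 1)
    (A C D : Set (EuclideanSpace ℝ (Fin d)))
    (hA : MeasurableSet A) (hC : MeasurableSet C) (hD : MeasurableSet D)
    (h : ∀ x ∈ A, ∀ y ∈ C, (1 - t) • x + t • y ∈ D) (v : ℝ≥0∞) (hvt : v ≠ ∞)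
    (hvA : v ≤ volume A) (hvC : v ≤ volume C) : v ≤ volume D := by
  have hPL := Pool.Agent.H212R2.KLS.PL (volume : Measure (EuclideanSpace ℝ (Fin d))) t ht0 ht1
    (A.indicator 1) (C.indicator 1)
    (D.indicator 1) (measurable_one.indicator hA)
    (measurable_one.indicator hC) (measurable_one.indicator hD) ?_
  · rw [lintegral_indicator_one hA, lintegral_indicator_one hC,
      lintegral_indicator_one hD] at hPL
    refine le_trans ?_ hPL
    rcases eq_or_ne v 0 with rfl | hv0
    · exact zero_le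
    · calc v = v ^ (1 - t) * v ^ t := by
            rw [← ENNReal.rpow_add _ _ hv0 hvt]
            norm_num
        _ ≤ (volume A) ^ (1 - t) * (volume C) ^ t := by
            gcongr
  · intro x y
    by_cases hx : x ∈ A
    · by_cases hy : y ∈ C
      · rw [indicator_of_mem hx, indicator_of_mem hy, indicator_of_mem (h x hx y hy)]
        simp
      · rw [indicator_of_notMem hy, ENNReal.zero_rpow_of_pos ht0, mul_zero]
        exact zero_le
    · rw [indicator_of_notMem hx, ENNReal.zero_rpow_of_pos (by linarith), zero_mul]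
      exact zero_le

private theorem bmc_smul {d : ℕ} (A : Set (EuclideanSpace ℝ (Fin d))) (a s : ℝ) (ha : 0 < a)
    (hs : 0 < s) (h : ENNReal.ofReal (a ^ d) ≤ volume A) :
    ENNReal.ofReal (s ^ d) ≤ volume ((s / a) • A) := by
  have hsa : 0 < s / a := div_pos hs ha
  rw [Measure.addHaar_smul, finrank_euclideanSpace_fin, abs_of_pos (pow_pos hsa d)]
  calc ENNReal.ofReal (s ^ d) = ENNReal.ofReal ((s / a) ^ d) * ENNReal.ofReal (a ^ d) := by
        rw [← ENNReal.ofReal_mul (pow_nonneg hsa.le d), ← mul_pow, div_mul_cancel₀ _ ha.ne']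
    _ ≤ _ := by gcongr

private theorem bmc_sum {d : ℕ} (A B : Set (EuclideanSpace ℝ (Fin d))) (hA : IsOpen A)
    (hB : IsOpen B) (a b : ℝ) (ha0 : 0 < a) (hb0 : 0 < b)
    (hVA : ENNReal.ofReal (a ^ d) ≤ volume A) (hVB : ENNReal.ofReal (b ^ d) ≤ volume B) :
    ENNReal.ofReal ((a + b) ^ d) ≤ volume (A + B) := by
  have hab : 0 < a + b := by linarith
  refine bmc_two (b / (a + b)) (div_pos hb0 hab) ((div_lt_one hab).mpr (by linarith))
    (((a + b) / a) • A) (((a + b) / b) • B) (A + B)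
    (hA.smul₀ (div_pos hab ha0).ne').measurableSet
    (hB.smul₀ (div_pos hab hb0).ne').measurableSet (hA.add_right).measurableSet ?_
    (ENNReal.ofReal ((a + b) ^ d)) ENNReal.ofReal_ne_top (bmc_smul A a (a + b) ha0 hab hVA)
    (bmc_smul B b (a + b) hb0 hab hVB)
  rintro _ ⟨x, hx, rfl⟩ _ ⟨y, hy, rfl⟩
  have e1 : (1 - b / (a + b)) • ((a + b) / a) • x = x := by
    rw [smul_smul]
    have : (1 - b / (a + b)) * ((a + b) / a) = 1 := by field_simp; ring
    rw [this, one_smul]
  have e2 : (b / (a + b)) • ((a + b) / b) • y = y := by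
    rw [smul_smul]
    have : (b / (a + b)) * ((a + b) / b) = 1 := by field_simp
    rw [this, one_smul]
  show (1 - b / (a + b)) • ((a + b) / a) • x + (b / (a + b)) • ((a + b) / b) • y ∈ A + B
  rw [e1, e2]
  exact Set.add_mem_add hx hy

theorem bm_conv {d : ℕ} (hd : 1 ≤ d) {A B : Set (EuclideanSpace ℝ (Fin d))} (hA : IsConvexDomain A)
    (hB : IsConvexDomain B) {s : ℝ} (hs : 0 ≤ s) (hs1 : s ≤ 1) :
    (1 - s) * volume.real A ^ (1 / (d : ℝ)) + s * volume.real B ^ (1 / (d : ℝ)) ≤
      volume.real ((1 - s) • A + s • B) ^ (1 / (d : ℝ)) := by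
  have hd0 : (d : ℝ) ≠ 0 := by positivity
  rcases hs.eq_or_lt with rfl | hs0
  · have h1 : (1 - (0 : ℝ)) • A + (0 : ℝ) • B = A := by
      rw [sub_zero, one_smul, Set.zero_smul_set hB.nonempty, add_zero]
    rw [h1]
    simp
  rcases hs1.eq_or_lt with rfl | hs1'
  · have h1 : (1 - (1 : ℝ)) • A + (1 : ℝ) • B = B := by
      rw [sub_self, one_smul, Set.zero_smul_set hA.nonempty, zero_add]
    rw [h1]
    simp
  have h1s : 0 < 1 - s := by linarith
  have fin : ∀ {X : Set (EuclideanSpace ℝ (Fin d))}, IsConvexDomain X → volume X ≠ ∞ :=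
    fun h => h.isBounded.measure_lt_top.ne
  have pos : ∀ {X : Set (EuclideanSpace ℝ (Fin d))}, IsConvexDomain X → 0 < volume.real X :=
    fun h => ENNReal.toReal_pos (h.isOpen.measure_pos volume h.nonempty).ne' (fin h)
  have key : ∀ {X : Set (EuclideanSpace ℝ (Fin d))}, IsConvexDomain X → ∀ r : ℝ, 0 < r →
      ENNReal.ofReal ((r * volume.real X ^ (1 / (d : ℝ))) ^ d) ≤ volume (r • X) := by
    intro X hX r hr
    have e : (volume.real X ^ (1 / (d : ℝ))) ^ d = volume.real X := by
      rw [← Real.rpow_natCast, ← Real.rpow_mul (pos hX).le, one_div_mul_cancel hd0, Real.rpow_one]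
    rw [mul_pow, e, Measure.addHaar_smul, finrank_euclideanSpace_fin, abs_of_pos (pow_pos hr d),
      ENNReal.ofReal_mul (pow_nonneg hr.le d)]
    rw [measureReal_def, ENNReal.ofReal_toReal (fin hX)]
  have hpa : 0 < (1 - s) * volume.real A ^ (1 / (d : ℝ)) :=
    mul_pos h1s (Real.rpow_pos_of_pos (pos hA) _)
  have hpb : 0 < s * volume.real B ^ (1 / (d : ℝ)) :=
    mul_pos hs0 (Real.rpow_pos_of_pos (pos hB) _)
  have hm := bmc_sum ((1 - s) • A) (s • B) (hA.isOpen.smul₀ h1s.ne') (hB.isOpen.smul₀ hs0.ne')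
    _ _ hpa hpb (key hA _ h1s) (key hB _ hs0)
  have hfin : volume ((1 - s) • A + s • B) ≠ ∞ :=
    ((hA.isBounded.smul₀ _).add (hB.isBounded.smul₀ _)).measure_lt_top.ne
  have h2 : ((1 - s) * volume.real A ^ (1 / (d : ℝ)) + s * volume.real B ^ (1 / (d : ℝ))) ^ d ≤
      volume.real ((1 - s) • A + s • B) := by
    have := ENNReal.toReal_mono hfin hm
    rwa [ENNReal.toReal_ofReal (by positivity)] at this
  have h3 := Real.rpow_le_rpow (by positivity) h2 (by positivity : (0 : ℝ) ≤ 1 / (d : ℝ))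
  rwa [← Real.rpow_natCast, ← Real.rpow_mul (by positivity), mul_one_div_cancel hd0,
    Real.rpow_one] at h3

end Pool.Agent.Helper876.NK
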