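import Pool.Agent.Helper876_NK.QDefs

set_option autoImplicit false

open MeasureTheory Set Metric Filter Topology WithLp
open scoped ENNReal NNReal Pointwise Real

namespace Pool.Agent.Helper876.NK

open Pool.Agent.R225.NM

private theorem bt_om_pos (d : ℕ) : 0 < om d := by
  unfold om
  rw [Measure.real]
  exact ENNReal.toReal_pos (Metric.measure_ball_pos _ _ one_pos).ne' measure_ball_lt_top.ne

private theorem bt_vol {d : ℕ} (hd : 1 ≤ d) (c : EuclideanSpace ℝ (Fin d)) {R : ℝ} (hR : 0 ≤ R) :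
    volume.real (ball c R) = om d * R ^ d := by
  have : Nonempty (Fin d) := ⟨⟨0, hd⟩⟩
  unfold om
  rw [Measure.real, Measure.addHaar_ball _ _ hR, ENNReal.toReal_mul,
    ENNReal.toReal_ofReal (by positivity), finrank_euclideanSpace, Fintype.card_fin, Measure.real]
  ring

private theorem bt_mom0 {d : ℕ} (hd : 1 ≤ d) {R : ℝ} (hR : 0 ≤ R) :
    ∫ x : EuclideanSpace ℝ (Fin d), (Iio R).indicator (fun y : ℝ => y ^ 2) ‖x‖ =
      ((d : ℝ) / (d + 2)) * om d * R ^ (d + 2) := by
  have : Nonempty (Fin d) := ⟨⟨0, hd⟩⟩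
  rw [integral_fun_norm_addHaar volume ((Iio R).indicator (fun y : ℝ => y ^ 2)),
    finrank_euclideanSpace, Fintype.card_fin]
  have h1 : ∫ y in Ioi (0 : ℝ), y ^ (d - 1) • (Iio R).indicator (fun y : ℝ => y ^ 2) y =
      R ^ (d + 2) / (d + 2) := by
    have h2 : (fun y : ℝ => y ^ (d - 1) • (Iio R).indicator (fun y : ℝ => y ^ 2) y) =
        (Iio R).indicator (fun y : ℝ => y ^ (d + 1)) := by
      funext y
      by_cases hy : y ∈ Iio R
      · simp only [indicator_of_mem hy, smul_eq_mul]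
        rw [← pow_add]
        congr 1
        omega
      · simp only [indicator_of_notMem hy, smul_zero]
    rw [h2, setIntegral_indicator measurableSet_Iio]
    have h3 : Ioi (0 : ℝ) ∩ Iio R = Ioo 0 R := rfl
    rw [h3, ← integral_Ioc_eq_integral_Ioo, ← intervalIntegral.integral_of_le hR, integral_pow]
    have h5 : ((d + 1 : ℕ) : ℝ) + 1 = (d : ℝ) + 2 := by push_cast; ring
    rw [h5, zero_pow (by omega : d + 1 + 1 ≠ 0), sub_zero]
  rw [h1, ← om]
  simp only [nsmul_eq_mul, smul_eq_mul]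
  ring

private theorem bt_mom {d : ℕ} (hd : 1 ≤ d) (c : EuclideanSpace ℝ (Fin d)) {R : ℝ} (hR : 0 ≤ R) :
    ∫ x in ball c R, ‖x - c‖ ^ 2 = ((d : ℝ) / (d + 2)) * om d * R ^ (d + 2) := by
  rw [← bt_mom0 hd hR, ← integral_indicator measurableSet_ball]
  rw [← integral_sub_right_eq_self (fun x : EuclideanSpace ℝ (Fin d) =>
    (Iio R).indicator (fun y : ℝ => y ^ 2) ‖x‖) c]
  congr 1

/- PLAIN PROOF. Translate to c = 0; let R ≥ 0 with om d * R^d = |A| (the ball of radius R has the same volume as A; if |A| = 0 all is 0). Then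
∫_A ‖x‖^2 - ∫_(ball 0 R) ‖x‖^2 = ∫_(A \ ball) - ∫_(ball \ A) ≥ R^2 (|A \ ball| - |ball \ A|) = 0 and ∫_(ball 0 R) ‖x‖^2 = (d / (d + 2)) om d R^(d + 2)
(polar coordinates: integral_fun_norm_addHaar, or layer cake for R^2 - ‖x‖^2). om is the volume of the unit ball (QDefs). -/
theorem bathtub {d : ℕ} (hd : 1 ≤ d) {A : Set (EuclideanSpace ℝ (Fin d))} (hA : MeasurableSet A)
    (hb : Bornology.IsBounded A) (c : EuclideanSpace ℝ (Fin d)) :
    ((d : ℝ) / (d + 2)) * (volume.real A / om d) ^ (2 / (d : ℝ)) * volume.real A ≤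
      ∫ x in A, ‖x - c‖ ^ 2 := by
  have hom := bt_om_pos d
  have hd0 : (d : ℝ) ≠ 0 := by positivity
  have hd1 : d ≠ 0 := by omega
  set v : ℝ := volume.real A / om d with hv
  have hv0 : 0 ≤ v := div_nonneg measureReal_nonneg hom.le
  set R : ℝ := v ^ ((d : ℝ)⁻¹) with hRdef
  have hR : 0 ≤ R := Real.rpow_nonneg hv0 _
  have hRd : R ^ d = v := Real.rpow_inv_natCast_pow hv0 hd1
  have hR2 : R ^ 2 = v ^ (2 / (d : ℝ)) := by
    rw [hRdef, ← Real.rpow_natCast (v ^ ((d : ℝ)⁻¹)) 2, ← Real.rpow_mul hv0]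
    congr 1
    push_cast
    field_simp
  have hvol : volume.real A = om d * R ^ d := by
    rw [hRd, hv]
    field_simp
  have hint : ∀ S : Set (EuclideanSpace ℝ (Fin d)), Bornology.IsBounded S →
      ∀ g : EuclideanSpace ℝ (Fin d) → ℝ, Continuous g → IntegrableOn g S := by
    intro S hS g hg
    obtain ⟨r, hr⟩ := hS.subset_closedBall 0
    exact (hg.continuousOn.integrableOn_compact (isCompact_closedBall 0 r)).mono_set hr
  have hgc : Continuous fun x : EuclideanSpace ℝ (Fin d) => ‖x - c‖ ^ 2 := by fun_prop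
  have hgR : Continuous fun x : EuclideanSpace ℝ (Fin d) => ‖x - c‖ ^ 2 - R ^ 2 := by fun_prop
  have hB : Bornology.IsBounded (ball c R) := isBounded_ball
  have hAfin : volume A ≠ ⊤ := hb.measure_lt_top.ne
  have hBfin : volume (ball c R) ≠ ⊤ := measure_ball_lt_top.ne
  have key : ∫ x in ball c R, (‖x - c‖ ^ 2 - R ^ 2) ≤ ∫ x in A, (‖x - c‖ ^ 2 - R ^ 2) := by
    rw [← integral_indicator measurableSet_ball, ← integral_indicator hA]
    refine integral_mono ((hint _ hB _ hgR).integrable_indicator measurableSet_ball)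
      ((hint _ hb _ hgR).integrable_indicator hA) ?_
    intro x
    by_cases hx : x ∈ ball c R
    · have h1 : ‖x - c‖ < R := by rwa [mem_ball, dist_eq_norm] at hx
      have h2 : ‖x - c‖ ^ 2 - R ^ 2 ≤ 0 := by nlinarith [norm_nonneg (x - c)]
      by_cases hxA : x ∈ A
      · simp only [indicator_of_mem hx, indicator_of_mem hxA, le_refl]
      · simp only [indicator_of_mem hx, indicator_of_notMem hxA]
        exact h2
    · have h1 : R ≤ ‖x - c‖ := by rwa [mem_ball, dist_eq_norm, not_lt] at hx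
      have h2 : 0 ≤ ‖x - c‖ ^ 2 - R ^ 2 := by nlinarith [norm_nonneg (x - c)]
      by_cases hxA : x ∈ A
      · simp only [indicator_of_notMem hx, indicator_of_mem hxA]
        exact h2
      · simp only [indicator_of_notMem hx, indicator_of_notMem hxA, le_refl]
  have hA1 : ∫ x in A, (‖x - c‖ ^ 2 - R ^ 2) = (∫ x in A, ‖x - c‖ ^ 2) - R ^ 2 * volume.real A := by
    rw [integral_sub (hint _ hb _ hgc) (integrableOn_const hAfin), setIntegral_const, smul_eq_mul,
      mul_comm (volume.real A)]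
  have hB1 : ∫ x in ball c R, (‖x - c‖ ^ 2 - R ^ 2) =
      (∫ x in ball c R, ‖x - c‖ ^ 2) - R ^ 2 * volume.real (ball c R) := by
    rw [integral_sub (hint _ hB _ hgc) (integrableOn_const hBfin), setIntegral_const, smul_eq_mul,
      mul_comm (volume.real (ball c R))]
  rw [hA1, hB1, bt_vol hd c hR, ← hvol, bt_mom hd c hR] at key
  have h4 : (d : ℝ) / (d + 2) * v ^ (2 / (d : ℝ)) * volume.real A =
      (d : ℝ) / (d + 2) * om d * R ^ (d + 2) := by
    rw [← hR2, hvol]
    ring
  rw [h4]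
  linarith

end Pool.Agent.Helper876.NK
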