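import Pool.Agent.R225.NM.Fin

set_option autoImplicit false

/-!
# Definitions for the existence of a maximiser of the first Neumann eigenvalue for given boundary measure
-/

open MeasureTheory Set Metric Filter Topology WithLp
open scoped ENNReal NNReal Pointwise Real

namespace Pool.Agent.Helper876.NK

/-- the projection forgetting the coordinate `0` -/
noncomputable def pr (d : ℕ) (x : EuclideanSpace ℝ (Fin (d + 1))) : EuclideanSpace ℝ (Fin d) :=
  toLp 2 fun j => x (Fin.succ j)

/-- the volume of the unit ball -/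
noncomputable def om (d : ℕ) : ℝ := volume.real (ball (0 : EuclideanSpace ℝ (Fin d)) 1)

/-- partial derivative -/
noncomputable def pd {n : ℕ} (i : Fin n) (u : EuclideanSpace ℝ (Fin n) → ℝ)
    (x : EuclideanSpace ℝ (Fin n)) : ℝ := fderiv ℝ u x (EuclideanSpace.single i 1)

/-- radial derivative `x · ∇u` -/
noncomputable def ra {n : ℕ} (u : EuclideanSpace ℝ (Fin n) → ℝ)
    (x : EuclideanSpace ℝ (Fin n)) : ℝ := fderiv ℝ u x x

/-- the operator `Δ - (x · ∇)² - n x · ∇` -/
noncomputable def op {n : ℕ} (u : EuclideanSpace ℝ (Fin n) → ℝ)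
    (x : EuclideanSpace ℝ (Fin n)) : ℝ :=
  (∑ i, pd i (pd i u) x) - ra (ra u) x - n * ra u x

/-- a polynomial as a function -/
noncomputable def ev {n : ℕ} (P : MvPolynomial (Fin n) ℝ) (x : EuclideanSpace ℝ (Fin n)) : ℝ :=
  MvPolynomial.eval (fun i => x i) P

end Pool.Agent.Helper876.NK
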