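import Pool.Agent.R225.NM.Fin

set_option autoImplicit false

/-!
# Long boxes have small Neumann eigenvalues and controlled boundary measure
-/

open MeasureTheory Set Metric Filter Topology WithLp
open scoped ENNReal NNReal Pointwise Real

namespace Pool.Agent.Helper876.NK

open Pool.Agent.R225.NM

/-- the closed unit cube without the open unit cube -/
def Q (m : ℕ) : Set (EuclideanSpace ℝ (Fin (m + 1))) :=
  {x | (∀ i, x i ∈ Icc (0:ℝ) 1) ∧ ¬ ∀ i, x i ∈ Ioo (0:ℝ) 1}

/-- the embedding of a face -/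
noncomputable def face (m : ℕ) (i : Fin (m + 1)) (c : ℝ) (y : EuclideanSpace ℝ (Fin m)) :
    EuclideanSpace ℝ (Fin (m + 1)) :=
  toLp 2 (Fin.insertNth i c (ofLp y : Fin m → ℝ))

theorem face_isometry (m : ℕ) (i : Fin (m + 1)) (c : ℝ) : Isometry (face m i c) := by
  refine Isometry.of_dist_eq fun x y => ?_
  rw [EuclideanSpace.dist_eq, EuclideanSpace.dist_eq, Fin.sum_univ_succAbove _ i]
  simp [face]

theorem Q_subset (m : ℕ) : Q m ⊆ ⋃ i : Fin (m + 1),
    (face m i 0 '' {y | ∀ j, y j ∈ Icc (0:ℝ) 1}) ∪ (face m i 1 '' {y | ∀ j, y j ∈ Icc (0:ℝ) 1}) := by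
  rintro x ⟨h1, h2⟩
  push Not at h2
  obtain ⟨i, hi⟩ := h2
  have h3 : x i = 0 ∨ x i = 1 := by
    by_contra h
    push Not at h
    exact hi ⟨lt_of_le_of_ne (h1 i).1 (Ne.symm h.1), lt_of_le_of_ne (h1 i).2 h.2⟩
  refine mem_iUnion.2 ⟨i, ?_⟩
  have h4 : ∀ c, x i = c → x ∈ face m i c '' {y | ∀ j, y j ∈ Icc (0:ℝ) 1} := by
    intro c hc
    refine ⟨toLp 2 fun j => x (i.succAbove j), fun j => h1 _, ?_⟩
    ext l
    unfold face
    rcases Fin.eq_self_or_eq_succAbove i l with h | ⟨j, hj⟩
    · subst h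
      simp [hc]
    · subst hj
      simp
  rcases h3 with h | h
  · exact Or.inl (h4 0 h)
  · exact Or.inr (h4 1 h)

theorem Q_lt_top (m : ℕ) : (μHE[m] : Measure (EuclideanSpace ℝ (Fin (m + 1)))) (Q m) < ⊤ := by
  have hK : volume {y : EuclideanSpace ℝ (Fin m) | ∀ j, y j ∈ Icc (0:ℝ) 1} < ⊤ := by
    refine Bornology.IsBounded.measure_lt_top (isBounded_iff_forall_norm_le.2 ⟨√(∑ i : Fin m, 1),
      fun x hx => ?_⟩)
    rw [EuclideanSpace.norm_eq]
    refine Real.sqrt_le_sqrt (Finset.sum_le_sum fun i _ => ?_)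
    have h1 := hx i
    rw [Real.norm_eq_abs, sq_abs]
    nlinarith [h1.1, h1.2]
  refine (measure_mono (Q_subset m)).trans_lt ?_
  refine (measure_iUnion_le _).trans_lt ?_
  rw [tsum_fintype]
  refine ENNReal.sum_lt_top.2 fun i _ => ?_
  refine (measure_union_le _ _).trans_lt ?_
  rw [(face_isometry m i 0).euclideanHausdorffMeasure_image,
    (face_isometry m i 1).euclideanHausdorffMeasure_image,
    EuclideanSpace.euclideanHausdorffMeasure_eq_volume]
  exact ENNReal.add_lt_top.2 ⟨hK, hK⟩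

theorem front_box {d : ℕ} {a : Fin d → ℝ} (ha : ∀ i, 0 < a i) :
    frontier (Box a) ⊆ {x | (∀ i, x i ∈ Icc 0 (a i)) ∧ ¬ ∀ i, x i ∈ Ioo 0 (a i)} := by
  intro x hx
  have ho : IsOpen (Box a) := (box_domain ha).isOpen
  rw [ho.frontier_eq] at hx
  refine ⟨fun i => ?_, fun h => hx.2 h⟩
  have hcl : IsClosed {x : EuclideanSpace ℝ (Fin d) | x i ∈ Icc 0 (a i)} := by
    have h3 : Continuous fun x : EuclideanSpace ℝ (Fin d) => x i := by fun_prop
    exact isClosed_Icc.preimage h3
  have hsub : closure (Box a) ⊆ {x : EuclideanSpace ℝ (Fin d) | x i ∈ Icc 0 (a i)} :=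
    closure_minimal (fun y hy => Ioo_subset_Icc_self (hy i)) hcl
  exact hsub hx.1

/-- the sides of the long box -/
noncomputable def lb (m R : ℕ) (i : Fin (m + 1)) : ℝ := if i = 0 then (R : ℝ) else 1

theorem lb_pos (m : ℕ) {R : ℕ} (hR : 1 ≤ R) (i : Fin (m + 1)) : 0 < lb m R i := by
  unfold lb
  split_ifs
  · exact_mod_cast hR
  · exact one_pos

theorem long_cover (m : ℕ) {R : ℕ} (hR : 1 ≤ R) : frontier (Box (lb m R)) ⊆
    ⋃ j ∈ Finset.range R, (fun x => x + (j:ℝ) • (EuclideanSpace.single 0 1 :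
      EuclideanSpace ℝ (Fin (m + 1)))) '' Q m := by
  intro x hx
  obtain ⟨h1, h2⟩ := front_box (lb_pos m hR) hx
  have h0 := h1 0
  simp only [lb, if_true] at h0
  obtain ⟨j, hj, hj1, hj2⟩ : ∃ j : ℕ, j < R ∧ (j:ℝ) ≤ x 0 ∧ x 0 ≤ j + 1 := by
    rcases lt_or_eq_of_le h0.2 with h | h
    · refine ⟨⌊x 0⌋₊, ?_, Nat.floor_le h0.1, (Nat.lt_floor_add_one _).le⟩
      exact (Nat.floor_lt h0.1).2 h
    · refine ⟨R - 1, by omega, ?_, ?_⟩
      · rw [h, Nat.cast_sub hR]
        push_cast
        linarith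
      · rw [h, Nat.cast_sub hR]
        push_cast
        linarith
  simp only [mem_iUnion, Finset.mem_range]
  refine ⟨j, hj, x - (j:ℝ) • EuclideanSpace.single 0 1, ⟨fun i => ?_, fun h => h2 fun i => ?_⟩,
    by simp⟩
  · rcases eq_or_ne i 0 with hi | hi
    · subst hi
      simp only [PiLp.sub_apply, PiLp.smul_apply, PiLp.single_apply, if_true,
        smul_eq_mul, mul_one]
      exact ⟨by linarith, by linarith⟩
    · have := h1 i
      simp only [lb, if_neg hi] at this
      simpa [PiLp.single_apply, hi] using this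
  · have h3 := h i
    rcases eq_or_ne i 0 with hi | hi
    · subst hi
      simp only [PiLp.sub_apply, PiLp.smul_apply, PiLp.single_apply, if_true,
        smul_eq_mul, mul_one] at h3
      simp only [lb, if_true]
      have h4 : (j:ℝ) + 1 ≤ R := by exact_mod_cast hj
      have h5 : (0:ℝ) ≤ j := Nat.cast_nonneg j
      exact ⟨by linarith [h3.1], by linarith [h3.2]⟩
    · simp only [lb, if_neg hi]
      simpa [PiLp.single_apply, hi] using h3

theorem per_long (m : ℕ) {R : ℕ} (hR : 1 ≤ R) :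
    (μHE[m] : Measure (EuclideanSpace ℝ (Fin (m + 1)))) (frontier (Box (lb m R))) ≤
      R * (μHE[m] : Measure (EuclideanSpace ℝ (Fin (m + 1)))) (Q m) := by
  refine (measure_mono (long_cover m hR)).trans ?_
  refine (measure_biUnion_finset_le _ _).trans ?_
  have h1 : ∀ j : ℕ, (μHE[m] : Measure (EuclideanSpace ℝ (Fin (m + 1))))
      ((fun x => x + (j:ℝ) • (EuclideanSpace.single 0 1 :
      EuclideanSpace ℝ (Fin (m + 1)))) '' Q m) = (μHE[m] : Measure _) (Q m) := by
    intro j
    exact (isometry_add_right _).euclideanHausdorffMeasure_image _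
  rw [Finset.sum_congr rfl fun j _ => h1 j]
  simp

/-- the boundary measure of a convex domain is positive -/
theorem per_pos {m : ℕ} {Ω : Set (EuclideanSpace ℝ (Fin (m + 1)))} (h : IsConvexDomain Ω) :
    0 < (μHE[m] : Measure (EuclideanSpace ℝ (Fin (m + 1)))) (frontier Ω) := by
  obtain ⟨x0, hx0⟩ := h.nonempty
  obtain ⟨r, hr, hball⟩ := Metric.isOpen_iff.1 h.isOpen x0 hx0
  -- the projection forgetting the coordinate 0
  set p : EuclideanSpace ℝ (Fin (m + 1)) → EuclideanSpace ℝ (Fin m) :=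
    fun x => toLp 2 fun j => x (Fin.succ j) with hp
  have hlip : LipschitzWith 1 p := by
    refine LipschitzWith.of_dist_le_mul fun x y => ?_
    rw [NNReal.coe_one, one_mul, EuclideanSpace.dist_eq, EuclideanSpace.dist_eq,
      Fin.sum_univ_succ]
    refine Real.sqrt_le_sqrt ?_
    have : 0 ≤ dist (x 0) (y 0) ^ 2 := sq_nonneg _
    simpa [hp] using this
  have hsub : ball (p x0) r ⊆ p '' frontier Ω := by
    intro y hy
    -- the line over y
    set L : ℝ → EuclideanSpace ℝ (Fin (m + 1)) := fun t => face m 0 t y with hL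
    have hLc : Continuous L := by
      have : L = fun t => face m 0 0 y + t • EuclideanSpace.single 0 1 := by
        funext t
        ext l
        simp only [hL, face, PiLp.add_apply, PiLp.smul_apply, smul_eq_mul,
          PiLp.single_apply]
        refine Fin.cases ?_ (fun j => ?_) l
        · simp
        · simp [Fin.succ_ne_zero]
      rw [this]
      fun_prop
    have hpL : ∀ t, p (L t) = y := by
      intro t
      ext j
      simp [hp, hL, face]
    have hin : L (x0 0) ∈ Ω := by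
      refine hball ?_
      rw [mem_ball, EuclideanSpace.dist_eq, Fin.sum_univ_succ]
      have h2 : dist y (p x0) < r := hy
      rw [EuclideanSpace.dist_eq] at h2
      have h3 : (L (x0 0)) 0 = x0 0 := by simp [hL, face]
      have h4 : ∀ j : Fin m, (L (x0 0)) j.succ = y j := fun j => by simp [hL, face]
      rw [h3, dist_self]
      simp only [h4]
      simpa [hp] using h2
    set T : Set ℝ := L ⁻¹' closure Ω with hT
    have hTc : IsClosed T := isClosed_closure.preimage hLc
    have hTb : BddAbove T := by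
      obtain ⟨B, hB⟩ := h.isBounded.closure.subset_closedBall (0 : EuclideanSpace ℝ (Fin (m + 1)))
      refine ⟨B, fun t ht => ?_⟩
      have h2 := hB ht
      rw [mem_closedBall_zero_iff] at h2
      have h3 : ‖(L t) 0‖ ≤ ‖L t‖ := PiLp.norm_apply_le (L t) 0
      have h4 : (L t) 0 = t := by simp [hL, face]
      rw [h4, Real.norm_eq_abs] at h3
      exact (le_abs_self t).trans (h3.trans h2)
    have hTn : T.Nonempty := ⟨x0 0, subset_closure hin⟩
    have hmax := hTc.csSup_mem hTn hTb
    refine ⟨L (sSup T), ?_, hpL _⟩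
    rw [h.isOpen.frontier_eq]
    refine ⟨hmax, fun hmem => ?_⟩
    have h5 : ∀ᶠ t in 𝓝 (sSup T), L t ∈ Ω := hLc.continuousAt.eventually_mem
      (h.isOpen.mem_nhds hmem)
    obtain ⟨ε, hε, h6⟩ := Metric.eventually_nhds_iff.1 h5
    have h7 : L (sSup T + ε / 2) ∈ Ω := h6 (by
      rw [Real.dist_eq, add_sub_cancel_left, abs_of_pos (half_pos hε)]
      exact half_lt_self hε)
    have h8 := le_csSup hTb (show sSup T + ε / 2 ∈ T from subset_closure h7)
    linarith
  have h1 : (μHE[m] : Measure (EuclideanSpace ℝ (Fin m))) (p '' frontier Ω) ≤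
      (μHE[m] : Measure (EuclideanSpace ℝ (Fin (m + 1)))) (frontier Ω) := by
    have h2 := hlip.hausdorffMeasure_image_le (d := (m:ℝ)) (Nat.cast_nonneg m) (frontier Ω)
    rw [Measure.euclideanHausdorffMeasure_def, Measure.euclideanHausdorffMeasure_def,
      Measure.smul_apply, Measure.smul_apply]
    have h3 : (μH[(m:ℝ)] : Measure (EuclideanSpace ℝ (Fin m))) (p '' frontier Ω) ≤
        (μH[(m:ℝ)] : Measure (EuclideanSpace ℝ (Fin (m + 1)))) (frontier Ω) := by
      simpa using h2
    exact smul_le_smul_of_nonneg_left h3 zero_le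
  refine lt_of_lt_of_le ?_ h1
  rw [EuclideanSpace.euclideanHausdorffMeasure_eq_volume]
  exact lt_of_lt_of_le (isOpen_ball.measure_pos volume ⟨p x0, mem_ball_self hr⟩)
    (measure_mono hsub)

end Pool.Agent.Helper876.NK
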