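import Mathlib

set_option autoImplicit false

open MeasureTheory Set Metric Filter Topology
open scoped ENNReal NNReal Pointwise

namespace Pool.Agent.Helper876.NK


/-- a unit vector orthogonal to a given one -/
theorem exists_perp (v : EuclideanSpace ℝ (Fin 2)) (hv : ‖v‖ = 1) :
    ∃ w : EuclideanSpace ℝ (Fin 2), ‖w‖ = 1 ∧ (inner ℝ v w : ℝ) = 0 ∧
      ∀ x : EuclideanSpace ℝ (Fin 2), x = (inner ℝ x v : ℝ) • v + (inner ℝ x w : ℝ) • w := by
  have h1 : v 0 ^ 2 + v 1 ^ 2 = 1 := by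
    have h := EuclideanSpace.norm_eq v
    rw [hv, Fin.sum_univ_two] at h
    have h2 : (1 : ℝ) ^ 2 = ‖v 0‖ ^ 2 + ‖v 1‖ ^ 2 := by
      conv_lhs => rw [h]
      exact Real.sq_sqrt (by positivity)
    simp only [Real.norm_eq_abs, sq_abs] at h2
    linarith
  refine ⟨!₂[-v 1, v 0], ?_, ?_, ?_⟩
  · rw [EuclideanSpace.norm_eq, Fin.sum_univ_two]
    simp only [Real.norm_eq_abs, sq_abs]
    change √((-v 1) ^ 2 + v 0 ^ 2) = 1
    have : (-v 1) ^ 2 + v 0 ^ 2 = 1 := by linarith [h1, neg_sq (v 1)]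
    rw [this, Real.sqrt_one]
  · rw [PiLp.inner_apply, Fin.sum_univ_two]
    have e : (!₂[-v 1, v 0] : EuclideanSpace ℝ (Fin 2)) 0 = -v 1 := rfl
    have e' : (!₂[-v 1, v 0] : EuclideanSpace ℝ (Fin 2)) 1 = v 0 := rfl
    rw [e, e']
    simp only [RCLike.inner_apply, conj_trivial]
    ring
  · intro x
    have e : (!₂[-v 1, v 0] : EuclideanSpace ℝ (Fin 2)) 0 = -v 1 := rfl
    have e' : (!₂[-v 1, v 0] : EuclideanSpace ℝ (Fin 2)) 1 = v 0 := rfl
    have i1 : (inner ℝ x v : ℝ) = v 0 * x 0 + v 1 * x 1 := by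
      rw [PiLp.inner_apply, Fin.sum_univ_two]
      simp only [RCLike.inner_apply, conj_trivial]
    have i2 : (inner ℝ x (!₂[-v 1, v 0] : EuclideanSpace ℝ (Fin 2)) : ℝ)
        = -v 1 * x 0 + v 0 * x 1 := by
      rw [PiLp.inner_apply, Fin.sum_univ_two, e, e']
      simp only [RCLike.inner_apply, conj_trivial]
    rw [i1, i2]
    ext i
    fin_cases i
    · change x 0 = (v 0 * x 0 + v 1 * x 1) * v 0 + (-v 1 * x 0 + v 0 * x 1) * (-v 1)
      linear_combination (-x 0) * h1
    · change x 1 = (v 0 * x 0 + v 1 * x 1) * v 1 + (-v 1 * x 0 + v 0 * x 1) * (v 0)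
      linear_combination (-x 1) * h1

/-- the farthest point of the closure on a ray -/
theorem far_pt {Ω : Set (EuclideanSpace ℝ (Fin 2))} {x0 w : EuclideanSpace ℝ (Fin 2)} (hw : w ≠ 0)
    (hb : Bornology.IsBounded Ω) (hx : x0 ∈ closure Ω) :
    ∃ b : ℝ, 0 ≤ b ∧ x0 + b • w ∈ closure Ω ∧ ∀ s : ℝ, x0 + s • w ∈ closure Ω → s ≤ b := by
  set I : Set ℝ := {s | x0 + s • w ∈ closure Ω} with hI
  have hcl : IsClosed I := isClosed_closure.preimage
    (continuous_const.add (continuous_id.smul continuous_const))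
  have h0 : (0 : ℝ) ∈ I := by
    simp only [hI, Set.mem_ofPred_eq, zero_smul, add_zero]
    exact hx
  obtain ⟨R, hR⟩ := hb.closure.subset_closedBall x0
  have hw0 : 0 < ‖w‖ := norm_pos_iff.2 hw
  have hbd : BddAbove I := by
    refine ⟨R / ‖w‖, fun s hs => ?_⟩
    have h1 := hR hs
    rw [mem_closedBall, dist_eq_norm, add_sub_cancel_left, norm_smul, Real.norm_eq_abs] at h1
    rw [le_div_iff₀ hw0]
    exact (mul_le_mul_of_nonneg_right (le_abs_self s) hw0.le).trans h1
  exact ⟨sSup I, le_csSup hbd h0, hcl.csSup_mem ⟨0, h0⟩ hbd, fun s hs => le_csSup hbd hs⟩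

/-- one of the two parts of the boundary below the line -/
theorem side {Ω : Set (EuclideanSpace ℝ (Fin 2))} (ho : IsOpen Ω) (hc : Convex ℝ Ω)
    (hb : Bornology.IsBounded Ω) {x0 v w : EuclideanSpace ℝ (Fin 2)} (hv : ‖v‖ = 1)
    (hw : ‖w‖ = 1) (hvw : (inner ℝ v w : ℝ) = 0) {r b : ℝ} (hr : 0 < r) (hb0 : 0 < b)
    (hC : x0 - r • v ∈ closure Ω) (hB : x0 + b • w ∈ closure Ω) :
    ENNReal.ofReal (√(b ^ 2 + r ^ 2)) ≤
      (Measure.hausdorffMeasure 1 : Measure (EuclideanSpace ℝ (Fin 2)))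
        ((frontier Ω ∩ {x | (inner ℝ (x - x0) v : ℝ) < 0}) ∩
          {x | 0 < (inner ℝ (x - x0) w : ℝ)}) := by
  have hwv : (inner ℝ w v : ℝ) = 0 := by rw [real_inner_comm]; exact hvw
  have hvv : (inner ℝ v v : ℝ) = 1 := by rw [real_inner_self_eq_norm_sq, hv, one_pow]
  have hww : (inner ℝ w w : ℝ) = 1 := by rw [real_inner_self_eq_norm_sq, hw, one_pow]
  set u : EuclideanSpace ℝ (Fin 2) := -(r • v) - b • w with hu
  set n : EuclideanSpace ℝ (Fin 2) := -(b • v) + r • w with hn
  have huu : (inner ℝ u u : ℝ) = b ^ 2 + r ^ 2 := by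
    simp only [hu, inner_sub_left, inner_sub_right, inner_neg_left, inner_neg_right,
      real_inner_smul_left, real_inner_smul_right, hvv, hww, hvw, hwv]
    ring
  have hnn : (inner ℝ n n : ℝ) = b ^ 2 + r ^ 2 := by
    simp only [hn, inner_add_left, inner_add_right, inner_neg_left, inner_neg_right,
      real_inner_smul_left, real_inner_smul_right, hvv, hww, hvw, hwv]
    ring
  have hnu : (inner ℝ n u : ℝ) = 0 := by
    simp only [hn, hu, inner_add_left, inner_sub_right, inner_neg_left, inner_neg_right,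
      real_inner_smul_left, real_inner_smul_right, hvv, hww, hvw, hwv]
    ring
  have huv : (inner ℝ u v : ℝ) = -r := by
    simp only [hu, inner_sub_left, inner_neg_left, real_inner_smul_left, hvv, hwv]
    ring
  have huw : (inner ℝ u w : ℝ) = -b := by
    simp only [hu, inner_sub_left, inner_neg_left, real_inner_smul_left, hww, hvw]
    ring
  have hnv : (inner ℝ n v : ℝ) = -b := by
    simp only [hn, inner_add_left, inner_neg_left, real_inner_smul_left, hvv, hwv]
    ring
  have hnw : (inner ℝ n w : ℝ) = r := by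
    simp only [hn, inner_add_left, inner_neg_left, real_inner_smul_left, hww, hvw]
    ring
  set l : ℝ := √(b ^ 2 + r ^ 2) with hl
  have hpos : 0 < b ^ 2 + r ^ 2 := by positivity
  have hl0 : 0 < l := Real.sqrt_pos.2 hpos
  have hll : l ^ 2 = b ^ 2 + r ^ 2 := Real.sq_sqrt hpos.le
  have hn0 : n ≠ 0 := by
    intro h
    rw [h, inner_zero_left] at hnn
    linarith
  have hunorm : ‖u‖ = l := by
    have h1 : ‖u‖ ^ 2 = l ^ 2 := by rw [← real_inner_self_eq_norm_sq, huu, hll]
    exact (sq_eq_sq₀ (norm_nonneg _) hl0.le).1 h1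
  set φ : EuclideanSpace ℝ (Fin 2) → ℝ := fun x => (inner ℝ (x - (x0 + b • w)) (l⁻¹ • u) : ℝ)
    with hφ
  have hφL : LipschitzWith 1 φ := by
    refine LipschitzWith.of_dist_le_mul fun x y => ?_
    rw [Real.dist_eq, NNReal.coe_one, one_mul, dist_eq_norm]
    have e : φ x - φ y = (inner ℝ (x - y) (l⁻¹ • u) : ℝ) := by
      simp only [hφ]
      rw [← inner_sub_left]
      congr 1
      abel
    rw [e]
    refine (abs_real_inner_le_norm _ _).trans ?_
    rw [norm_smul, hunorm, norm_inv, Real.norm_eq_abs, abs_of_pos hl0, inv_mul_cancel₀ hl0.ne',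
      mul_one]
  set P : Set (EuclideanSpace ℝ (Fin 2)) :=
    (frontier Ω ∩ {x | (inner ℝ (x - x0) v : ℝ) < 0}) ∩ {x | 0 < (inner ℝ (x - x0) w : ℝ)} with hP
  have hsub : Ioo (0 : ℝ) l ⊆ φ '' P := by
    intro t ht
    set lam : ℝ := t / l with hlam
    have hlam0 : 0 < lam := div_pos ht.1 hl0
    have hlam1 : lam < 1 := (div_lt_one hl0).2 ht.2
    set y : EuclideanSpace ℝ (Fin 2) := x0 + b • w + lam • u with hy
    have hyc : y ∈ closure Ω := by
      have h1 := hc.closure hB hC (show (0 : ℝ) ≤ 1 - lam by linarith) hlam0.le (by ring)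
      have e : (1 - lam) • (x0 + b • w) + lam • (x0 - r • v) = y := by
        rw [hy, hu]
        module
      rwa [e] at h1
    obtain ⟨τ, hτ0, hτc, hτm⟩ := far_pt hn0 hb hyc
    set x : EuclideanSpace ℝ (Fin 2) := y + τ • n with hxd
    have hxn : x ∉ Ω := by
      intro hxΩ
      have hcont : Continuous fun s : ℝ => y + s • n :=
        continuous_const.add (continuous_id.smul continuous_const)
      have hop : IsOpen ((fun s : ℝ => y + s • n) ⁻¹' Ω) := ho.preimage hcont
      obtain ⟨e, he, hball⟩ := Metric.isOpen_iff.1 hop τ hxΩ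
      have h1 : τ + e / 2 ∈ (fun s : ℝ => y + s • n) ⁻¹' Ω := by
        apply hball
        rw [mem_ball, Real.dist_eq, add_sub_cancel_left, abs_of_pos (by linarith)]
        linarith
      have h2 := hτm _ (subset_closure h1)
      linarith
    have hxx : x - x0 = b • w + lam • u + τ • n := by
      rw [hxd, hy]
      abel
    refine ⟨x, ⟨⟨?_, ?_⟩, ?_⟩, ?_⟩
    · rw [ho.frontier_eq]
      exact ⟨hτc, hxn⟩
    · change (inner ℝ (x - x0) v : ℝ) < 0
      rw [hxx]
      simp only [inner_add_left, real_inner_smul_left, hwv, huv, hnv]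
      nlinarith [mul_pos hlam0 hr, mul_nonneg hτ0 hb0.le]
    · change 0 < (inner ℝ (x - x0) w : ℝ)
      rw [hxx]
      simp only [inner_add_left, real_inner_smul_left, hww, huw, hnw]
      nlinarith [mul_pos (sub_pos.2 hlam1) hb0, mul_nonneg hτ0 hr.le]
    · have e : x - (x0 + b • w) = lam • u + τ • n := by
        rw [hxd, hy]
        abel
      simp only [hφ]
      rw [e]
      simp only [inner_add_left, real_inner_smul_left, real_inner_smul_right, huu, hnu]
      rw [← hll, hlam]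
      field_simp
      ring
  have h1 := hφL.hausdorffMeasure_image_le (zero_le_one : (0 : ℝ) ≤ 1) P
  rw [ENNReal.coe_one, ENNReal.one_rpow, one_mul] at h1
  refine le_trans ?_ h1
  refine le_trans ?_ (measure_mono hsub)
  rw [hausdorffMeasure_real, Real.volume_Ioo, sub_zero]

/- PLAIN PROOF. Cutting a planar convex domain by a line through the fixed interior point x0 shortens the
boundary by a fixed amount δ.
Let ball(x0, 2r) ⊆ Ω ⊆ ball(x0, D), H = {0 < ⟨x - x0, v⟩}, w ⟂ v a unit vector. The chord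
K = closure Ω ∩ {⟨x - x0, v⟩ = 0} is a segment [A, B], A = x0 - a w, B = x0 + b w, a, b ∈ [r, D]
(take sup / inf of {s | x0 + s w ∈ closure Ω}).
(1) frontier (Ω ∩ H) ⊆ (frontier Ω ∩ {0 ≤ ⟨x - x0, v⟩}) ∪ K, and μH[1] K ≤ a + b (K is the image of [-a, b] under the 1-Lipschitz
  map s ↦ x0 + s w; μH[1] = volume on ℝ).
(2) μH[1] (frontier Ω ∩ {⟨x - x0, v⟩ < 0}) ≥ a + b + δ with δ = r^2/(2D + r) or similar:
  Let C = x0 - r v ∈ Ω (any point of Ω at distance r below the line). Left part: u1 = (C - A)/|C - A|, n1 = the unit normal to u1 with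
  negative w-component and negative v-component. For every λ ∈ (0,1) let y = A + λ (C - A); y is in closure Ω. The ray y + τ n1, τ ≥ 0, stays
  in closure Ω for τ in a compact set, let τ* be its maximum, x = y + τ* n1; then x ∈ frontier Ω (closure Ω, and if x ∈ Ω then, Ω being
  open, τ* is not the maximum). x satisfies ⟨x - x0, v⟩ < 0, ⟨x - x0, w⟩ < 0 and ⟨x - A, u1⟩ = λ |C - A|. So the 1-Lipschitz map
  x ↦ ⟨x - A, u1⟩ maps frontier Ω ∩ {⟨x - x0, v⟩ < 0} ∩ {⟨x - x0, w⟩ < 0} onto a set containing (0, |C - A|), so that this set has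
  μH[1] ≥ |C - A| = sqrt(a^2 + r^2). In the same way the part with ⟨x - x0, w⟩ > 0 has μH[1] ≥ sqrt(b^2 + r^2). The two parts are disjoint
  and measurable. sqrt(a^2 + r^2) ≥ a + r^2/(2D + r) for 0 < a ≤ D.
(3) Add up: frontier Ω is the disjoint union of its parts in {0 ≤ ⟨x - x0, v⟩} and {⟨x - x0, v⟩ < 0}, both measurable. All in ENNReal. -/
theorem cut {Ω : Set (EuclideanSpace ℝ (Fin 2))} (ho : IsOpen Ω) (hc : Convex ℝ Ω)
    (hb : Bornology.IsBounded Ω) {x0 : EuclideanSpace ℝ (Fin 2)} (hx : x0 ∈ Ω) :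
    ∃ δ : ℝ, 0 < δ ∧ ∀ v : EuclideanSpace ℝ (Fin 2), ‖v‖ = 1 →
      (Measure.hausdorffMeasure 1 : Measure (EuclideanSpace ℝ (Fin 2)))
          (frontier (Ω ∩ {x | 0 < (inner ℝ (x - x0) v : ℝ)})) + ENNReal.ofReal δ ≤
        (Measure.hausdorffMeasure 1 : Measure (EuclideanSpace ℝ (Fin 2))) (frontier Ω) := by
  have hd1 : (0 : ℝ) < 1 := one_pos
  obtain ⟨ε, hε, hball⟩ := Metric.isOpen_iff.1 ho x0 hx
  obtain ⟨D0, hD0⟩ := hb.closure.subset_closedBall x0
  set r : ℝ := ε / 2 with hr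
  have hr0 : 0 < r := by positivity
  set D : ℝ := max D0 0 with hD
  have hDn : 0 ≤ D := le_max_right _ _
  have hDb : ∀ z ∈ closure Ω, ‖z - x0‖ ≤ D := by
    intro z hz
    have h1 := hD0 hz
    rw [mem_closedBall, dist_eq_norm] at h1
    exact h1.trans (le_max_left _ _)
  have hin : ∀ z : EuclideanSpace ℝ (Fin 2), ‖z‖ = 1 → x0 + r • z ∈ Ω := by
    intro z hz
    apply hball
    rw [mem_ball, dist_eq_norm, add_sub_cancel_left, norm_smul, hz, mul_one, Real.norm_eq_abs,
      abs_of_pos hr0]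
    linarith
  have hsq : ∀ b : ℝ, 0 ≤ b → b ≤ D → b + r ^ 2 / (2 * D + r) ≤ √(b ^ 2 + r ^ 2) := by
    intro b hb0 hbD
    have hq : 0 < 2 * D + r := by linarith
    apply Real.le_sqrt_of_sq_le
    set q : ℝ := r / (2 * D + r) with hqd
    have hq0 : 0 ≤ q := by positivity
    have e1 : q * (2 * D + r) = r := by
      rw [hqd]
      field_simp
    have e2 : r ^ 2 / (2 * D + r) = r * q := by
      rw [hqd]
      ring
    rw [e2]
    have hq1 : q ≤ 1 := by
      rw [hqd, div_le_one hq]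
      linarith
    have h3 : 2 * b * q + r * q ^ 2 ≤ r := by
      have h4 : 2 * b * q ≤ 2 * D * q := by nlinarith
      have h5 : r * q ^ 2 ≤ r * q := by
        have : q ^ 2 ≤ q := by nlinarith
        exact mul_le_mul_of_nonneg_left this hr0.le
      linarith
    nlinarith [mul_le_mul_of_nonneg_left h3 hr0.le]
  refine ⟨r ^ 2 / (2 * D + r), div_pos (by positivity) (by linarith), fun v hv => ?_⟩
  obtain ⟨w, hw, hvw, hdec⟩ := exists_perp v hv
  have hw0 : w ≠ 0 := by
    intro h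
    rw [h, norm_zero] at hw
    exact zero_ne_one hw
  have hxc : x0 ∈ closure Ω := subset_closure hx
  obtain ⟨b, -, hbc, hbm⟩ := far_pt hw0 hb hxc
  obtain ⟨a, -, hac, ham⟩ := far_pt (neg_ne_zero.2 hw0) hb hxc
  have hbr : r ≤ b := hbm r (subset_closure (hin w hw))
  have har : r ≤ a := ham r (subset_closure (hin (-w) (by rw [norm_neg, hw])))
  have hbD : b ≤ D := by
    have h1 := hDb _ hbc
    rw [add_sub_cancel_left, norm_smul, hw, mul_one, Real.norm_eq_abs] at h1
    exact (le_abs_self b).trans h1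
  have haD : a ≤ D := by
    have h1 := hDb _ hac
    rw [add_sub_cancel_left, norm_smul, norm_neg, hw, mul_one, Real.norm_eq_abs] at h1
    exact (le_abs_self a).trans h1
  have hC : x0 - r • v ∈ closure Ω := by
    have h1 := subset_closure (hin (-v) (by rw [norm_neg, hv]))
    rwa [smul_neg, ← sub_eq_add_neg] at h1
  have hR := side ho hc hb hv hw hvw hr0 (by linarith : 0 < b) hC hbc
  have hL := side ho hc hb hv (by rw [norm_neg, hw] : ‖-w‖ = 1)
    (by rw [inner_neg_right, hvw, neg_zero]) hr0 (by linarith : 0 < a) hC hac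
  have hcf : Continuous fun x : EuclideanSpace ℝ (Fin 2) => (inner ℝ (x - x0) v : ℝ) := by
    fun_prop
  have hcg : Continuous fun x : EuclideanSpace ℝ (Fin 2) => (inner ℝ (x - x0) w : ℝ) := by
    fun_prop
  set A : Set (EuclideanSpace ℝ (Fin 2)) := {x | 0 ≤ (inner ℝ (x - x0) v : ℝ)} with hA
  have hAcl : IsClosed A := isClosed_le continuous_const hcf
  have hAm : MeasurableSet A := hAcl.measurableSet
  set K : Set (EuclideanSpace ℝ (Fin 2)) := closure Ω ∩ {x | (inner ℝ (x - x0) v : ℝ) = 0} with hK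
  have hfr : frontier (Ω ∩ {x | 0 < (inner ℝ (x - x0) v : ℝ)}) ⊆ (frontier Ω ∩ A) ∪ K := by
    refine (frontier_inter_subset _ _).trans (union_subset_union ?_ ?_)
    · refine inter_subset_inter_right _ ?_
      refine closure_minimal ?_ hAcl
      intro x hx
      have hx' : 0 < (inner ℝ (x - x0) v : ℝ) := hx
      exact hx'.le
    · refine inter_subset_inter_right _ ?_
      intro x hx
      have h1 := frontier_lt_subset_eq (continuous_const (y := (0 : ℝ))) hcf hx
      exact (Eq.symm h1)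
  have hKm : (Measure.hausdorffMeasure 1 : Measure (EuclideanSpace ℝ (Fin 2))) K
      ≤ ENNReal.ofReal (b + a) := by
    have hsub : K ⊆ (fun s : ℝ => x0 + s • w) '' Icc (-a) b := by
      rintro x ⟨hxc, hx0⟩
      have h1 := hdec (x - x0)
      have hx0' : (inner ℝ (x - x0) v : ℝ) = 0 := hx0
      rw [hx0', zero_smul, zero_add] at h1
      have h2 : x0 + (inner ℝ (x - x0) w : ℝ) • w = x := by
        rw [← h1]
        abel
      refine ⟨(inner ℝ (x - x0) w : ℝ), ⟨?_, ?_⟩, h2⟩
      · have h3 : x0 + (-(inner ℝ (x - x0) w : ℝ)) • (-w) ∈ closure Ω := by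
          rw [neg_smul_neg, h2]
          exact hxc
        have := ham _ h3
        linarith
      · exact hbm _ (by rw [h2]; exact hxc)
    have hLip : LipschitzWith 1 (fun s : ℝ => x0 + s • w) := by
      refine LipschitzWith.of_dist_le_mul fun s t => ?_
      rw [NNReal.coe_one, one_mul, dist_add_left, dist_eq_norm, ← sub_smul, norm_smul, hw, mul_one,
        Real.dist_eq, Real.norm_eq_abs]
    have h1 := hLip.hausdorffMeasure_image_le (zero_le_one : (0 : ℝ) ≤ 1) (Icc (-a) b)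
    rw [ENNReal.coe_one, ENNReal.one_rpow, one_mul, hausdorffMeasure_real, Real.volume_Icc,
      sub_neg_eq_add] at h1
    exact (measure_mono hsub).trans h1
  set PR : Set (EuclideanSpace ℝ (Fin 2)) :=
    (frontier Ω ∩ {x | (inner ℝ (x - x0) v : ℝ) < 0}) ∩ {x | 0 < (inner ℝ (x - x0) w : ℝ)} with hPR
  set PL : Set (EuclideanSpace ℝ (Fin 2)) :=
    (frontier Ω ∩ {x | (inner ℝ (x - x0) v : ℝ) < 0}) ∩ {x | 0 < (inner ℝ (x - x0) (-w) : ℝ)}
    with hPL
  have hPRm : MeasurableSet PR :=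
    (isClosed_frontier.measurableSet.inter (isOpen_lt hcf continuous_const).measurableSet).inter
      (isOpen_lt continuous_const hcg).measurableSet
  have hdisj : Disjoint PL PR := by
    rw [Set.disjoint_left]
    rintro x ⟨-, h1⟩ ⟨-, h2⟩
    have h1' : 0 < (inner ℝ (x - x0) (-w) : ℝ) := h1
    have h2' : 0 < (inner ℝ (x - x0) w : ℝ) := h2
    rw [inner_neg_right] at h1'
    linarith
  have hunion : PL ∪ PR ⊆ frontier Ω \ A := by
    rintro x (⟨⟨h1, h2⟩, -⟩ | ⟨⟨h1, h2⟩, -⟩)
    · exact ⟨h1, fun h3 => absurd (show (inner ℝ (x - x0) v : ℝ) < 0 from h2) (not_lt.2 h3)⟩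
    · exact ⟨h1, fun h3 => absurd (show (inner ℝ (x - x0) v : ℝ) < 0 from h2) (not_lt.2 h3)⟩
  have hlow : ENNReal.ofReal (b + a + r ^ 2 / (2 * D + r)) ≤
      (Measure.hausdorffMeasure 1 : Measure (EuclideanSpace ℝ (Fin 2))) (frontier Ω \ A) := by
    refine le_trans ?_ (measure_mono hunion)
    rw [measure_union hdisj hPRm]
    refine le_trans ?_ (add_le_add hL hR)
    rw [← ENNReal.ofReal_add (Real.sqrt_nonneg _) (Real.sqrt_nonneg _)]
    apply ENNReal.ofReal_le_ofReal
    have h1 := hsq b (by linarith) hbD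
    have h2 : a ≤ √(a ^ 2 + r ^ 2) := Real.le_sqrt_of_sq_le (by nlinarith)
    linarith
  calc (Measure.hausdorffMeasure 1 : Measure (EuclideanSpace ℝ (Fin 2)))
          (frontier (Ω ∩ {x | 0 < (inner ℝ (x - x0) v : ℝ)}))
        + ENNReal.ofReal (r ^ 2 / (2 * D + r))
      ≤ ((Measure.hausdorffMeasure 1 : Measure (EuclideanSpace ℝ (Fin 2))) (frontier Ω ∩ A)
          + ENNReal.ofReal (b + a)) + ENNReal.ofReal (r ^ 2 / (2 * D + r)) := by
        gcongr
        exact (measure_mono hfr).trans ((measure_union_le _ _).trans (by gcongr))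
    _ = (Measure.hausdorffMeasure 1 : Measure (EuclideanSpace ℝ (Fin 2))) (frontier Ω ∩ A)
          + ENNReal.ofReal (b + a + r ^ 2 / (2 * D + r)) := by
        rw [add_assoc, ← ENNReal.ofReal_add (by linarith) (by positivity)]
    _ ≤ (Measure.hausdorffMeasure 1 : Measure (EuclideanSpace ℝ (Fin 2))) (frontier Ω ∩ A)
          + (Measure.hausdorffMeasure 1 : Measure (EuclideanSpace ℝ (Fin 2))) (frontier Ω \ A) := by
        gcongr
    _ = (Measure.hausdorffMeasure 1 : Measure (EuclideanSpace ℝ (Fin 2))) (frontier Ω) :=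
        measure_inter_add_sdiff _ hAm


end Pool.Agent.Helper876.NK
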