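import Mathlib

set_option autoImplicit false

open MeasureTheory Set Metric Filter Topology
open scoped ENNReal NNReal Pointwise

namespace Pool.Agent.Helper876.NK

/- PLAIN PROOF. A line through x0 divides the integral of u over Ω into two zero parts.
Let v(t) = (cos t, sin t), F(t) = ∫_{Ω ∩ {0 < ⟨x - x0, v(t)⟩}} u. The lines {⟨x - x0, v⟩ = 0} are null sets, so
F(t + π) = ∫_Ω u - F(t) = - F(t) (v(t + π) = - v(t)), and F is continuous (dominated convergence: for t → t0 the indicator functions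
converge at every x ∈ Ω off the line of t0; u is bounded on the bounded set Ω). F(0) + F(π) = 0, so F vanishes somewhere in [0, π]
(intermediate value theorem). -/
/-- the unit vector of the angle t -/
noncomputable def hz_v (t : ℝ) : EuclideanSpace ℝ (Fin 2) := !₂[Real.cos t, Real.sin t]

theorem hz_inner (y : EuclideanSpace ℝ (Fin 2)) (t : ℝ) :
    (inner ℝ y (hz_v t) : ℝ) = y 0 * Real.cos t + y 1 * Real.sin t := by
  simp only [hz_v, PiLp.inner_apply, Fin.sum_univ_two, RCLike.inner_apply, conj_trivial]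
  simp [mul_comm]

theorem hz_norm (t : ℝ) : ‖hz_v t‖ = 1 := by
  rw [EuclideanSpace.norm_eq, Fin.sum_univ_two]
  simp [hz_v]

theorem hz_pi (t : ℝ) : hz_v (t + Real.pi) = -hz_v t := by
  ext i
  fin_cases i <;> simp [hz_v]

theorem hz_null (x0 v : EuclideanSpace ℝ (Fin 2)) (hv : ‖v‖ = 1) :
    volume {x : EuclideanSpace ℝ (Fin 2) | (inner ℝ (x - x0) v : ℝ) = 0} = 0 := by
  have h1 : {x : EuclideanSpace ℝ (Fin 2) | (inner ℝ (x - x0) v : ℝ) = 0} =
      (fun x => x - x0) ⁻¹' (((ℝ ∙ v)ᗮ : Submodule ℝ (EuclideanSpace ℝ (Fin 2))) :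
        Set (EuclideanSpace ℝ (Fin 2))) := by
    ext x
    show (inner ℝ (x - x0) v : ℝ) = 0 ↔ x - x0 ∈ (ℝ ∙ v)ᗮ
    rw [Submodule.mem_orthogonal_singleton_iff_inner_left]
  rw [h1, (measurePreserving_sub_right (volume : Measure (EuclideanSpace ℝ (Fin 2))) x0).measure_preimage
    (Submodule.closed_of_finiteDimensional _).measurableSet.nullMeasurableSet]
  refine Measure.addHaar_submodule volume _ ?_
  intro htop
  have h2 : v ∈ (ℝ ∙ v)ᗮ := by rw [htop]; trivial
  rw [Submodule.mem_orthogonal_singleton_iff_inner_left, real_inner_self_eq_norm_sq, hv] at h2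
  norm_num at h2

theorem hz_open (x0 v : EuclideanSpace ℝ (Fin 2)) :
    IsOpen {x : EuclideanSpace ℝ (Fin 2) | 0 < (inner ℝ (x - x0) v : ℝ)} :=
  isOpen_lt continuous_const (by fun_prop)

theorem hz_int {Ω : Set (EuclideanSpace ℝ (Fin 2))} (hb : Bornology.IsBounded Ω)
    {f : EuclideanSpace ℝ (Fin 2) → ℝ} (hf : Continuous f) : IntegrableOn f Ω :=
  (hf.continuousOn.integrableOn_compact hb.isCompact_closure).mono_set subset_closure

theorem hz_split {Ω : Set (EuclideanSpace ℝ (Fin 2))} (ho : IsOpen Ω)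
    (hb : Bornology.IsBounded Ω) (x0 v : EuclideanSpace ℝ (Fin 2)) (hv : ‖v‖ = 1)
    {f : EuclideanSpace ℝ (Fin 2) → ℝ} (hf : Continuous f) :
    ∫ x in Ω, f x = (∫ x in Ω ∩ {x | 0 < (inner ℝ (x - x0) v : ℝ)}, f x) +
      ∫ x in Ω ∩ {x | 0 < (inner ℝ (x - x0) (-v) : ℝ)}, f x := by
  have hi := hz_int hb hf
  have h1 : Disjoint (Ω ∩ {x | 0 < (inner ℝ (x - x0) v : ℝ)})
      (Ω ∩ {x | 0 < (inner ℝ (x - x0) (-v) : ℝ)}) := by
    rw [Set.disjoint_left]
    rintro x ⟨_, hx⟩ ⟨_, hx'⟩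
    have h2 : 0 < (inner ℝ (x - x0) v : ℝ) := hx
    have h3 : 0 < (inner ℝ (x - x0) (-v) : ℝ) := hx'
    rw [inner_neg_right] at h3
    linarith
  rw [← setIntegral_union h1 (ho.inter (hz_open x0 (-v))).measurableSet
    (hi.mono_set inter_subset_left) (hi.mono_set inter_subset_left)]
  refine setIntegral_congr_set ?_
  have h2 : ∀ᵐ x : EuclideanSpace ℝ (Fin 2), (inner ℝ (x - x0) v : ℝ) ≠ 0 := by
    have := hz_null x0 v hv
    rw [ae_iff]
    simpa using this
  filter_upwards [h2] with x hx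
  apply propext
  show x ∈ Ω ↔ x ∈ (Ω ∩ {x | 0 < (inner ℝ (x - x0) v : ℝ)}) ∪
      (Ω ∩ {x | 0 < (inner ℝ (x - x0) (-v) : ℝ)})
  constructor
  · intro hxΩ
    rcases lt_or_gt_of_ne hx with h | h
    · right
      refine ⟨hxΩ, ?_⟩
      show 0 < (inner ℝ (x - x0) (-v) : ℝ)
      rw [inner_neg_right]
      linarith
    · left
      exact ⟨hxΩ, h⟩
  · rintro (h | h)
    · exact h.1
    · exact h.1

theorem hz_cont {Ω : Set (EuclideanSpace ℝ (Fin 2))} (ho : IsOpen Ω)
    (hb : Bornology.IsBounded Ω) (x0 : EuclideanSpace ℝ (Fin 2))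
    {u : EuclideanSpace ℝ (Fin 2) → ℝ} (hu : Continuous u) :
    Continuous fun t : ℝ => ∫ x in Ω ∩ {x | 0 < (inner ℝ (x - x0) (hz_v t) : ℝ)}, u x := by
  have h1 : ∀ t : ℝ, ∫ x in Ω ∩ {x | 0 < (inner ℝ (x - x0) (hz_v t) : ℝ)}, u x =
      ∫ x in Ω, {x | 0 < (inner ℝ (x - x0) (hz_v t) : ℝ)}.indicator u x := by
    intro t
    rw [setIntegral_indicator (hz_open x0 (hz_v t)).measurableSet]
  simp_rw [h1]
  rw [continuous_iff_continuousAt]
  intro t0
  refine tendsto_integral_filter_of_dominated_convergence (fun x => ‖u x‖) ?_ ?_ ?_ ?_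
  · exact Filter.Eventually.of_forall fun t =>
      (hu.aestronglyMeasurable.indicator (hz_open x0 (hz_v t)).measurableSet)
  · refine Filter.Eventually.of_forall fun t => Filter.Eventually.of_forall fun x => ?_
    exact norm_indicator_le_norm_self u x
  · exact (hz_int hb hu).norm
  · have h2 : ∀ᵐ x : EuclideanSpace ℝ (Fin 2), (inner ℝ (x - x0) (hz_v t0) : ℝ) ≠ 0 := by
      have := hz_null x0 (hz_v t0) (hz_norm t0)
      rw [ae_iff]
      simpa using this
    refine ae_restrict_of_ae ?_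
    filter_upwards [h2] with x hx
    have hc : Continuous fun t : ℝ => (inner ℝ (x - x0) (hz_v t) : ℝ) := by
      simp_rw [hz_inner]
      fun_prop
    rcases lt_or_gt_of_ne hx with h | h
    · have h3 : ∀ᶠ t in 𝓝 t0, (inner ℝ (x - x0) (hz_v t) : ℝ) < 0 :=
        hc.continuousAt.eventually_lt continuousAt_const h
      refine tendsto_const_nhds.congr' ?_
      filter_upwards [h3] with t ht
      rw [Set.indicator_of_notMem, Set.indicator_of_notMem]
      · exact fun hm => absurd (show 0 < (inner ℝ (x - x0) (hz_v t) : ℝ) from hm) (not_lt.mpr ht.le)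
      · exact fun hm => absurd (show 0 < (inner ℝ (x - x0) (hz_v t0) : ℝ) from hm) (not_lt.mpr h.le)
    · have h3 : ∀ᶠ t in 𝓝 t0, 0 < (inner ℝ (x - x0) (hz_v t) : ℝ) :=
        continuousAt_const.eventually_lt hc.continuousAt h
      refine tendsto_const_nhds.congr' ?_
      filter_upwards [h3] with t ht
      rw [Set.indicator_of_mem, Set.indicator_of_mem]
      · exact ht
      · exact h

theorem half_zero {Ω : Set (EuclideanSpace ℝ (Fin 2))} (ho : IsOpen Ω)
    (hb : Bornology.IsBounded Ω) (x0 : EuclideanSpace ℝ (Fin 2)) {u : EuclideanSpace ℝ (Fin 2) → ℝ}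
    (hu : Continuous u) (h0 : ∫ x in Ω, u x = 0) :
    ∃ v : EuclideanSpace ℝ (Fin 2), ‖v‖ = 1 ∧
      ∫ x in Ω ∩ {x | 0 < (inner ℝ (x - x0) v : ℝ)}, u x = 0 ∧
      ∫ x in Ω ∩ {x | 0 < (inner ℝ (x - x0) (-v) : ℝ)}, u x = 0 ∧
      ∀ f : EuclideanSpace ℝ (Fin 2) → ℝ, Continuous f →
        ∫ x in Ω, f x = (∫ x in Ω ∩ {x | 0 < (inner ℝ (x - x0) v : ℝ)}, f x) +
          ∫ x in Ω ∩ {x | 0 < (inner ℝ (x - x0) (-v) : ℝ)}, f x := by
  set F : ℝ → ℝ := fun t => ∫ x in Ω ∩ {x | 0 < (inner ℝ (x - x0) (hz_v t) : ℝ)}, u x with hF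
  have hFc : Continuous F := hz_cont ho hb x0 hu
  have hsum : ∀ t, F t + ∫ x in Ω ∩ {x | 0 < (inner ℝ (x - x0) (-hz_v t) : ℝ)}, u x = 0 := by
    intro t
    rw [← hz_split ho hb x0 (hz_v t) (hz_norm t) hu, h0]
  have hpi : F 0 + F Real.pi = 0 := by
    have h1 := hsum 0
    rw [← hz_pi, zero_add] at h1
    exact h1
  have hivt := intermediate_value_uIcc (a := (0 : ℝ)) (b := Real.pi) (hFc.continuousOn)
  have hmem : (0 : ℝ) ∈ uIcc (F 0) (F Real.pi) := by
    have h2 : F Real.pi = -F 0 := by linarith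
    rw [h2]
    rcases le_total (F 0) 0 with h | h
    · exact Set.mem_uIcc.mpr (Or.inl ⟨h, by linarith⟩)
    · exact Set.mem_uIcc.mpr (Or.inr ⟨by linarith, h⟩)
  obtain ⟨t, _, ht⟩ := hivt hmem
  refine ⟨hz_v t, hz_norm t, ht, ?_, fun f hf => hz_split ho hb x0 (hz_v t) (hz_norm t) hf⟩
  have h3 := hsum t
  rw [ht, zero_add] at h3
  exact h3

end Pool.Agent.Helper876.NK
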