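import Mathlib

set_option autoImplicit false

open MeasureTheory Set Metric Filter Topology
open scoped ENNReal NNReal Pointwise

namespace Pool.Agent.Helper876.NK

/-- the squared difference along a segment -/
theorem poinc_seg {n : ℕ} {u : EuclideanSpace ℝ (Fin n) → ℝ} (hu : ContDiff ℝ 1 u)
    (x y : EuclideanSpace ℝ (Fin n)) :
    (u y - u x) ^ 2 ≤
      ‖y - x‖ ^ 2 * ∫ t in (0 : ℝ)..1, ‖fderiv ℝ u ((1 - t) • x + t • y)‖ ^ 2 := by
  have hdu : Continuous (fderiv ℝ u) := hu.continuous_fderiv (by norm_num)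
  have hγc : Continuous (fun t : ℝ => (1 - t) • x + t • y) := by fun_prop
  have hg : Continuous (fun t : ℝ => ‖fderiv ℝ u ((1 - t) • x + t • y)‖ ^ 2) :=
    ((hdu.comp hγc).norm).pow 2
  have hh : Continuous (fun t : ℝ => fderiv ℝ u ((1 - t) • x + t • y) (y - x)) :=
    (hdu.comp hγc).clm_apply continuous_const
  have hγ : ∀ t : ℝ, HasDerivAt (fun t : ℝ => (1 - t) • x + t • y) (y - x) t := by
    intro t
    have h1 : HasDerivAt (fun t : ℝ => (1 - t) • x) ((-1 : ℝ) • x) t := by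
      have := ((hasDerivAt_id t).const_sub 1).smul_const x
      simpa using this
    have h2 : HasDerivAt (fun t : ℝ => t • y) ((1 : ℝ) • y) t := by
      have := (hasDerivAt_id t).smul_const y
      simpa using this
    have h3 := h1.add h2
    have e : (-1 : ℝ) • x + (1 : ℝ) • y = y - x := by
      rw [one_smul, neg_smul, one_smul]
      abel
    rw [e] at h3
    exact h3
  have hder : ∀ t : ℝ, HasDerivAt (fun t : ℝ => u ((1 - t) • x + t • y))
      (fderiv ℝ u ((1 - t) • x + t • y) (y - x)) t := by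
    intro t
    have h1 : HasFDerivAt u (fderiv ℝ u ((1 - t) • x + t • y)) ((1 - t) • x + t • y) :=
      (hu.differentiable (by norm_num) _).hasFDerivAt
    exact h1.comp_hasDerivAt t (hγ t)
  have hftc : ∫ t in (0 : ℝ)..1, fderiv ℝ u ((1 - t) • x + t • y) (y - x) = u y - u x := by
    rw [intervalIntegral.integral_eq_sub_of_hasDerivAt (fun t _ => hder t)
      (hh.intervalIntegrable _ _)]
    simp
  set c : ℝ := u y - u x with hc
  have hcs : c ^ 2 ≤ ∫ t in (0 : ℝ)..1, (fderiv ℝ u ((1 - t) • x + t • y) (y - x)) ^ 2 := by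
    have h0 : 0 ≤ ∫ t in (0 : ℝ)..1, (fderiv ℝ u ((1 - t) • x + t • y) (y - x) - c) ^ 2 :=
      intervalIntegral.integral_nonneg (by norm_num) fun t _ => sq_nonneg _
    have h1 : ∫ t in (0 : ℝ)..1, (fderiv ℝ u ((1 - t) • x + t • y) (y - x) - c) ^ 2 =
        (∫ t in (0 : ℝ)..1, (fderiv ℝ u ((1 - t) • x + t • y) (y - x)) ^ 2) - c ^ 2 := by
      have e : ∀ t : ℝ, (fderiv ℝ u ((1 - t) • x + t • y) (y - x) - c) ^ 2 =
          (fderiv ℝ u ((1 - t) • x + t • y) (y - x)) ^ 2 -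
            ((2 * c) * fderiv ℝ u ((1 - t) • x + t • y) (y - x) - c ^ 2) := by
        intro t; ring
      simp only [e]
      have k1 : Continuous (fun t : ℝ => (fderiv ℝ u ((1 - t) • x + t • y) (y - x)) ^ 2) :=
        hh.pow 2
      have k2 : Continuous (fun t : ℝ => (2 * c) * fderiv ℝ u ((1 - t) • x + t • y) (y - x)) :=
        continuous_const.mul hh
      have k3 : Continuous (fun t : ℝ =>
          (2 * c) * fderiv ℝ u ((1 - t) • x + t • y) (y - x) - c ^ 2) := k2.sub continuous_const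
      have k4 : Continuous (fun _ : ℝ => c ^ 2) := continuous_const
      rw [intervalIntegral.integral_sub (k1.intervalIntegrable _ _) (k3.intervalIntegrable _ _),
        intervalIntegral.integral_sub (k2.intervalIntegrable _ _) (k4.intervalIntegrable _ _),
        intervalIntegral.integral_const_mul, hftc, intervalIntegral.integral_const]
      simp only [sub_zero, one_smul]
      ring
    linarith
  refine hcs.trans ?_
  rw [← intervalIntegral.integral_const_mul]
  refine intervalIntegral.integral_mono_on (by norm_num) ((hh.pow 2).intervalIntegrable _ _)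
    ((continuous_const.mul hg).intervalIntegrable _ _) fun t _ => ?_
  have h1 := (fderiv ℝ u ((1 - t) • x + t • y)).le_opNorm (y - x)
  calc (fderiv ℝ u ((1 - t) • x + t • y) (y - x)) ^ 2
      = ‖fderiv ℝ u ((1 - t) • x + t • y) (y - x)‖ ^ 2 := by rw [Real.norm_eq_abs, sq_abs]
    _ ≤ (‖fderiv ℝ u ((1 - t) • x + t • y)‖ * ‖y - x‖) ^ 2 :=
        pow_le_pow_left₀ (norm_nonneg _) h1 2
    _ = ‖y - x‖ ^ 2 * ‖fderiv ℝ u ((1 - t) • x + t • y)‖ ^ 2 := by ring

/-- the same with Lebesgue integrals -/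
theorem poinc_seg' {n : ℕ} {u : EuclideanSpace ℝ (Fin n) → ℝ} (hu : ContDiff ℝ 1 u) {D : ℝ}
    (x y : EuclideanSpace ℝ (Fin n)) (hxy : ‖y - x‖ ≤ D) :
    ENNReal.ofReal ((u y - u x) ^ 2) ≤ ENNReal.ofReal (D ^ 2) *
      ∫⁻ t in Icc (0 : ℝ) 1, ENNReal.ofReal (‖fderiv ℝ u ((1 - t) • x + t • y)‖ ^ 2) := by
  have hdu : Continuous (fderiv ℝ u) := hu.continuous_fderiv (by norm_num)
  have hγc : Continuous (fun t : ℝ => (1 - t) • x + t • y) := by fun_prop
  have hg : Continuous (fun t : ℝ => ‖fderiv ℝ u ((1 - t) • x + t • y)‖ ^ 2) :=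
    ((hdu.comp hγc).norm).pow 2
  rw [← ofReal_integral_eq_lintegral_ofReal hg.integrableOn_Icc
    (Filter.Eventually.of_forall fun t => sq_nonneg _), integral_Icc_eq_integral_Ioc,
    ← intervalIntegral.integral_of_le (by norm_num : (0 : ℝ) ≤ 1),
    ← ENNReal.ofReal_mul (sq_nonneg D)]
  apply ENNReal.ofReal_le_ofReal
  refine (poinc_seg hu x y).trans ?_
  refine mul_le_mul_of_nonneg_right ?_ (intervalIntegral.integral_nonneg (by norm_num)
    fun t _ => sq_nonneg _)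
  exact pow_le_pow_left₀ (norm_nonneg _) hxy 2

/-- the substitution -/
theorem poinc_sub {n : ℕ} {Ω : Set (EuclideanSpace ℝ (Fin n))} (ho : IsOpen Ω) (hc : Convex ℝ Ω)
    {G : EuclideanSpace ℝ (Fin n) → ℝ≥0∞} (hG : Measurable G) {a : EuclideanSpace ℝ (Fin n)}
    (ha : a ∈ Ω) {s r : ℝ} (hs : 1 / 2 ≤ s) (hr : 0 ≤ r) (hrs : r + s = 1) :
    ∫⁻ y in Ω, G (r • a + s • y) ≤ ENNReal.ofReal (2 ^ n) * ∫⁻ z in Ω, G z := by
  have hs0 : 0 < s := by linarith
  have hind : Measurable (Ω.indicator G) := hG.indicator ho.measurableSet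
  calc ∫⁻ y in Ω, G (r • a + s • y)
      = ∫⁻ y, Ω.indicator (fun y => G (r • a + s • y)) y :=
        (lintegral_indicator ho.measurableSet _).symm
    _ ≤ ∫⁻ y, (Ω.indicator G) (r • a + s • y) := by
        refine lintegral_mono fun y => ?_
        by_cases hy : y ∈ Ω
        · have hmem : r • a + s • y ∈ Ω := hc ha hy hr hs0.le hrs
          rw [Set.indicator_of_mem hy, Set.indicator_of_mem hmem]
        · rw [Set.indicator_of_notMem hy]
          exact bot_le
    _ = ∫⁻ z, (Ω.indicator G) (r • a + z) ∂(Measure.map (fun y => s • y)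
          (volume : Measure (EuclideanSpace ℝ (Fin n)))) := by
        have k1 : Measurable (fun z => (Ω.indicator G) (r • a + z)) :=
          hind.comp (measurable_const_add _)
        rw [lintegral_map k1 (measurable_const_smul s)]
    _ = ENNReal.ofReal |(s ^ n)⁻¹| * ∫⁻ z, (Ω.indicator G) (r • a + z) := by
        rw [Measure.map_addHaar_smul _ hs0.ne', lintegral_smul_measure,
          finrank_euclideanSpace_fin, smul_eq_mul]
    _ = ENNReal.ofReal |(s ^ n)⁻¹| * ∫⁻ z, (Ω.indicator G) z := by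
        rw [lintegral_add_left_eq_self]
    _ = ENNReal.ofReal |(s ^ n)⁻¹| * ∫⁻ z in Ω, G z := by
        rw [lintegral_indicator ho.measurableSet]
    _ ≤ ENNReal.ofReal (2 ^ n) * ∫⁻ z in Ω, G z := by
        refine mul_le_mul_left ?_ _
        apply ENNReal.ofReal_le_ofReal
        rw [abs_of_pos (by positivity), ← inv_pow]
        refine pow_le_pow_left₀ (by positivity) ?_ n
        rw [inv_le_comm₀ hs0 (by norm_num)]
        linarith

/-- the triple integral, fixed parameter -/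
theorem poinc_fixed {n : ℕ} {Ω : Set (EuclideanSpace ℝ (Fin n))} (ho : IsOpen Ω)
    (hc : Convex ℝ Ω) {G : EuclideanSpace ℝ (Fin n) → ℝ≥0∞} (hGc : Continuous G)
    {t : ℝ} (ht : t ∈ Icc (0 : ℝ) 1) :
    ∫⁻ x in Ω, ∫⁻ y in Ω, G ((1 - t) • x + t • y) ≤
      ENNReal.ofReal (2 ^ n) * (∫⁻ z in Ω, G z) * volume Ω := by
  have hconst : ∫⁻ _ in Ω, ENNReal.ofReal (2 ^ n) * (∫⁻ z in Ω, G z) =
      ENNReal.ofReal (2 ^ n) * (∫⁻ z in Ω, G z) * volume Ω := setLIntegral_const _ _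
  rcases le_total (1 / 2) t with h | h
  · rw [← hconst]
    refine setLIntegral_mono measurable_const fun x hx => ?_
    exact poinc_sub ho hc hGc.measurable hx h (by linarith [ht.2]) (by ring)
  · have hm0 : Continuous (fun p : EuclideanSpace ℝ (Fin n) × EuclideanSpace ℝ (Fin n) =>
        (1 - t) • p.1 + t • p.2) := by fun_prop
    have hm : Measurable (Function.uncurry fun (x y : EuclideanSpace ℝ (Fin n)) =>
        G ((1 - t) • x + t • y)) := (hGc.comp hm0).measurable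
    rw [lintegral_lintegral_swap hm.aemeasurable, ← hconst]
    refine setLIntegral_mono measurable_const fun y hy => ?_
    have h1 := poinc_sub ho hc hGc.measurable hy (s := 1 - t) (r := t) (by linarith) ht.1 (by ring)
    have e : ∀ x, (1 - t) • x + t • y = t • y + (1 - t) • x := fun x => add_comm _ _
    simp only [e]
    exact h1

theorem poinc_triple {n : ℕ} {Ω : Set (EuclideanSpace ℝ (Fin n))} (ho : IsOpen Ω)
    (hc : Convex ℝ Ω) {G : EuclideanSpace ℝ (Fin n) → ℝ≥0∞} (hGc : Continuous G) :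
    ∫⁻ x in Ω, ∫⁻ y in Ω, ∫⁻ t in Icc (0 : ℝ) 1, G ((1 - t) • x + t • y) ≤
      ENNReal.ofReal (2 ^ n) * (∫⁻ z in Ω, G z) * volume Ω := by
  have e2 : ∀ x, ∫⁻ y in Ω, ∫⁻ t in Icc (0 : ℝ) 1, G ((1 - t) • x + t • y) =
      ∫⁻ t in Icc (0 : ℝ) 1, ∫⁻ y in Ω, G ((1 - t) • x + t • y) := by
    intro x
    have hm0 : Continuous (fun p : EuclideanSpace ℝ (Fin n) × ℝ =>
        (1 - p.2) • x + p.2 • p.1) := by fun_prop
    have hm : Measurable (Function.uncurry fun (y : EuclideanSpace ℝ (Fin n)) (t : ℝ) =>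
        G ((1 - t) • x + t • y)) := (hGc.comp hm0).measurable
    exact lintegral_lintegral_swap hm.aemeasurable
  simp only [e2]
  have hm0 : Continuous (fun q : (EuclideanSpace ℝ (Fin n) × ℝ) × EuclideanSpace ℝ (Fin n) =>
      (1 - q.1.2) • q.1.1 + q.1.2 • q.2) := by fun_prop
  have hm4 : Measurable (fun q : (EuclideanSpace ℝ (Fin n) × ℝ) × EuclideanSpace ℝ (Fin n) =>
      G ((1 - q.1.2) • q.1.1 + q.1.2 • q.2)) := (hGc.comp hm0).measurable
  have hm5 : Measurable (Function.uncurry fun (x : EuclideanSpace ℝ (Fin n)) (t : ℝ) =>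
      ∫⁻ y in Ω, G ((1 - t) • x + t • y)) :=
    hm4.lintegral_prod_right' (ν := volume.restrict Ω)
  rw [lintegral_lintegral_swap hm5.aemeasurable]
  calc ∫⁻ t in Icc (0 : ℝ) 1, ∫⁻ x in Ω, ∫⁻ y in Ω, G ((1 - t) • x + t • y)
      ≤ ∫⁻ _ in Icc (0 : ℝ) 1, ENNReal.ofReal (2 ^ n) * (∫⁻ z in Ω, G z) * volume Ω :=
        setLIntegral_mono measurable_const fun t ht => poinc_fixed ho hc hGc ht
    _ = ENNReal.ofReal (2 ^ n) * (∫⁻ z in Ω, G z) * volume Ω := by
        rw [setLIntegral_const, Real.volume_Icc]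
        simp

theorem poinc_dom {n : ℕ} {Ω : Set (EuclideanSpace ℝ (Fin n))}
    {G : EuclideanSpace ℝ (Fin n) → ℝ≥0∞} (hGc : Continuous G) {c : ℝ≥0∞}
    {F : EuclideanSpace ℝ (Fin n) → EuclideanSpace ℝ (Fin n) → ℝ≥0∞}
    (hF : ∀ x ∈ Ω, ∀ y ∈ Ω, F x y ≤ c * ∫⁻ t in Icc (0 : ℝ) 1, G ((1 - t) • x + t • y)) :
    ∫⁻ x in Ω, ∫⁻ y in Ω, F x y ≤
      c * ∫⁻ x in Ω, ∫⁻ y in Ω, ∫⁻ t in Icc (0 : ℝ) 1, G ((1 - t) • x + t • y) := by
  have hm0 : Continuous (fun q : (EuclideanSpace ℝ (Fin n) × EuclideanSpace ℝ (Fin n)) × ℝ =>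
      (1 - q.2) • q.1.1 + q.2 • q.1.2) := by fun_prop
  have hm3 : Measurable (fun q : (EuclideanSpace ℝ (Fin n) × EuclideanSpace ℝ (Fin n)) × ℝ =>
      G ((1 - q.2) • q.1.1 + q.2 • q.1.2)) := (hGc.comp hm0).measurable
  have hm2 : Measurable (fun p : EuclideanSpace ℝ (Fin n) × EuclideanSpace ℝ (Fin n) =>
      ∫⁻ t in Icc (0 : ℝ) 1, G ((1 - t) • p.1 + t • p.2)) :=
    hm3.lintegral_prod_right' (ν := volume.restrict (Icc (0 : ℝ) 1))
  have hm1 : ∀ x, Measurable (fun y : EuclideanSpace ℝ (Fin n) =>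
      ∫⁻ t in Icc (0 : ℝ) 1, G ((1 - t) • x + t • y)) := fun x =>
    hm2.comp measurable_prodMk_left
  have hm6 : Measurable (fun x : EuclideanSpace ℝ (Fin n) =>
      ∫⁻ y in Ω, ∫⁻ t in Icc (0 : ℝ) 1, G ((1 - t) • x + t • y)) :=
    hm2.lintegral_prod_right' (ν := volume.restrict Ω)
  rw [← lintegral_const_mul _ hm6]
  refine setLIntegral_mono (hm6.const_mul _) fun x hx => ?_
  rw [← lintegral_const_mul _ (hm1 x)]
  exact setLIntegral_mono ((hm1 x).const_mul _) fun y hy => hF x hx y hy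

/- PLAIN PROOF. The crude Poincare inequality on a bounded convex open set.
Let D be a bound of ‖x - y‖ for x, y ∈ Ω. For x, y ∈ Ω: |u y - u x|^2 ≤ D^2 ∫_0^1 ‖∇u(x + t (y - x))‖^2 dt (fundamental theorem of calculus along
the segment and Cauchy-Schwarz). Integrate over Ω × Ω (everything is continuous and bounded there):
∫∫ |u y - u x|^2 ≤ D^2 ∫_0^1 ∫∫ ‖∇u((1-t) x + t y)‖^2 dx dy dt. For t ≥ 1/2 and fixed x substitute z = (1-t) x + t y ∈ Ω (convexity):
∫_Ω ‖∇u((1-t) x + t y)‖^2 dy ≤ t^(-n) ∫_Ω ‖∇u‖^2 ≤ 2^n ∫_Ω ‖∇u‖^2; for t ≤ 1/2 the same with the roles of x and y exchanged. So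
∫∫ |u y - u x|^2 ≤ D^2 2^n |Ω| ∫_Ω ‖∇u‖^2, and ∫∫ |u y - u x|^2 = 2 |Ω| ∫_Ω u^2 - 2 (∫_Ω u)^2 = 2 |Ω| ∫_Ω u^2.
C = D^2 2^n + 1 (make it positive). (If |Ω| = 0, i.e. Ω empty, trivial.) Any other proof is fine, the constant does not matter. -/
theorem poinc {n : ℕ} {Ω : Set (EuclideanSpace ℝ (Fin n))} (ho : IsOpen Ω) (hc : Convex ℝ Ω)
    (hb : Bornology.IsBounded Ω) :
    ∃ C : ℝ, 0 < C ∧ ∀ u : EuclideanSpace ℝ (Fin n) → ℝ, ContDiff ℝ 1 u → ∫ x in Ω, u x = 0 →
      ∫ x in Ω, u x ^ 2 ≤ C * ∫ x in Ω, ‖fderiv ℝ u x‖ ^ 2 := by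
  obtain ⟨D, hD⟩ := Metric.isBounded_iff.1 hb
  have hvol : volume Ω < ⊤ := hb.measure_lt_top
  refine ⟨2 ^ n * D ^ 2 + 1, by positivity, fun u hu hmean => ?_⟩
  have hdu : Continuous (fderiv ℝ u) := hu.continuous_fderiv (by norm_num)
  have huc : Continuous u := hu.continuous
  have hgc : Continuous (fun z => ‖fderiv ℝ u z‖ ^ 2) := (hdu.norm).pow 2
  have hint : ∀ f : EuclideanSpace ℝ (Fin n) → ℝ, Continuous f → IntegrableOn f Ω := by
    intro f hf
    exact ((hf.continuousOn (s := closure Ω)).integrableOn_compact hb.isCompact_closure).mono_set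
      subset_closure
  set G : EuclideanSpace ℝ (Fin n) → ℝ≥0∞ := fun z => ENNReal.ofReal (‖fderiv ℝ u z‖ ^ 2) with hGdef
  have hGm : Measurable G := ENNReal.measurable_ofReal.comp hgc.measurable
  have hGc : Continuous G := ENNReal.continuous_ofReal.comp hgc
  -- the mean zero condition
  have hpt : ∀ x : EuclideanSpace ℝ (Fin n), ENNReal.ofReal (∫ y in Ω, u y ^ 2) ≤
      ∫⁻ y in Ω, ENNReal.ofReal ((u y - u x) ^ 2) := by
    intro x
    have k0 : Continuous (fun y => (u y - u x) ^ 2) := (huc.sub continuous_const).pow 2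
    have k1 : Continuous (fun y => u y ^ 2) := huc.pow 2
    have k2 : Continuous (fun y => (2 * u x) * u y) := continuous_const.mul huc
    have k3 : Continuous (fun y => (2 * u x) * u y - u x ^ 2) := k2.sub continuous_const
    have k4 : Continuous (fun _ : EuclideanSpace ℝ (Fin n) => u x ^ 2) := continuous_const
    rw [← ofReal_integral_eq_lintegral_ofReal (hint _ k0)
      (Filter.Eventually.of_forall fun t => sq_nonneg _)]
    apply ENNReal.ofReal_le_ofReal
    have e : ∀ y, (u y - u x) ^ 2 = u y ^ 2 - ((2 * u x) * u y - u x ^ 2) := by intro y; ring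
    simp only [e]
    rw [integral_sub (hint _ k1) (hint _ k3), integral_sub (hint _ k2) (hint _ k4),
      integral_const_mul, hmean]
    have h1 : 0 ≤ ∫ _ in Ω, u x ^ 2 := integral_nonneg fun _ => sq_nonneg _
    linarith
  have hmain : ENNReal.ofReal (∫ y in Ω, u y ^ 2) * volume Ω ≤
      ENNReal.ofReal (D ^ 2) * (ENNReal.ofReal (2 ^ n) * (∫⁻ z in Ω, G z) * volume Ω) := by
    have hp1 : ∫⁻ _ in Ω, ENNReal.ofReal (∫ y in Ω, u y ^ 2) =
        ENNReal.ofReal (∫ y in Ω, u y ^ 2) * volume Ω := setLIntegral_const _ _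
    rw [← hp1]
    refine (lintegral_mono fun x => hpt x).trans ?_
    refine le_trans ?_ (mul_le_mul_right (poinc_triple ho hc hGc) (ENNReal.ofReal (D ^ 2)))
    exact poinc_dom hGc (fun x hx y hy => poinc_seg' hu x y (by
      rw [← dist_eq_norm]
      exact hD hy hx))
  have hI : 0 ≤ ∫ x in Ω, ‖fderiv ℝ u x‖ ^ 2 := integral_nonneg fun _ => sq_nonneg _
  rcases eq_or_ne (volume Ω) 0 with h0 | h0
  · rw [Measure.restrict_eq_zero.2 h0]
    simp
  · have h1 : ENNReal.ofReal (∫ y in Ω, u y ^ 2) ≤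
        ENNReal.ofReal (D ^ 2) * (ENNReal.ofReal (2 ^ n) * (∫⁻ z in Ω, G z)) := by
      rw [← ENNReal.mul_le_mul_iff_left h0 hvol.ne]
      calc ENNReal.ofReal (∫ y in Ω, u y ^ 2) * volume Ω ≤ _ := hmain
        _ = _ := by ring
    have h2 : ∫⁻ z in Ω, G z = ENNReal.ofReal (∫ x in Ω, ‖fderiv ℝ u x‖ ^ 2) :=
      (ofReal_integral_eq_lintegral_ofReal (hint _ hgc)
        (Filter.Eventually.of_forall fun t => sq_nonneg _)).symm
    rw [h2, ← ENNReal.ofReal_mul (by positivity), ← ENNReal.ofReal_mul (sq_nonneg _),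
      ENNReal.ofReal_le_ofReal_iff (by positivity)] at h1
    nlinarith

end Pool.Agent.Helper876.NK
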