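import Pool.Agent.R225.NM.Fin

set_option autoImplicit false

open MeasureTheory Set Metric Filter Topology
open scoped ENNReal NNReal Pointwise

namespace Pool.Agent.Helper876.NK

open Pool.Agent.R225.NM

/- (Pool/Agent/R225/NM/*.lean are on origin/main: RayleighBound, IsConvexDomain; see RB_image in Eig.lean for a model proof.)
PLAIN PROOF. Scaling. g_i(x / s) are the new functions; ∫_{sΩ} f(x/s)^2 dx = s^n ∫_Ω f^2, ‖fderiv (f(·/s)) x‖ = ‖fderiv f (x/s)‖ / s. -/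
theorem RB_scale {n : ℕ} {Ω : Set (EuclideanSpace ℝ (Fin n))} (ho : IsOpen Ω) {k : ℕ} {M s : ℝ}
    (hs : 0 < s) (h : RayleighBound Ω k M) : RayleighBound (s • Ω) k (M / s ^ 2) := by
  obtain ⟨g, hg, hLI, hM⟩ := h
  have hs0 : s ≠ 0 := hs.ne'
  have he : ∀ x : EuclideanSpace ℝ (Fin n), s⁻¹ • (s • x) = x := fun x => inv_smul_smul₀ hs0 x
  refine ⟨fun i y => g i (s⁻¹ • y), fun i => ?_, ?_, fun c => ?_⟩
  · exact (hg i).comp (contDiff_const_smul s⁻¹)
  · rw [Fintype.linearIndependent_iff] at hLI ⊢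
    intro c hc
    refine hLI c ?_
    funext x
    have h1 := congrFun hc ⟨s • x.1, smul_mem_smul_set x.2⟩
    simp only [Finset.sum_apply, Pi.smul_apply, he, smul_eq_mul, Pi.zero_apply] at h1 ⊢
    exact h1
  · have e3 : (∑ i, c i • fun y : EuclideanSpace ℝ (Fin n) => g i (s⁻¹ • y)) =
        fun y => (∑ i, c i • g i) (s⁻¹ • y) := by
      funext y
      rw [combo_apply, combo_apply]
    have e2 : ∀ x, ‖fderiv ℝ (fun y : EuclideanSpace ℝ (Fin n) =>
        (∑ i, c i • g i) (s⁻¹ • y)) (s • x)‖ ^ 2 =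
        (s ^ 2)⁻¹ * ‖fderiv ℝ (∑ i, c i • g i) x‖ ^ 2 := by
      intro x
      rw [fderiv_comp_smul, he, norm_smul, mul_pow, norm_inv, Real.norm_eq_abs,
        inv_pow, sq_abs]
    rw [e3]
    have i1 : ∀ G : EuclideanSpace ℝ (Fin n) → ℝ,
        ∫ x in s • Ω, G x = s ^ n * ∫ x in Ω, G (s • x) := by
      intro G
      rw [Measure.setIntegral_comp_smul_of_pos volume G Ω hs, finrank_euclideanSpace_fin,
        smul_eq_mul, ← mul_assoc, mul_inv_cancel₀ (pow_ne_zero n hs0), one_mul]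
    rw [i1, i1]
    simp only [e2, he]
    rw [integral_const_mul]
    have h5 := hM c
    have h6 : 0 < s ^ n := pow_pos hs n
    have h7 : 0 < (s ^ 2)⁻¹ := by positivity
    calc s ^ n * ((s ^ 2)⁻¹ * ∫ x in Ω, ‖fderiv ℝ (∑ i, c i • g i) x‖ ^ 2)
        ≤ s ^ n * ((s ^ 2)⁻¹ * (M * ∫ x in Ω, (∑ i, c i • g i) x ^ 2)) := by gcongr
      _ = M / s ^ 2 * (s ^ n * ∫ x in Ω, (∑ i, c i • g i) x ^ 2) := by
        rw [div_eq_mul_inv]; ring

/- μHE[m] = euclideanHausdorffMeasure m is a constant multiple of μH[m] (Measure.euclideanHausdorffMeasure_def); use Measure.hausdorffMeasure_smul₀ and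
frontier (s • Ω) = s • frontier Ω (x ↦ s • x is a homeomorphism). -/
theorem surf_scale {n m : ℕ} {Ω : Set (EuclideanSpace ℝ (Fin n))} {s : ℝ} (hs : 0 < s) :
    (μHE[m] : Measure (EuclideanSpace ℝ (Fin n))) (frontier (s • Ω)) =
      ENNReal.ofReal (s ^ m) * (μHE[m] : Measure (EuclideanSpace ℝ (Fin n))) (frontier Ω) := by
  have h1 : frontier (s • Ω) = s • frontier Ω := by
    rw [← image_smul, ← image_smul]
    exact ((Homeomorph.smulOfNeZero s hs.ne').image_frontier Ω).symm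
  have h2 : ((‖s‖₊ ^ m : ℝ≥0) : ℝ≥0∞) = ENNReal.ofReal (s ^ m) := by
    rw [ENNReal.ofReal, Real.toNNReal_pow hs.le, Real.nnnorm_of_nonneg hs.le]
    congr 2
    ext
    simp [hs.le]
  rw [h1, Measure.euclideanHausdorffMeasure_def, Measure.smul_apply, Measure.smul_apply,
    Measure.hausdorffMeasure_smul₀ (by positivity) hs.ne', NNReal.rpow_natCast]
  rw [ENNReal.smul_def, ENNReal.smul_def, ENNReal.smul_def, smul_eq_mul, smul_eq_mul, smul_eq_mul,
    h2]
  ring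

theorem dom_scale {n : ℕ} {Ω : Set (EuclideanSpace ℝ (Fin n))} {s : ℝ} (hs : 0 < s)
    (h : IsConvexDomain Ω) : IsConvexDomain (s • Ω) :=
  ⟨h.isOpen.smul₀ hs.ne', h.convex.smul s, h.isBounded.smul₀ s, h.nonempty.smul_set⟩

end Pool.Agent.Helper876.NK
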