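import Pool.Agent.Helper876_NK.Box
import Pool.Agent.Helper876_NK.Scale
import Pool.Agent.Helper876_NK.Cut
import Pool.Agent.Helper876_NK.Half
import Pool.Agent.Helper876_NK.Poi
import Pool.Agent.R225.NM.Exist

set_option autoImplicit false

/-!
# Positivity of the Neumann eigenvalues, and the planar case
-/

open MeasureTheory Set Metric Filter Topology WithLp
open scoped ENNReal NNReal Pointwise Real

namespace Pool.Agent.Helper876.NK

open Pool.Agent.R225.NM

/-- a family of `k + 1 ≥ 2` functions has a nontrivial combination with integral zero -/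
theorem zero_combo {n : ℕ} {Ω : Set (EuclideanSpace ℝ (Fin n))} (ho : IsOpen Ω)
    (hb : Bornology.IsBounded Ω) {k : ℕ} (hk : 1 ≤ k) {M : ℝ} (h : RayleighBound Ω k M) :
    ∃ u : EuclideanSpace ℝ (Fin n) → ℝ, ContDiff ℝ 1 u ∧ (∃ x ∈ Ω, u x ≠ 0) ∧
      ∫ x in Ω, u x = 0 ∧ ∫ x in Ω, ‖fderiv ℝ u x‖ ^ 2 ≤ M * ∫ x in Ω, u x ^ 2 := by
  obtain ⟨g, hg, hLI, hM⟩ := h
  -- two coefficients
  have h01 : (0 : Fin (k + 1)) ≠ ⟨1, by omega⟩ := by
    intro h
    have := congrArg Fin.val h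
    simp at this
  obtain ⟨c, hc, hc0⟩ : ∃ c : Fin (k + 1) → ℝ, c ≠ 0 ∧ ∑ i, c i * ∫ x in Ω, g i x = 0 := by
    by_cases h0 : ∫ x in Ω, g 0 x = 0
    · refine ⟨Pi.single 0 1, fun h => ?_, ?_⟩
      · have := congrFun h 0
        simp at this
      · rw [Finset.sum_eq_single (0 : Fin (k + 1))]
        · simp [h0]
        · intro i _ hi
          simp [hi]
        · intro h
          exact absurd (Finset.mem_univ _) h
    · refine ⟨Pi.single 0 (∫ x in Ω, g ⟨1, by omega⟩ x) - Pi.single ⟨1, by omega⟩ (∫ x in Ω, g 0 x),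
        fun h => ?_, ?_⟩
      · have := congrFun h ⟨1, by omega⟩
        simp only [Pi.sub_apply, Pi.zero_apply, Pi.single_eq_same,
          Pi.single_eq_of_ne h01.symm, zero_sub, neg_eq_zero] at this
        exact h0 this
      · simp only [Pi.sub_apply, sub_mul, Finset.sum_sub_distrib]
        rw [Finset.sum_eq_single (0 : Fin (k + 1)), Finset.sum_eq_single (⟨1, by omega⟩ : Fin (k + 1))]
        · simp only [Pi.single_eq_same]
          ring
        · intro i _ hi
          simp [hi]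
        · intro h
          exact absurd (Finset.mem_univ _) h
        · intro i _ hi
          simp [hi]
        · intro h
          exact absurd (Finset.mem_univ _) h
  refine ⟨∑ i, c i • g i, combo_contDiff c hg, nonzero_of_LI hLI hc, ?_, hM c⟩
  simp only [combo_apply]
  rw [integral_finsetSum _ fun i _ => (int_bdd hb (hg i).continuous).const_mul (c i)]
  simp only [integral_const_mul]
  exact hc0

theorem exists_RB {n : ℕ} {Ω : Set (EuclideanSpace ℝ (Fin (n + 1)))} (h : IsConvexDomain Ω) (k : ℕ) :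
    ∃ M, RayleighBound Ω k M := by
  obtain ⟨x0, hx0⟩ := h.nonempty
  obtain ⟨r, hr, hball⟩ := Metric.isOpen_iff.1 h.isOpen x0 hx0
  -- the functions `x ↦ (x 0) ^ j`
  refine exists_bound h.isOpen h.isBounded (g := fun (j : Fin (k + 1)) x => (x 0) ^ (j : ℕ))
    (fun j => ?_) ?_
  · have h1 : ContDiff ℝ 1 (fun x : EuclideanSpace ℝ (Fin (n + 1)) => x 0) :=
      (EuclideanSpace.proj (𝕜 := ℝ) (0 : Fin (n + 1))).contDiff
    exact h1.pow _
  · rw [Fintype.linearIndependent_iff]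
    intro c hc
    -- the polynomial vanishes at infinitely many points
    set P : Polynomial ℝ := ∑ j : Fin (k + 1), Polynomial.monomial (j : ℕ) (c j) with hP
    have h2 : ∀ t ∈ Ioo (x0 0 - r) (x0 0 + r), P.eval t = 0 := by
      intro t ht
      set y : EuclideanSpace ℝ (Fin (n + 1)) := x0 + (t - x0 0) • EuclideanSpace.single 0 1 with hy
      have hyΩ : y ∈ Ω := by
        refine hball ?_
        rw [mem_ball, dist_eq_norm, hy, add_sub_cancel_left, norm_smul, PiLp.norm_single,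
          norm_one, mul_one, Real.norm_eq_abs, abs_lt]
        exact ⟨by linarith [ht.1], by linarith [ht.2]⟩
      have hy0 : y 0 = t := by
        simp [hy, PiLp.single_apply]
      have h3 := congrFun hc ⟨y, hyΩ⟩
      simp only [Finset.sum_apply, Pi.smul_apply, smul_eq_mul, Pi.zero_apply, hy0] at h3
      rw [hP, Polynomial.eval_finsetSum]
      simpa [Polynomial.eval_monomial] using h3
    have h3 : P = 0 := by
      refine Polynomial.eq_zero_of_infinite_isRoot P ?_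
      refine (Ioo_infinite (show x0 0 - r < x0 0 + r by linarith)).mono fun t ht => h2 t ht
    intro j
    have h4 := congrArg (fun R => Polynomial.coeff R (j : ℕ)) h3
    simp only [hP, Polynomial.finsetSum_coeff, Polynomial.coeff_monomial,
      Polynomial.coeff_zero] at h4
    rw [Finset.sum_eq_single j] at h4
    · simpa using h4
    · intro i _ hi
      rw [if_neg]
      intro h
      exact hi (Fin.ext h)
    · intro h
      exact absurd (Finset.mem_univ _) h

theorem RB_ge {n : ℕ} {Ω : Set (EuclideanSpace ℝ (Fin n))} (h : IsConvexDomain Ω) :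
    ∃ c : ℝ, 0 < c ∧ ∀ k : ℕ, 1 ≤ k → ∀ M : ℝ, RayleighBound Ω k M → c ≤ M := by
  obtain ⟨C, hC, hp⟩ := poinc h.isOpen h.convex h.isBounded
  refine ⟨C⁻¹, inv_pos.2 hC, fun k hk M hM => ?_⟩
  obtain ⟨u, hu, ⟨x, hx, hxu⟩, h0, hle⟩ := zero_combo h.isOpen h.isBounded hk hM
  have h1 := cont_sq_pos h.isOpen h.isBounded hu.continuous hx hxu
  have h2 := hp u hu h0
  have h3 : ∫ x in Ω, u x ^ 2 ≤ C * (M * ∫ x in Ω, u x ^ 2) :=
    h2.trans (mul_le_mul_of_nonneg_left hle hC.le)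
  have h4 : 1 ≤ C * M := by
    by_contra hlt
    push Not at hlt
    have : C * M * ∫ x in Ω, u x ^ 2 < 1 * ∫ x in Ω, u x ^ 2 := mul_lt_mul_of_pos_right hlt h1
    nlinarith
  rw [inv_le_iff_one_le_mul₀ hC]
  linarith [mul_comm C M]

theorem mu_pos {n : ℕ} {Ω : Set (EuclideanSpace ℝ (Fin (n + 1)))} (h : IsConvexDomain Ω) {k : ℕ}
    (hk : 1 ≤ k) : 0 < neumannEigenvalue Ω k := by
  obtain ⟨c, hc, hM⟩ := RB_ge h
  exact lt_of_lt_of_le hc (le_csInf (exists_RB h k) fun M hMM => hM k hk M hMM)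

/-- a function with integral zero gives a bound for the first eigenvalue -/
theorem RB_one {n : ℕ} {Ω : Set (EuclideanSpace ℝ (Fin n))} (ho : IsOpen Ω)
    (hb : Bornology.IsBounded Ω) {u : EuclideanSpace ℝ (Fin n) → ℝ} (hu : ContDiff ℝ 1 u)
    {x : EuclideanSpace ℝ (Fin n)} (hx : x ∈ Ω) (hxu : u x ≠ 0) (h0 : ∫ x in Ω, u x = 0) {M : ℝ}
    (hM : 0 ≤ M) (hle : ∫ x in Ω, ‖fderiv ℝ u x‖ ^ 2 ≤ M * ∫ x in Ω, u x ^ 2) :
    RayleighBound Ω 1 M := by
  have hfin : volume Ω ≠ ⊤ := hb.measure_lt_top.ne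
  have hcomb : ∀ c : Fin 2 → ℝ, (∑ i, c i • (![fun _ => (1:ℝ), u] : Fin 2 →
      EuclideanSpace ℝ (Fin n) → ℝ) i) = fun x => c 0 + c 1 * u x := by
    intro c
    funext y
    simp [Fin.sum_univ_two]
  have hsq : ∀ c : Fin 2 → ℝ, ∫ x in Ω, (c 0 + c 1 * u x) ^ 2 =
      c 0 ^ 2 * volume.real Ω + c 1 ^ 2 * ∫ x in Ω, u x ^ 2 := by
    intro c
    have e1 : ∀ x, (c 0 + c 1 * u x) ^ 2 = c 0 ^ 2 + (2 * c 0 * c 1 * u x + c 1 ^ 2 * u x ^ 2) := by
      intro x
      ring
    simp only [e1]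
    have i1 : Integrable (fun x => 2 * c 0 * c 1 * u x) (volume.restrict Ω) :=
      (int_bdd hb hu.continuous).const_mul _
    have i2 : Integrable (fun x => c 1 ^ 2 * u x ^ 2) (volume.restrict Ω) :=
      Integrable.const_mul (int_bdd hb (f := fun x => u x ^ 2) (hu.continuous.pow 2)) _
    have i0 : Integrable (fun _ : EuclideanSpace ℝ (Fin n) => c 0 ^ 2) (volume.restrict Ω) :=
      int_bdd hb continuous_const
    have i12 : Integrable (fun x => 2 * c 0 * c 1 * u x + c 1 ^ 2 * u x ^ 2)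
        (volume.restrict Ω) := i1.add i2
    rw [integral_add i0 i12, integral_add i1 i2, integral_const_mul, integral_const_mul, h0,
      setIntegral_const]
    simp only [smul_eq_mul]
    ring
  refine ⟨![fun _ => 1, u], fun i => ?_, ?_, fun c => ?_⟩
  · fin_cases i
    · exact contDiff_const
    · exact hu
  · rw [Fintype.linearIndependent_iff]
    intro c hc
    have h1 : ∀ y ∈ Ω, c 0 + c 1 * u y = 0 := by
      intro y hy
      have := congrFun hc ⟨y, hy⟩
      simpa [Fin.sum_univ_two] using this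
    have h2 : ∫ x in Ω, (c 0 + c 1 * u x) ^ 2 = 0 := by
      rw [setIntegral_congr_fun ho.measurableSet (g := fun _ => 0)]
      · simp
      · intro y hy
        simp [h1 y hy]
    have h3 := cont_sq_pos ho hb hu.continuous hx hxu
    rw [hsq c] at h2
    have h4 : 0 ≤ c 0 ^ 2 * volume.real Ω := by positivity
    have h5 : c 1 ^ 2 * ∫ x in Ω, u x ^ 2 = 0 := by
      have : 0 ≤ c 1 ^ 2 * ∫ x in Ω, u x ^ 2 := mul_nonneg (sq_nonneg _) h3.le
      linarith
    have h6 : c 1 = 0 := by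
      rcases mul_eq_zero.1 h5 with h | h
      · exact pow_eq_zero_iff two_ne_zero |>.1 h
      · exact absurd h h3.ne'
    have h7 : c 0 = 0 := by
      have := h1 x hx
      rw [h6] at this
      linarith
    intro i
    fin_cases i
    · exact h7
    · exact h6
  · rw [hcomb c, hsq c]
    have e2 : ∀ x, ‖fderiv ℝ (fun x => c 0 + c 1 * u x) x‖ ^ 2 = c 1 ^ 2 * ‖fderiv ℝ u x‖ ^ 2 := by
      intro x
      have hd := (hu.differentiable one_ne_zero x)
      rw [fderiv_const_add, fderiv_const_mul hd, norm_smul, mul_pow, Real.norm_eq_abs, sq_abs]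
    simp only [e2]
    rw [integral_const_mul]
    have h4 : 0 ≤ M * (c 0 ^ 2 * volume.real Ω) := by positivity
    nlinarith [mul_le_mul_of_nonneg_left hle (sq_nonneg (c 1))]

theorem piece_domain {Ω : Set (EuclideanSpace ℝ (Fin 2))} (h : IsConvexDomain Ω)
    (x0 v : EuclideanSpace ℝ (Fin 2)) {x : EuclideanSpace ℝ (Fin 2)}
    (hx : x ∈ Ω ∩ {x | 0 < (inner ℝ (x - x0) v : ℝ)}) :
    IsConvexDomain (Ω ∩ {x | 0 < (inner ℝ (x - x0) v : ℝ)}) := by
  have hc : Continuous fun x : EuclideanSpace ℝ (Fin 2) => (inner ℝ (x - x0) v : ℝ) := by fun_prop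
  refine ⟨h.isOpen.inter (isOpen_lt continuous_const hc), h.convex.inter ?_,
    h.isBounded.subset inter_subset_left, ⟨x, hx⟩⟩
  intro y hy z hz a b ha hb hab
  simp only [mem_setOf_eq] at hy hz ⊢
  have e1 : a • y + b • z - x0 = a • (y - x0) + b • (z - x0) := by
    have : x0 = (a + b) • x0 := by rw [hab, one_smul]
    nth_rewrite 1 [this]
    module
  rw [e1, inner_add_left, inner_smul_left, inner_smul_left]
  simp only [conj_trivial]
  rcases eq_or_lt_of_le ha with h0 | h0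
  · have : b = 1 := by linarith
    rw [← h0, this]
    linarith
  · have h1 := mul_pos h0 hy
    have h2 := mul_nonneg hb hz.le
    linarith

/-- In the plane each convex domain can be improved, for the first eigenvalue. -/
theorem better {Ω : Set (EuclideanSpace ℝ (Fin 2))} (h : IsConvexDomain Ω)
    (hfin : (μHE[1] : Measure (EuclideanSpace ℝ (Fin 2))) (frontier Ω) ≠ ⊤) :
    ∃ Ω' : Set (EuclideanSpace ℝ (Fin 2)), IsConvexDomain Ω' ∧
      (μHE[1] : Measure (EuclideanSpace ℝ (Fin 2))) (frontier Ω') =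
        (μHE[1] : Measure (EuclideanSpace ℝ (Fin 2))) (frontier Ω) ∧
      neumannEigenvalue Ω' 1 < neumannEigenvalue Ω 1 := by
  obtain ⟨x0, hx0⟩ := h.nonempty
  obtain ⟨δ, hδ, hcut⟩ := cut h.isOpen h.convex h.isBounded hx0
  set κ : ℝ≥0 := Measure.addHaarScalarFactor (volume : Measure (EuclideanSpace ℝ (Fin 1))) μH[(1:ℕ)]
    with hκ
  have hκ0 : κ ≠ 0 := Measure.addHaarScalarFactor_volume_hausdorffMeasure_ne_zero 1
  have hκpos : (0:ℝ) < κ := by
    have := pos_iff_ne_zero.2 hκ0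
    exact_mod_cast this
  have hconv : ∀ A : Set (EuclideanSpace ℝ (Fin 2)), (μHE[1] : Measure _) A =
      (κ : ℝ≥0∞) * (μH[1] : Measure (EuclideanSpace ℝ (Fin 2))) A := by
    intro A
    have h1 : (μH[((1:ℕ):ℝ)] : Measure (EuclideanSpace ℝ (Fin 2))) A = (μH[1] : Measure _) A := by
      rw [Nat.cast_one]
    rw [← h1]
    rfl
  -- the cut in terms of `μHE`
  set δ' : ℝ := κ * δ with hδ'
  have hδ'0 : 0 < δ' := mul_pos hκpos hδ
  have hcut' : ∀ v : EuclideanSpace ℝ (Fin 2), ‖v‖ = 1 →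
      (μHE[1] : Measure (EuclideanSpace ℝ (Fin 2)))
        (frontier (Ω ∩ {x | 0 < (inner ℝ (x - x0) v : ℝ)})) + ENNReal.ofReal δ' ≤
        (μHE[1] : Measure (EuclideanSpace ℝ (Fin 2))) (frontier Ω) := by
    intro v hv
    rw [hconv, hconv, hδ', ENNReal.ofReal_mul hκpos.le, ENNReal.ofReal_coe_nnreal, ← mul_add]
    exact mul_le_mul_right (hcut v hv) _
  set P : ℝ := ((μHE[1] : Measure (EuclideanSpace ℝ (Fin 2))) (frontier Ω)).toReal with hP
  set μ := neumannEigenvalue Ω 1 with hμ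
  have hμ0 : 0 < μ := mu_pos h le_rfl
  -- the main step
  have key : ∀ v : EuclideanSpace ℝ (Fin 2), ‖v‖ = 1 → ∀ u : EuclideanSpace ℝ (Fin 2) → ℝ,
      ContDiff ℝ 1 u → ∀ M : ℝ, 0 ≤ M → M * (P - δ') ^ 2 < μ * P ^ 2 →
      ∀ x ∈ Ω ∩ {x | 0 < (inner ℝ (x - x0) v : ℝ)}, u x ≠ 0 →
      ∫ x in Ω ∩ {x | 0 < (inner ℝ (x - x0) v : ℝ)}, u x = 0 →
      ∫ x in Ω ∩ {x | 0 < (inner ℝ (x - x0) v : ℝ)}, ‖fderiv ℝ u x‖ ^ 2 ≤
        M * ∫ x in Ω ∩ {x | 0 < (inner ℝ (x - x0) v : ℝ)}, u x ^ 2 →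
      ∃ Ω' : Set (EuclideanSpace ℝ (Fin 2)), IsConvexDomain Ω' ∧
        (μHE[1] : Measure (EuclideanSpace ℝ (Fin 2))) (frontier Ω') =
          (μHE[1] : Measure (EuclideanSpace ℝ (Fin 2))) (frontier Ω) ∧
        neumannEigenvalue Ω' 1 < μ := by
    intro v hv u hu M hM0 hMμ x hx hxu h0 hle
    have hd := piece_domain h x0 v hx
    have hRB := RB_one hd.isOpen hd.isBounded hu hx hxu h0 hM0 hle
    have hc := hcut' v hv
    have hpp := per_pos (m := 1) hd
    have hpt : (μHE[1] : Measure (EuclideanSpace ℝ (Fin 2)))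
        (frontier (Ω ∩ {x | 0 < (inner ℝ (x - x0) v : ℝ)})) ≠ ⊤ :=
      ne_top_of_le_ne_top hfin (le_self_add.trans hc)
    set p : ℝ := ((μHE[1] : Measure (EuclideanSpace ℝ (Fin 2)))
        (frontier (Ω ∩ {x | 0 < (inner ℝ (x - x0) v : ℝ)}))).toReal with hp
    have hp0 : 0 < p := ENNReal.toReal_pos hpp.ne' hpt
    have hpP : p + δ' ≤ P := by
      have := ENNReal.toReal_mono hfin hc
      rwa [ENNReal.toReal_add hpt ENNReal.ofReal_ne_top, ENNReal.toReal_ofReal hδ'0.le] at this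
    have hP0 : 0 < P := by linarith
    have hs0 : 0 < P / p := div_pos hP0 hp0
    refine ⟨(P / p) • (Ω ∩ {x | 0 < (inner ℝ (x - x0) v : ℝ)}), dom_scale hs0 hd, ?_, ?_⟩
    · rw [surf_scale hs0, pow_one, ← ENNReal.ofReal_toReal hpt, ← hp,
        ← ENNReal.ofReal_mul hs0.le, div_mul_cancel₀ _ hp0.ne', hP, ENNReal.ofReal_toReal hfin]
    · have hd2 := dom_scale hs0 hd
      refine lt_of_le_of_lt (mu_le hd2.isOpen hd2.isBounded (RB_scale hd.isOpen hs0 hRB)) ?_
      rw [div_lt_iff₀ (by positivity), div_pow, ← mul_div_assoc, lt_div_iff₀ (by positivity)]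
      have h1 : p ^ 2 ≤ (P - δ') ^ 2 := pow_le_pow_left₀ hp0.le (by linarith) 2
      calc M * p ^ 2 ≤ M * (P - δ') ^ 2 := by gcongr
        _ < μ * P ^ 2 := hMμ
  -- choice of `M`
  obtain ⟨w, hw⟩ : ∃ w : EuclideanSpace ℝ (Fin 2), ‖w‖ = 1 :=
    ⟨EuclideanSpace.single 0 1, by simp⟩
  have hPδ : δ' ≤ P := by
    have h1 := ENNReal.toReal_mono hfin (le_add_self.trans (hcut' w hw))
    rwa [ENNReal.toReal_ofReal hδ'0.le] at h1
  have hP0 : 0 < P := by linarith
  obtain ⟨M, hM, hMlt⟩ : ∃ M, RayleighBound Ω 1 M ∧ M * (P - δ') ^ 2 < μ * P ^ 2 := by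
    rcases eq_or_lt_of_le hPδ with he | hlt
    · obtain ⟨M, hM⟩ := exists_RB (n := 1) h 1
      refine ⟨M, hM, ?_⟩
      rw [he, sub_self]
      have : 0 < μ * P ^ 2 := by positivity
      simpa using this
    · have h1 : μ < μ * P ^ 2 / (P - δ') ^ 2 := by
        rw [lt_div_iff₀ (by
          have : 0 < P - δ' := by linarith
          positivity)]
        have h2 : (P - δ') ^ 2 < P ^ 2 := pow_lt_pow_left₀ (by linarith) (by linarith) two_ne_zero
        exact mul_lt_mul_of_pos_left h2 hμ0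
      obtain ⟨M, hM, hlt2⟩ := exists_lt_of_csInf_lt (exists_RB (n := 1) h 1) h1
      refine ⟨M, hM, ?_⟩
      rwa [lt_div_iff₀ (by
          have : 0 < P - δ' := by linarith
          positivity)] at hlt2
  have hM0 := RB_nonneg h.isOpen h.isBounded hM
  obtain ⟨u, hu, ⟨x, hx, hxu⟩, h0, hle⟩ := zero_combo h.isOpen h.isBounded le_rfl hM
  obtain ⟨v, hv, hz1, hz2, hadd⟩ := half_zero h.isOpen h.isBounded x0 hu.continuous h0
  have hv' : ‖-v‖ = 1 := by rwa [norm_neg]
  have cD : Continuous fun x => ‖fderiv ℝ u x‖ ^ 2 := (hu.continuous_fderiv one_ne_zero).norm.pow 2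
  have cU : Continuous fun x => u x ^ 2 := hu.continuous.pow 2
  have a1 := hadd _ cD
  have a2 := hadd _ cU
  rw [a1, a2] at hle
  -- which piece
  by_cases n1 : ∃ x ∈ Ω ∩ {x | 0 < (inner ℝ (x - x0) v : ℝ)}, u x ≠ 0
  · by_cases n2 : ∃ x ∈ Ω ∩ {x | 0 < (inner ℝ (x - x0) (-v) : ℝ)}, u x ≠ 0
    · obtain ⟨x1, hx1, hu1⟩ := n1
      obtain ⟨x2, hx2, hu2⟩ := n2
      by_cases hc : ∫ x in Ω ∩ {x | 0 < (inner ℝ (x - x0) v : ℝ)}, ‖fderiv ℝ u x‖ ^ 2 ≤
        M * ∫ x in Ω ∩ {x | 0 < (inner ℝ (x - x0) v : ℝ)}, u x ^ 2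
      · exact key v hv u hu M hM0 hMlt x1 hx1 hu1 hz1 hc
      · push Not at hc
        exact key (-v) hv' u hu M hM0 hMlt x2 hx2 hu2 hz2 (by linarith)
    · push Not at n2
      obtain ⟨x1, hx1, hu1⟩ := n1
      have hms : MeasurableSet (Ω ∩ {x | 0 < (inner ℝ (x - x0) (-v) : ℝ)}) := by
        have hc : Continuous fun x : EuclideanSpace ℝ (Fin 2) => (inner ℝ (x - x0) (-v) : ℝ) := by
          fun_prop
        exact (h.isOpen.inter (isOpen_lt continuous_const hc)).measurableSet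
      have z2 : ∫ x in Ω ∩ {x | 0 < (inner ℝ (x - x0) (-v) : ℝ)}, u x ^ 2 = 0 := by
        rw [setIntegral_congr_fun hms (g := fun _ => 0)]
        · simp
        · intro y hy
          simp [n2 y hy]
      have z1 : 0 ≤ ∫ x in Ω ∩ {x | 0 < (inner ℝ (x - x0) (-v) : ℝ)}, ‖fderiv ℝ u x‖ ^ 2 :=
        integral_nonneg fun _ => sq_nonneg _
      rw [z2] at hle
      exact key v hv u hu M hM0 hMlt x1 hx1 hu1 hz1 (by nlinarith)
  · push Not at n1
    have hms : MeasurableSet (Ω ∩ {x | 0 < (inner ℝ (x - x0) v : ℝ)}) := by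
      have hc : Continuous fun x : EuclideanSpace ℝ (Fin 2) => (inner ℝ (x - x0) v : ℝ) := by
        fun_prop
      exact (h.isOpen.inter (isOpen_lt continuous_const hc)).measurableSet
    have z2 : ∫ x in Ω ∩ {x | 0 < (inner ℝ (x - x0) v : ℝ)}, u x ^ 2 = 0 := by
      rw [setIntegral_congr_fun hms (g := fun _ => 0)]
      · simp
      · intro y hy
        simp [n1 y hy]
    have z1 : 0 ≤ ∫ x in Ω ∩ {x | 0 < (inner ℝ (x - x0) v : ℝ)}, ‖fderiv ℝ u x‖ ^ 2 :=
      integral_nonneg fun _ => sq_nonneg _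
    by_cases n2 : ∃ x ∈ Ω ∩ {x | 0 < (inner ℝ (x - x0) (-v) : ℝ)}, u x ≠ 0
    · obtain ⟨x2, hx2, hu2⟩ := n2
      rw [z2] at hle
      exact key (-v) hv' u hu M hM0 hMlt x2 hx2 hu2 hz2 (by nlinarith)
    · exfalso
      push Not at n2
      have hms2 : MeasurableSet (Ω ∩ {x | 0 < (inner ℝ (x - x0) (-v) : ℝ)}) := by
        have hc : Continuous fun x : EuclideanSpace ℝ (Fin 2) => (inner ℝ (x - x0) (-v) : ℝ) := by
          fun_prop
        exact (h.isOpen.inter (isOpen_lt continuous_const hc)).measurableSet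
      have z3 : ∫ x in Ω ∩ {x | 0 < (inner ℝ (x - x0) (-v) : ℝ)}, u x ^ 2 = 0 := by
        rw [setIntegral_congr_fun hms2 (g := fun _ => 0)]
        · simp
        · intro y hy
          simp [n2 y hy]
      have := cont_sq_pos h.isOpen h.isBounded hu.continuous hx hxu
      rw [a2, z2, z3] at this
      linarith

end Pool.Agent.Helper876.NK
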