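-- bumps proved; statement unchanged; axioms standard; helper names bum_*/bumPsi etc.
import Pool.Agent.Helper876_NK.QDefs
import Pool.Agent.Helper876_NK.Two

set_option autoImplicit false

open MeasureTheory Set Metric Filter Topology WithLp
open scoped ENNReal NNReal Pointwise Real

namespace Pool.Agent.Helper876.NK

open Pool.Agent.R225.NM

/-- square of the positive part -/
theorem bum_q_deriv (t : ℝ) : HasDerivAt (fun t : ℝ => (max 0 t) ^ 2) (2 * max 0 t) t := by
  rcases lt_trichotomy t 0 with h | h | h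
  · have h1 : (fun t : ℝ => (max 0 t) ^ 2) =ᶠ[𝓝 t] fun _ => (0 : ℝ) := by
      filter_upwards [Iio_mem_nhds h] with s hs
      rw [max_eq_left (le_of_lt hs)]
      norm_num
    rw [max_eq_left h.le, mul_zero]
    exact (hasDerivAt_const t (0 : ℝ)).congr_of_eventuallyEq h1
  · subst h
    rw [max_self, mul_zero, hasDerivAt_iff_isLittleO]
    have h1 : (fun x' : ℝ => (max 0 x') ^ 2 - (max 0 (0 : ℝ)) ^ 2 - (x' - 0) • (0 : ℝ)) =
        fun x' : ℝ => (max 0 x') ^ 2 := by
      funext x'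
      simp
    have h2 : (fun x' : ℝ => x' - 0) = fun x' : ℝ => x' := by
      funext x'
      simp
    rw [h1, h2]
    have h3 : (fun h : ℝ => (max 0 h) ^ 2) =O[𝓝 0] (fun h : ℝ => h ^ 2) := by
      refine Asymptotics.IsBigO.of_bound 1 (Filter.Eventually.of_forall fun h => ?_)
      rw [Real.norm_of_nonneg (sq_nonneg _), Real.norm_of_nonneg (sq_nonneg _), one_mul]
      rcases le_total h 0 with h4 | h4
      · rw [max_eq_left h4]
        nlinarith [sq_nonneg h]
      · rw [max_eq_right h4]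
    exact h3.trans_isLittleO (Asymptotics.isLittleO_pow_id one_lt_two)
  · have h1 : (fun t : ℝ => (max 0 t) ^ 2) =ᶠ[𝓝 t] fun t => t ^ 2 := by
      filter_upwards [Ioi_mem_nhds h] with s hs
      rw [max_eq_right (le_of_lt hs)]
    rw [max_eq_right h.le]
    have h2 : HasDerivAt (fun t : ℝ => t ^ 2) (2 * t) t := by
      simpa using hasDerivAt_pow 2 t
    exact h2.congr_of_eventuallyEq h1

/-- the profile -/
noncomputable def bumPsi (s : ℝ) : ℝ := 16 * (max 0 (s * (1 - s))) ^ 2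

/-- its derivative -/
noncomputable def bumPsiD (s : ℝ) : ℝ := 16 * (2 * max 0 (s * (1 - s)) * (1 - 2 * s))

theorem bum_psi_deriv (s : ℝ) : HasDerivAt bumPsi (bumPsiD s) s := by
  have h1 : HasDerivAt (fun s : ℝ => s * (1 - s)) (1 - 2 * s) s := by
    have h2 := (hasDerivAt_id s).mul ((hasDerivAt_const s (1 : ℝ)).sub (hasDerivAt_id s))
    refine h2.congr_deriv ?_
    show 1 * (1 - s) + s * (0 - 1) = 1 - 2 * s
    ring
  have h2 := (bum_q_deriv (s * (1 - s))).comp s h1
  exact h2.const_mul 16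

theorem bum_psiD_cont : Continuous bumPsiD := by
  unfold bumPsiD
  fun_prop

theorem bum_psi_cont : Continuous bumPsi := by
  unfold bumPsi
  fun_prop

theorem bum_nonpos {s : ℝ} (h : s ≤ 0 ∨ 1 ≤ s) : max 0 (s * (1 - s)) = 0 := by
  apply max_eq_left
  rcases h with h | h <;> nlinarith

theorem bum_psi_zero {s : ℝ} (h : s ≤ 0 ∨ 1 ≤ s) : bumPsi s = 0 := by
  unfold bumPsi
  rw [bum_nonpos h]
  norm_num

theorem bum_psiD_zero {s : ℝ} (h : s ≤ 0 ∨ 1 ≤ s) : bumPsiD s = 0 := by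
  unfold bumPsiD
  rw [bum_nonpos h]
  norm_num

theorem bum_psiD_sq (s : ℝ) : bumPsiD s ^ 2 ≤ 16 := by
  by_cases h : s ≤ 0 ∨ 1 ≤ s
  · rw [bum_psiD_zero h]
    norm_num
  · push Not at h
    obtain ⟨h0, h1⟩ := h
    have h2 : bumPsiD s = 32 * (s * (1 - s)) * (1 - 2 * s) := by
      unfold bumPsiD
      rw [max_eq_right (by nlinarith)]
      ring
    have h3 : |bumPsiD s| ≤ 4 := by
      rw [h2, abs_mul, abs_of_nonneg (by nlinarith : (0 : ℝ) ≤ 32 * (s * (1 - s)))]
      set v := |1 - 2 * s| with hv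
      have hv0 : 0 ≤ v := abs_nonneg _
      have hv2 : v ^ 2 = (1 - 2 * s) ^ 2 := sq_abs _
      have h4 : s * (1 - s) = (1 - v ^ 2) / 4 := by
        rw [hv2]
        ring
      rw [h4]
      nlinarith [mul_nonneg hv0 (sq_nonneg (v - 3 / 5)), sq_nonneg (v - 17 / 30)]
    have h4 := abs_nonneg (bumPsiD s)
    rw [← sq_abs]
    nlinarith

theorem bum_psi_low {s : ℝ} (h0 : 1 / 3 ≤ s) (h1 : s ≤ 2 / 3) : 1 / 2 ≤ bumPsi s ^ 2 := by
  have h2 : 2 / 9 ≤ s * (1 - s) := by nlinarith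
  have h3 : 64 / 81 ≤ bumPsi s := by
    unfold bumPsi
    have h4 : 2 / 9 ≤ max 0 (s * (1 - s)) := h2.trans (le_max_right _ _)
    nlinarith
  nlinarith

section loc

variable {n : ℕ} (a : EuclideanSpace ℝ (Fin n)) (s0 l : ℝ)

/-- the argument of the profile -/
noncomputable def bumArg (j : ℕ) (x : EuclideanSpace ℝ (Fin n)) : ℝ :=
  (3 * l)⁻¹ * ((inner ℝ x a : ℝ) - s0 - 3 * j * l)

/-- the bump -/
noncomputable def bumG (j : ℕ) (x : EuclideanSpace ℝ (Fin n)) : ℝ := bumPsi (bumArg a s0 l j x)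

/-- its slope -/
noncomputable def bumD (j : ℕ) (x : EuclideanSpace ℝ (Fin n)) : ℝ :=
  bumPsiD (bumArg a s0 l j x) * (3 * l)⁻¹

theorem bum_arg_cont (j : ℕ) : Continuous (bumArg a s0 l j) := by
  unfold bumArg
  fun_prop

theorem bum_arg_fderiv (j : ℕ) (x : EuclideanSpace ℝ (Fin n)) :
    HasFDerivAt (bumArg a s0 l j) ((3 * l)⁻¹ • innerSL ℝ a) x := by
  have h1 : HasFDerivAt (fun x : EuclideanSpace ℝ (Fin n) => (inner ℝ x a : ℝ) - s0 - 3 * j * l)
      (innerSL ℝ a) x := by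
    have h2 : HasFDerivAt (fun x : EuclideanSpace ℝ (Fin n) => (inner ℝ x a : ℝ))
        (innerSL ℝ a) x := by
      have h3 : (fun x : EuclideanSpace ℝ (Fin n) => (inner ℝ x a : ℝ)) = fun x => innerSL ℝ a x := by
        funext y
        rw [innerSL_apply_apply, real_inner_comm]
      rw [h3]
      exact (innerSL ℝ a).hasFDerivAt
    exact (h2.sub_const _).sub_const _
  exact h1.const_smul (3 * l)⁻¹

theorem bum_g_fderiv (j : ℕ) (x : EuclideanSpace ℝ (Fin n)) :
    HasFDerivAt (bumG a s0 l j) (bumD a s0 l j x • innerSL ℝ a) x := by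
  have h1 := (bum_psi_deriv (bumArg a s0 l j x)).comp_hasFDerivAt x (bum_arg_fderiv a s0 l j x)
  rw [smul_smul] at h1
  exact h1

theorem bum_d_cont (j : ℕ) : Continuous (bumD a s0 l j) := by
  unfold bumD
  exact (bum_psiD_cont.comp (bum_arg_cont a s0 l j)).mul continuous_const

theorem bum_g_contDiff (j : ℕ) : ContDiff ℝ 1 (bumG a s0 l j) := by
  rw [contDiff_one_iff_fderiv]
  refine ⟨fun x => (bum_g_fderiv a s0 l j x).differentiableAt, ?_⟩
  have h1 : fderiv ℝ (bumG a s0 l j) = fun x => bumD a s0 l j x • innerSL ℝ a := by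
    funext x
    exact (bum_g_fderiv a s0 l j x).fderiv
  rw [h1]
  exact (bum_d_cont a s0 l j).smul continuous_const

theorem bum_out (hl : 0 < l) {j : ℕ} {x : EuclideanSpace ℝ (Fin n)}
    (h : (inner ℝ x a : ℝ) ≤ s0 + 3 * j * l ∨ s0 + 3 * j * l + 3 * l ≤ (inner ℝ x a : ℝ)) :
    bumArg a s0 l j x ≤ 0 ∨ 1 ≤ bumArg a s0 l j x := by
  have h3 : 0 < 3 * l := by positivity
  unfold bumArg
  rcases h with h | h
  · left
    exact mul_nonpos_of_nonneg_of_nonpos (inv_pos.2 h3).le (by linarith)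
  · right
    rw [← inv_mul_cancel₀ h3.ne']
    exact mul_le_mul_of_nonneg_left (by linarith) (inv_pos.2 h3).le

theorem bum_disj (hl : 0 < l) {i j : ℕ} (hij : i ≠ j) (x : EuclideanSpace ℝ (Fin n)) :
    (bumArg a s0 l i x ≤ 0 ∨ 1 ≤ bumArg a s0 l i x) ∨
      (bumArg a s0 l j x ≤ 0 ∨ 1 ≤ bumArg a s0 l j x) := by
  have key : ∀ i j : ℕ, i < j → (bumArg a s0 l i x ≤ 0 ∨ 1 ≤ bumArg a s0 l i x) ∨
      (bumArg a s0 l j x ≤ 0 ∨ 1 ≤ bumArg a s0 l j x) := by
    intro i j hlt
    have h1 : (i : ℝ) + 1 ≤ j := by exact_mod_cast hlt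
    by_cases h : s0 + 3 * i * l + 3 * l ≤ (inner ℝ x a : ℝ)
    · exact Or.inl (bum_out a s0 l hl (Or.inr h))
    · refine Or.inr (bum_out a s0 l hl (Or.inl ?_))
      push Not at h
      nlinarith
  rcases lt_or_gt_of_ne hij with h | h
  · exact key i j h
  · exact (key j i h).symm

end loc

theorem bum_sq {k : ℕ} (c u : Fin (k + 1) → ℝ) (h : ∀ i j, i ≠ j → u i * u j = 0) :
    (∑ i, c i * u i) ^ 2 = ∑ i, c i ^ 2 * u i ^ 2 := by
  rw [sum_sq_expand]
  refine Finset.sum_congr rfl fun i _ => ?_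
  rw [Finset.sum_eq_single i]
  · ring
  · intro j _ hj
    rw [h i j (Ne.symm hj), mul_zero]
  · intro hi
    exact absurd (Finset.mem_univ _) hi

theorem bum_open {n : ℕ} (a : EuclideanSpace ℝ (Fin n)) (p q : ℝ) :
    IsOpen {x : EuclideanSpace ℝ (Fin n) | p < (inner ℝ x a : ℝ) ∧ (inner ℝ x a : ℝ) < q} := by
  have h1 : Continuous fun x : EuclideanSpace ℝ (Fin n) => (inner ℝ x a : ℝ) := by fun_prop
  exact (isOpen_Ioo (a := p) (b := q)).preimage h1

theorem bum_null {n : ℕ} (a : EuclideanSpace ℝ (Fin n)) (ha : ‖a‖ = 1) (c : ℝ) :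
    volume {x : EuclideanSpace ℝ (Fin n) | (inner ℝ x a : ℝ) = c} = 0 := by
  have h1 : {x : EuclideanSpace ℝ (Fin n) | (inner ℝ x a : ℝ) = c} =
      (fun x => x - c • a) ⁻¹' (((ℝ ∙ a)ᗮ : Submodule ℝ (EuclideanSpace ℝ (Fin n))) :
        Set (EuclideanSpace ℝ (Fin n))) := by
    ext x
    show (inner ℝ x a : ℝ) = c ↔ x - c • a ∈ (ℝ ∙ a)ᗮ
    rw [Submodule.mem_orthogonal_singleton_iff_inner_left, inner_sub_left, real_inner_smul_left,
      real_inner_self_eq_norm_sq, ha]
    constructor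
    · intro h
      rw [h]
      ring
    · intro h
      linarith
  rw [h1, (measurePreserving_sub_right (volume : Measure (EuclideanSpace ℝ (Fin n)))
    (c • a)).measure_preimage
    (Submodule.closed_of_finiteDimensional _).measurableSet.nullMeasurableSet]
  refine Measure.addHaar_submodule volume _ ?_
  intro htop
  have h2 : a ∈ (ℝ ∙ a)ᗮ := by rw [htop]; trivial
  rw [Submodule.mem_orthogonal_singleton_iff_inner_left, real_inner_self_eq_norm_sq, ha] at h2
  norm_num at h2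

/- (Pool/Agent/R225/NM/*.lean: RayleighBound, combo_apply, cont_sq_pos, int_bdd, nonzero_of_LI, RB_nonneg, ...; an example of a RayleighBound proof is RB_one in Pool/Agent/Helper876_NK/Two.lean.)
PLAIN PROOF. ψ(s) = 16 s^2 (1 - s)^2 for 0 ≤ s ≤ 1 and 0 elsewhere (equivalently 16 (max 0 (s (1 - s)))^2) is C^1, |ψ'| ≤ 4, ψ^2 ≥ 1/2 on [1/3, 2/3]. For j = 0, ..., k
put I_j = (s0 + 3 j l, s0 + 3 (j + 1) l), g_j(x) = ψ((⟨x, a⟩ - s0 - 3 j l) / (3 l)). The supports are disjoint. |∇g_j|^2 ≤ 16 / (9 l^2) and it vanishes outside of the closed slab I_j, of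
volume ≤ 3 M (three small slabs, the hyperplanes are null sets), so ∫ |∇g_j|^2 ≤ 16 M / (3 l^2); ∫ g_j^2 ≥ (1/2) volume(middle slab) ≥ M / 4. Because of the disjoint supports
∫ |∇ ∑ c_j g_j|^2 = ∑ c_j^2 ∫ |∇g_j|^2 ≤ (100 / l^2) ∑ c_j^2 ∫ g_j^2. Each g_j is nonzero at a point of the middle slab of Ω, so they are linearly independent on Ω. -/
theorem bumps {n k : ℕ} {Ω : Set (EuclideanSpace ℝ (Fin n))} (h : IsConvexDomain Ω)
    (a : EuclideanSpace ℝ (Fin n)) (ha : ‖a‖ = 1) {l M : ℝ} (hl : 0 < l) (hM : 0 < M) (s0 : ℝ)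
    (hlow : ∀ i : ℕ, i < 3 * (k + 1) → M / 2 ≤
      volume.real (Ω ∩ {x | s0 + i * l < (inner ℝ x a : ℝ) ∧ (inner ℝ x a : ℝ) < s0 + i * l + l}))
    (hup : ∀ i : ℕ, i < 3 * (k + 1) →
      volume.real (Ω ∩ {x | s0 + i * l < (inner ℝ x a : ℝ) ∧ (inner ℝ x a : ℝ) < s0 + i * l + l}) ≤ M) :
    RayleighBound Ω k (100 / l ^ 2) := by
  have hΩf : volume Ω ≠ ⊤ := h.isBounded.measure_lt_top.ne
  set S : ℕ → Set (EuclideanSpace ℝ (Fin n)) := fun i =>
    Ω ∩ {x | s0 + i * l < (inner ℝ x a : ℝ) ∧ (inner ℝ x a : ℝ) < s0 + i * l + l} with hS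
  have hSf : ∀ i, volume (S i) ≠ ⊤ := fun i =>
    ne_top_of_le_ne_top hΩf (measure_mono inter_subset_left)
  have hSo : ∀ i, IsOpen (S i) := by
    intro i
    exact h.isOpen.inter (bum_open a _ _)
  -- the values on the middle slab
  have hmid : ∀ j : ℕ, ∀ x ∈ S (3 * j + 1), 1 / 2 ≤ bumG a s0 l j x ^ 2 := by
    intro j x hx
    obtain ⟨_, hx1, hx2⟩ := hx
    push_cast at hx1 hx2
    have h3 : 0 < 3 * l := by positivity
    refine bum_psi_low ?_ ?_
    · unfold bumArg
      rw [inv_mul_eq_div, div_le_div_iff₀ (by norm_num) h3]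
      nlinarith
    · unfold bumArg
      rw [inv_mul_eq_div, div_le_div_iff₀ h3 (by norm_num)]
      nlinarith
  -- disjoint supports
  have hdG : ∀ (x : EuclideanSpace ℝ (Fin n)) (i j : Fin (k + 1)), i ≠ j →
      bumG a s0 l i x * bumG a s0 l j x = 0 := by
    intro x i j hij
    rcases bum_disj a s0 l hl (fun h => hij (Fin.ext h)) x with h1 | h1
    · unfold bumG
      rw [bum_psi_zero h1, zero_mul]
    · unfold bumG
      rw [bum_psi_zero h1, mul_zero]
  have hdD : ∀ (x : EuclideanSpace ℝ (Fin n)) (i j : Fin (k + 1)), i ≠ j →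
      bumD a s0 l i x * bumD a s0 l j x = 0 := by
    intro x i j hij
    rcases bum_disj a s0 l hl (fun h => hij (Fin.ext h)) x with h1 | h1
    · unfold bumD
      rw [bum_psiD_zero h1, zero_mul, zero_mul]
    · unfold bumD
      rw [bum_psiD_zero h1, zero_mul, mul_zero]
  -- lower bound
  have hlowI : ∀ j : ℕ, j < k + 1 → M / 4 ≤ ∫ x in Ω, bumG a s0 l j x ^ 2 := by
    intro j hj
    have hi : IntegrableOn (fun x => bumG a s0 l j x ^ 2) Ω :=
      int_bdd h.isBounded ((bum_g_contDiff a s0 l j).continuous.pow 2)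
    have h1 : ∫ x in S (3 * j + 1), bumG a s0 l j x ^ 2 ≤ ∫ x in Ω, bumG a s0 l j x ^ 2 :=
      setIntegral_mono_set hi (Filter.Eventually.of_forall fun x => sq_nonneg _)
        (Filter.Eventually.of_forall fun x hx => hx.1)
    have h2 : ∫ x in S (3 * j + 1), (1 / 2 : ℝ) ≤ ∫ x in S (3 * j + 1), bumG a s0 l j x ^ 2 :=
      setIntegral_mono_on (integrableOn_const (hSf _)) (hi.mono_set inter_subset_left)
        (hSo _).measurableSet (hmid j)
    rw [setIntegral_const, smul_eq_mul] at h2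
    have h3 := hlow (3 * j + 1) (by omega)
    have h4 : volume.real (S (3 * j + 1)) = volume.real (Ω ∩ {x | s0 + ((3 * j + 1 : ℕ) : ℝ) * l <
        (inner ℝ x a : ℝ) ∧ (inner ℝ x a : ℝ) < s0 + ((3 * j + 1 : ℕ) : ℝ) * l + l}) := rfl
    rw [← h4] at h3
    linarith
  -- upper bound
  have hupI : ∀ j : ℕ, j < k + 1 → ∫ x in Ω, bumD a s0 l j x ^ 2 ≤ 16 / (9 * l ^ 2) * (3 * M) := by
    intro j hj
    set T : Set (EuclideanSpace ℝ (Fin n)) := Ω ∩ {x | s0 + 3 * j * l < (inner ℝ x a : ℝ) ∧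
      (inner ℝ x a : ℝ) < s0 + 3 * j * l + 3 * l} with hT
    have hTo : IsOpen T := h.isOpen.inter (bum_open a _ _)
    have hTf : volume T ≠ ⊤ := ne_top_of_le_ne_top hΩf (measure_mono inter_subset_left)
    have hi : IntegrableOn (fun x => bumD a s0 l j x ^ 2) Ω :=
      int_bdd h.isBounded ((bum_d_cont a s0 l j).pow 2)
    have h1 : ∫ x in Ω, bumD a s0 l j x ^ 2 = ∫ x in T, bumD a s0 l j x ^ 2 := by
      refine setIntegral_eq_of_subset_of_forall_sdiff_eq_zero h.isOpen.measurableSet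
        inter_subset_left ?_
      rintro x ⟨hx, hxT⟩
      have h2 : (inner ℝ x a : ℝ) ≤ s0 + 3 * j * l ∨ s0 + 3 * j * l + 3 * l ≤ (inner ℝ x a : ℝ) := by
        by_contra hcon
        push Not at hcon
        exact hxT ⟨hx, hcon.1, hcon.2⟩
      unfold bumD
      rw [bum_psiD_zero (bum_out a s0 l hl h2)]
      norm_num
    have h2 : ∀ x, bumD a s0 l j x ^ 2 ≤ 16 / (9 * l ^ 2) := by
      intro x
      unfold bumD
      rw [mul_pow, inv_pow, mul_pow, ← div_eq_mul_inv]
      have h3 := bum_psiD_sq (bumArg a s0 l j x)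
      have h4 : (3 : ℝ) ^ 2 = 9 := by norm_num
      rw [h4]
      exact div_le_div_of_nonneg_right h3 (by positivity)
    have h3 : ∫ x in T, bumD a s0 l j x ^ 2 ≤ ∫ x in T, (16 / (9 * l ^ 2) : ℝ) :=
      setIntegral_mono_on (hi.mono_set inter_subset_left) (integrableOn_const hTf)
        hTo.measurableSet (fun x _ => h2 x)
    rw [setIntegral_const, smul_eq_mul, mul_comm] at h3
    rw [h1]
    refine h3.trans (mul_le_mul_of_nonneg_left ?_ (by positivity))
    -- the volume of the large slab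
    set H1 : Set (EuclideanSpace ℝ (Fin n)) := {x | (inner ℝ x a : ℝ) = s0 + 3 * j * l + l}
    set H2 : Set (EuclideanSpace ℝ (Fin n)) := {x | (inner ℝ x a : ℝ) = s0 + 3 * j * l + 2 * l}
    have hsub : T ⊆ (S (3 * j) ∪ (S (3 * j + 1) ∪ S (3 * j + 2))) ∪ (H1 ∪ H2) := by
      rintro x ⟨hx, hx1, hx2⟩
      by_cases e1 : (inner ℝ x a : ℝ) = s0 + 3 * j * l + l
      · exact Or.inr (Or.inl e1)
      by_cases e2 : (inner ℝ x a : ℝ) = s0 + 3 * j * l + 2 * l
      · exact Or.inr (Or.inr e2)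
      rcases lt_or_gt_of_ne e1 with e3 | e3
      · refine Or.inl (Or.inl ⟨hx, ?_, ?_⟩)
        · push_cast
          linarith
        · push_cast
          linarith
      · rcases lt_or_gt_of_ne e2 with e4 | e4
        · refine Or.inl (Or.inr (Or.inl ⟨hx, ?_, ?_⟩))
          · push_cast
            linarith
          · push_cast
            linarith
        · refine Or.inl (Or.inr (Or.inr ⟨hx, ?_, ?_⟩))
          · push_cast
            linarith
          · push_cast
            linarith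
    have n1 : volume H1 = 0 := bum_null a ha _
    have n2 : volume H2 = 0 := bum_null a ha _
    have hle : volume T ≤ volume (S (3 * j)) + (volume (S (3 * j + 1)) + volume (S (3 * j + 2))) := by
      calc volume T ≤ volume ((S (3 * j) ∪ (S (3 * j + 1) ∪ S (3 * j + 2))) ∪ (H1 ∪ H2)) :=
            measure_mono hsub
        _ ≤ volume (S (3 * j) ∪ (S (3 * j + 1) ∪ S (3 * j + 2))) + volume (H1 ∪ H2) :=
            measure_union_le _ _
        _ = volume (S (3 * j) ∪ (S (3 * j + 1) ∪ S (3 * j + 2))) := by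
            rw [measure_union_null n1 n2, add_zero]
        _ ≤ volume (S (3 * j)) + volume (S (3 * j + 1) ∪ S (3 * j + 2)) := measure_union_le _ _
        _ ≤ _ := add_le_add_right (measure_union_le _ _) _
    have hreal : volume.real T ≤ volume.real (S (3 * j)) + (volume.real (S (3 * j + 1)) +
        volume.real (S (3 * j + 2))) := by
      unfold Measure.real
      rw [← ENNReal.toReal_add (hSf _) (hSf _), ← ENNReal.toReal_add (hSf _)
        (ENNReal.add_ne_top.2 ⟨hSf _, hSf _⟩)]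
      exact ENNReal.toReal_mono (ENNReal.add_ne_top.2 ⟨hSf _, ENNReal.add_ne_top.2 ⟨hSf _, hSf _⟩⟩) hle
    have u0 : volume.real (S (3 * j)) ≤ M := hup (3 * j) (by omega)
    have u1 : volume.real (S (3 * j + 1)) ≤ M := hup (3 * j + 1) (by omega)
    have u2 : volume.real (S (3 * j + 2)) ≤ M := hup (3 * j + 2) (by omega)
    linarith
  refine ⟨fun j => bumG a s0 l j, fun j => bum_g_contDiff a s0 l j, ?_, ?_⟩
  · rw [Fintype.linearIndependent_iff]
    intro c hc j
    have hne : (S (3 * (j : ℕ) + 1)).Nonempty := by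
      by_contra hemp
      rw [Set.not_nonempty_iff_eq_empty] at hemp
      have h3 := hlow (3 * j + 1) (by have := j.2; omega)
      have h4 : volume.real (S (3 * j + 1)) = volume.real (Ω ∩ {x |
        s0 + ((3 * (j : ℕ) + 1 : ℕ) : ℝ) * l < (inner ℝ x a : ℝ) ∧
          (inner ℝ x a : ℝ) < s0 + ((3 * (j : ℕ) + 1 : ℕ) : ℝ) * l + l}) := rfl
      rw [← h4, hemp, measureReal_empty] at h3
      linarith
    obtain ⟨x, hx⟩ := hne
    have h1 := congrFun hc ⟨x, hx.1⟩
    simp only [Finset.sum_apply, Pi.smul_apply, smul_eq_mul, Pi.zero_apply] at h1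
    have hg := hmid j x hx
    have hg0 : bumG a s0 l j x ≠ 0 := by
      intro h0
      rw [h0] at hg
      norm_num at hg
    rw [Finset.sum_eq_single j] at h1
    · rcases mul_eq_zero.1 h1 with h2 | h2
      · exact h2
      · exact absurd h2 hg0
    · intro i _ hi
      have h2 := hdG x i j hi
      rcases mul_eq_zero.1 h2 with h3 | h3
      · rw [h3, mul_zero]
      · exact absurd h3 hg0
    · intro hj
      exact absurd (Finset.mem_univ _) hj
  · intro c
    have hfd : ∀ x, ‖fderiv ℝ (∑ i : Fin (k + 1), c i • fun x => bumG a s0 l (i : ℕ) x) x‖ ^ 2 =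
        ∑ i : Fin (k + 1), c i ^ 2 * bumD a s0 l i x ^ 2 := by
      intro x
      have h1 : HasFDerivAt (∑ i : Fin (k + 1), c i • fun x => bumG a s0 l (i : ℕ) x)
          (∑ i : Fin (k + 1), c i • (bumD a s0 l i x • innerSL ℝ a)) x :=
        HasFDerivAt.sum fun i _ => (bum_g_fderiv a s0 l i x).const_smul (c i)
      rw [h1.fderiv]
      have h2 : (∑ i : Fin (k + 1), c i • (bumD a s0 l i x • innerSL ℝ a)) =
          (∑ i : Fin (k + 1), c i * bumD a s0 l i x) • innerSL ℝ a := by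
        rw [Finset.sum_smul]
        exact Finset.sum_congr rfl fun i _ => smul_smul _ _ _
      rw [h2, norm_smul, innerSL_apply_norm, ha, mul_one, Real.norm_eq_abs, sq_abs]
      exact bum_sq c (fun i => bumD a s0 l i x) (hdD x)
    have hsq : ∀ x, (∑ i : Fin (k + 1), c i • fun x => bumG a s0 l (i : ℕ) x) x ^ 2 =
        ∑ i : Fin (k + 1), c i ^ 2 * bumG a s0 l i x ^ 2 := by
      intro x
      rw [combo_apply]
      exact bum_sq c (fun i => bumG a s0 l i x) (hdG x)
    simp only [hfd, hsq]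
    rw [integral_finsetSum _ fun i _ => ?_, integral_finsetSum _ fun i _ => ?_, Finset.mul_sum]
    · refine Finset.sum_le_sum fun i _ => ?_
      rw [integral_const_mul, integral_const_mul]
      have h1 := hlowI i i.2
      have h2 := hupI i i.2
      have h3 : 16 / (9 * l ^ 2) * (3 * M) ≤ 100 / l ^ 2 * (M / 4) := by
        have h4 : 16 / (9 * l ^ 2) * (3 * M) = (16 / 3) * (M / l ^ 2) := by
          field_simp
          ring
        have h5 : 100 / l ^ 2 * (M / 4) = 25 * (M / l ^ 2) := by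
          field_simp
          ring
        rw [h4, h5]
        exact mul_le_mul_of_nonneg_right (by norm_num) (by positivity)
      have h6 : 100 / l ^ 2 * (M / 4) ≤ 100 / l ^ 2 * ∫ x in Ω, bumG a s0 l i x ^ 2 :=
        mul_le_mul_of_nonneg_left h1 (by positivity)
      calc c i ^ 2 * ∫ x in Ω, bumD a s0 l i x ^ 2
          ≤ c i ^ 2 * (100 / l ^ 2 * ∫ x in Ω, bumG a s0 l i x ^ 2) :=
            mul_le_mul_of_nonneg_left (h2.trans (h3.trans h6)) (sq_nonneg _)
        _ = 100 / l ^ 2 * (c i ^ 2 * ∫ x in Ω, bumG a s0 l i x ^ 2) := by ring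
    · exact Integrable.const_mul (int_bdd h.isBounded
        ((bum_g_contDiff a s0 l i).continuous.pow 2)) _
    · exact Integrable.const_mul (int_bdd h.isBounded ((bum_d_cont a s0 l i).pow 2)) _

end Pool.Agent.Helper876.NK
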