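import Pool.Agent.Helper876_NK.QDefs

set_option autoImplicit false

open MeasureTheory Set Metric Filter Topology WithLp
open scoped ENNReal NNReal Pointwise Real

namespace Pool.Agent.Helper876.NK

open Pool.Agent.R225.NM


/-- a diagonal linear map -/
noncomputable def dg {n : ℕ} (w : Fin n → ℝ) :
    EuclideanSpace ℝ (Fin n) →ₗ[ℝ] EuclideanSpace ℝ (Fin n) where
  toFun x := toLp 2 fun i => w i * x i
  map_add' x y := by ext i; simp [mul_add]
  map_smul' c x := by ext i; simp; ring

theorem dg_apply {n : ℕ} (w : Fin n → ℝ) (x : EuclideanSpace ℝ (Fin n)) (i : Fin n) :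
    dg w x i = w i * x i := rfl

theorem dg_det {n : ℕ} (w : Fin n → ℝ) : LinearMap.det (dg w) = ∏ i, w i := by
  classical
  rw [← LinearMap.det_toMatrix (EuclideanSpace.basisFun (Fin n) ℝ).toBasis, ← Matrix.det_diagonal]
  congr 1
  ext i j
  rw [LinearMap.toMatrix_apply, Matrix.diagonal_apply]
  simp only [OrthonormalBasis.coe_toBasis_repr_apply, OrthonormalBasis.coe_toBasis,
    EuclideanSpace.basisFun_apply, EuclideanSpace.basisFun_repr, dg_apply]
  by_cases h : i = j
  · subst h; simp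
  · simp [h]

theorem dg_inj {n : ℕ} {w : Fin n → ℝ} (hw : ∀ i, w i ≠ 0) : Function.Injective (dg w) := by
  intro x y h
  ext i
  have h1 : dg w x i = dg w y i := by rw [h]
  rw [dg_apply, dg_apply] at h1
  exact mul_left_cancel₀ (hw i) h1

theorem dg_surj {n : ℕ} {w : Fin n → ℝ} (hw : ∀ i, w i ≠ 0) : Function.Surjective (dg w) := by
  intro y
  refine ⟨toLp 2 fun i => (w i)⁻¹ * y i, ?_⟩
  ext i
  rw [dg_apply]
  change w i * ((w i)⁻¹ * y i) = y i
  rw [← mul_assoc, mul_inv_cancel₀ (hw i), one_mul]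

theorem dg_domain {n : ℕ} {w : Fin n → ℝ} (hw : ∀ i, w i ≠ 0)
    {Ω : Set (EuclideanSpace ℝ (Fin n))} (h : IsConvexDomain Ω) : IsConvexDomain (dg w '' Ω) where
  isOpen := (LinearMap.isOpenMap_of_finiteDimensional (dg w) (dg_surj hw)) _ h.isOpen
  convex := h.convex.linear_image (dg w)
  isBounded := by
    have := (LinearMap.toContinuousLinearMap (dg w)).lipschitz.isBounded_image h.isBounded
    exact this
  nonempty := h.nonempty.image _

theorem dg_vol {n : ℕ} (w : Fin n → ℝ) (hw : 0 ≤ ∏ i, w i) (s : Set (EuclideanSpace ℝ (Fin n))) :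
    volume.real (dg w '' s) = (∏ i, w i) * volume.real s := by
  rw [measureReal_def, Measure.addHaar_image_linearMap, dg_det, ENNReal.toReal_mul,
    ENNReal.toReal_ofReal (abs_nonneg _), abs_of_nonneg hw]
  rfl

theorem dg_int {n : ℕ} {w : Fin n → ℝ} (hw : ∀ i, w i ≠ 0) (hw' : 0 ≤ ∏ i, w i)
    {s : Set (EuclideanSpace ℝ (Fin n))} (hs : MeasurableSet s)
    (g : EuclideanSpace ℝ (Fin n) → ℝ) :
    ∫ x in dg w '' s, g x = (∏ i, w i) * ∫ x in s, g (dg w x) := by
  have h1 := integral_image_eq_integral_abs_det_fderiv_smul volume hs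
    (f := fun x => dg w x) (f' := fun _ => LinearMap.toContinuousLinearMap (dg w))
    (fun x _ => (LinearMap.toContinuousLinearMap (dg w)).hasFDerivWithinAt)
    ((dg_inj hw).injOn) g
  rw [h1]
  have h2 : (LinearMap.toContinuousLinearMap (dg w)).det = ∏ i, w i := by
    rw [ContinuousLinearMap.det, LinearMap.coe_toContinuousLinearMap, dg_det]
  simp only [h2, abs_of_nonneg hw', smul_eq_mul]
  rw [integral_const_mul]

theorem pr_cont (d : ℕ) : Continuous (pr d) := by
  unfold pr
  fun_prop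

/-- the diagonal case -/
theorem momdiag {d : ℕ} (hd : 1 ≤ d)
    (hmom : ∀ (Ω : Set (EuclideanSpace ℝ (Fin (d + 1)))), IsConvexDomain Ω →
      ∀ c : EuclideanSpace ℝ (Fin d),
      ((d : ℝ) * (d + 1) / ((d + 2) * (d + 3))) *
        (volume.real (pr d '' Ω) / om d) ^ (2 / (d : ℝ)) * volume.real Ω ≤
        ∫ x in Ω, ‖pr d x - c‖ ^ 2)
    {Ω : Set (EuclideanSpace ℝ (Fin (d + 1)))} (h : IsConvexDomain Ω)
    (m v : Fin d → ℝ) (hv : ∀ i, 0 < v i)
    (h1 : ∀ i, ∫ x in Ω, (pr d x i - m i) ^ 2 = volume.real Ω * v i) :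
    (((d : ℝ) + 1) / ((d + 2) * (d + 3))) * (volume.real (pr d '' Ω) / om d) ^ (2 / (d : ℝ)) ≤
      (∏ i, v i) ^ (1 / (d : ℝ)) := by
  have hd0 : (0 : ℝ) < d := by exact_mod_cast hd
  set w : Fin d → ℝ := fun i => (Real.sqrt (v i))⁻¹ with hw
  set w' : Fin (d + 1) → ℝ := Fin.cons 1 w with hw'
  have hwp : ∀ i, 0 < w i := fun i => inv_pos.2 (Real.sqrt_pos.2 (hv i))
  have hwp' : ∀ i, 0 < w' i := by
    intro i
    refine Fin.cases ?_ (fun j => ?_) i
    · simp [hw']
    · simp only [hw', Fin.cons_succ]; exact hwp j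
  have hprod : ∏ i, w' i = ∏ i, w i := by
    rw [Fin.prod_univ_succ]
    simp [hw']
  set q : ℝ := ∏ i, w i with hq
  have hq0 : 0 < q := Finset.prod_pos fun i _ => hwp i
  have hpr : ∀ x, pr d (dg w' x) = dg w (pr d x) := by
    intro x
    ext i
    rw [dg_apply]
    change dg w' x (Fin.succ i) = w i * x (Fin.succ i)
    rw [dg_apply, hw', Fin.cons_succ]
  have hdom := dg_domain (w := w') (fun i => (hwp' i).ne') h
  set c : EuclideanSpace ℝ (Fin d) := toLp 2 fun i => w i * m i with hc
  have h2 := hmom _ hdom c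
  have h3 : pr d '' (dg w' '' Ω) = dg w '' (pr d '' Ω) := by
    rw [Set.image_image, Set.image_image]
    exact Set.image_congr fun x _ => hpr x
  rw [h3, dg_vol w hq0.le, dg_vol w' (by rw [hprod]; exact hq0.le),
    dg_int (fun i => (hwp' i).ne') (by rw [hprod]; exact hq0.le) h.isOpen.measurableSet,
    hprod, ← hq] at h2
  have hV : 0 < volume.real Ω := by
    rw [measureReal_def]
    exact ENNReal.toReal_pos (h.isOpen.measure_pos volume h.nonempty).ne'
      h.isBounded.measure_lt_top.ne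
  have h4 : ∫ x in Ω, ‖pr d (dg w' x) - c‖ ^ 2 = d * volume.real Ω := by
    have h5 : ∀ x, ‖pr d (dg w' x) - c‖ ^ 2 = ∑ i, (v i)⁻¹ * (pr d x i - m i) ^ 2 := by
      intro x
      rw [hpr, EuclideanSpace.real_norm_sq_eq]
      refine Finset.sum_congr rfl fun i _ => ?_
      change (w i * pr d x i - w i * m i) ^ 2 = _
      rw [← mul_sub, mul_pow]
      congr 1
      rw [hw]
      simp only
      rw [inv_pow, Real.sq_sqrt (hv i).le]
    simp only [h5]
    rw [integral_finsetSum]
    · simp only [integral_const_mul, h1]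
      rw [show (∑ i : Fin d, (v i)⁻¹ * (volume.real Ω * v i)) = ∑ _i : Fin d, volume.real Ω from
        Finset.sum_congr rfl fun i _ => by
          have := (hv i).ne'
          field_simp]
      rw [Finset.sum_const, Finset.card_univ, Fintype.card_fin, nsmul_eq_mul]
    · intro i _
      have hcont : Continuous fun x : EuclideanSpace ℝ (Fin (d + 1)) =>
          (v i)⁻¹ * (pr d x i - m i) ^ 2 := by
        have h6 : Continuous fun x : EuclideanSpace ℝ (Fin (d + 1)) => pr d x i := by
          change Continuous fun x : EuclideanSpace ℝ (Fin (d + 1)) => x (Fin.succ i)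
          fun_prop
        fun_prop
      exact (hcont.continuousOn.integrableOn_compact h.isBounded.isCompact_closure).mono_set
        subset_closure
  rw [h4] at h2
  have hA : 0 ≤ volume.real (pr d '' Ω) / om d := by
    unfold om
    positivity
  set B : ℝ := volume.real (pr d '' Ω) / om d with hB
  have h7 : q * volume.real (pr d '' Ω) / om d = q * B := by rw [hB]; ring
  rw [h7, Real.mul_rpow hq0.le hA] at h2
  have hP : 0 < ∏ i, v i := Finset.prod_pos fun i _ => hv i
  have h8 : q ^ (2 / (d : ℝ)) = ((∏ i, v i) ^ (1 / (d : ℝ)))⁻¹ := by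
    have h9 : q = (∏ i, v i) ^ (-(1 / 2) : ℝ) := by
      rw [hq, ← Real.finsetProd_rpow _ _ (fun i _ => (hv i).le)]
      refine Finset.prod_congr rfl fun i _ => ?_
      rw [hw]
      simp only
      rw [Real.rpow_neg (hv i).le, Real.sqrt_eq_rpow]
    rw [h9, ← Real.rpow_mul hP.le, ← Real.rpow_neg hP.le]
    congr 1
    field_simp
  rw [h8] at h2
  set T : ℝ := (∏ i, v i) ^ (1 / (d : ℝ)) with hT
  have hT0 : 0 < T := Real.rpow_pos_of_pos hP _
  have h10 : (d : ℝ) * (d + 1) / ((d + 2) * (d + 3)) * (T⁻¹ * B ^ (2 / (d : ℝ))) * (q * volume.real Ω)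
      ≤ d * (q * volume.real Ω) := by
    calc _ ≤ q * (d * volume.real Ω) := h2
      _ = _ := by ring
  have h11 := le_of_mul_le_mul_right h10 (by positivity)
  have h12 : (d : ℝ) * (d + 1) / ((d + 2) * (d + 3)) * (T⁻¹ * B ^ (2 / (d : ℝ))) =
      (d : ℝ) * ((((d : ℝ) + 1) / ((d + 2) * (d + 3)) * B ^ (2 / (d : ℝ))) * T⁻¹) := by ring
  rw [h12] at h11
  have h13 : ((((d : ℝ) + 1) / ((d + 2) * (d + 3)) * B ^ (2 / (d : ℝ))) * T⁻¹) ≤ 1 := by
    by_contra hcon
    push Not at hcon
    nlinarith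
  rw [← div_eq_mul_inv, div_le_one hT0] at h13
  exact h13

/-- the isometry which applies `b.repr` to the last coordinates -/
theorem exists_iso {d : ℕ} (b : OrthonormalBasis (Fin d) ℝ (EuclideanSpace ℝ (Fin d))) :
    ∃ R : EuclideanSpace ℝ (Fin (d + 1)) ≃ₗᵢ[ℝ] EuclideanSpace ℝ (Fin (d + 1)),
      ∀ x, pr d (R x) = b.repr (pr d x) := by
  let f : EuclideanSpace ℝ (Fin (d + 1)) →ₗ[ℝ] EuclideanSpace ℝ (Fin (d + 1)) :=
    { toFun := fun x => toLp 2 (Fin.cons (x 0) (fun i => b.repr (pr d x) i))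
      map_add' := by
        intro x y
        have h1 : pr d (x + y) = pr d x + pr d y := by ext i; rfl
        ext i
        refine Fin.cases ?_ (fun j => ?_) i
        · simp
        · simp [h1]
      map_smul' := by
        intro c x
        have h1 : pr d (c • x) = c • pr d x := by ext i; rfl
        ext i
        refine Fin.cases ?_ (fun j => ?_) i
        · simp
        · simp [h1] }
  have hf0 : ∀ x, f x 0 = x 0 := fun x => rfl
  have hfs : ∀ x i, f x (Fin.succ i) = b.repr (pr d x) i := fun x i => rfl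
  have hn : ∀ x, ‖f x‖ = ‖x‖ := by
    intro x
    have h1 : ‖f x‖ ^ 2 = ‖x‖ ^ 2 := by
      rw [EuclideanSpace.real_norm_sq_eq, EuclideanSpace.real_norm_sq_eq, Fin.sum_univ_succ,
        Fin.sum_univ_succ, hf0]
      congr 1
      simp only [hfs]
      rw [← EuclideanSpace.real_norm_sq_eq, LinearIsometryEquiv.norm_map,
        EuclideanSpace.real_norm_sq_eq]
      rfl
    have := Real.sqrt_inj (sq_nonneg ‖f x‖) (sq_nonneg ‖x‖) |>.2 h1
    rwa [Real.sqrt_sq (norm_nonneg _), Real.sqrt_sq (norm_nonneg _)] at this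
  let li : EuclideanSpace ℝ (Fin (d + 1)) →ₗᵢ[ℝ] EuclideanSpace ℝ (Fin (d + 1)) := ⟨f, hn⟩
  refine ⟨li.toLinearIsometryEquiv rfl, fun x => ?_⟩
  ext i
  rw [LinearIsometry.coe_toLinearIsometryEquiv]
  exact hfs x i

/- (hmom is being proved in another job.)
PLAIN PROOF. D y = (⟨b i, y⟩ / sqrt (v i))_i is a linear bijection of EuclideanSpace ℝ (Fin d) with |det D| = q := ∏ (v i)^(-1/2), L x = the point with coordinate 0 equal to x 0 and pr (L x) = D (pr x),
a linear bijection of EuclideanSpace ℝ (Fin (d + 1)) with |det L| = q too. Ω' = L '' Ω is a convex domain, volume Ω' = q V, pr '' Ω' = D '' (pr '' Ω) has volume q A (A = volume of pr '' Ω),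
and for c_i = m_i / sqrt (v i): ∫_Ω' ‖pr x - c‖^2 = q ∫_Ω ∑_i (⟨b i, pr x⟩ - m i)^2 / v i = q V d. hmom for Ω', c gives
(d (d + 1) / ((d + 2)(d + 3))) (q A / om)^(2/d) q V ≤ q V d, and q^(2/d) = (∏ v i)^(-1/d). (MeasureTheory.Measure.addHaar_image_linearMap, integral_image_eq_integral_abs_det_fderiv_smul or
the change of variables for linear maps; D = diagonal scaling composed with the isometry b.repr; L can be described with the same scaling on coordinates Fin.cons.) -/
theorem momdet {d : ℕ} (hd : 1 ≤ d)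
    (hmom : ∀ (Ω : Set (EuclideanSpace ℝ (Fin (d + 1)))), IsConvexDomain Ω →
      ∀ c : EuclideanSpace ℝ (Fin d),
      ((d : ℝ) * (d + 1) / ((d + 2) * (d + 3))) *
        (volume.real (pr d '' Ω) / om d) ^ (2 / (d : ℝ)) * volume.real Ω ≤
        ∫ x in Ω, ‖pr d x - c‖ ^ 2)
    {Ω : Set (EuclideanSpace ℝ (Fin (d + 1)))} (h : IsConvexDomain Ω)
    (b : OrthonormalBasis (Fin d) ℝ (EuclideanSpace ℝ (Fin d))) (m v : Fin d → ℝ)
    (hv : ∀ i, 0 < v i)
    (h1 : ∀ i j, ∫ x in Ω, ((inner ℝ (b i) (pr d x) : ℝ) - m i) *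
        ((inner ℝ (b j) (pr d x) : ℝ) - m j) = if i = j then volume.real Ω * v i else 0) :
    (((d : ℝ) + 1) / ((d + 2) * (d + 3))) * (volume.real (pr d '' Ω) / om d) ^ (2 / (d : ℝ)) ≤
      (∏ i, v i) ^ (1 / (d : ℝ)) := by
  obtain ⟨R, hR⟩ := exists_iso b
  have hmp : MeasurePreserving R volume volume := R.measurePreserving
  have hdom : IsConvexDomain (R '' Ω) :=
    { isOpen := R.toHomeomorph.isOpenMap _ h.isOpen
      convex := h.convex.linear_image R.toLinearEquiv.toLinearMap
      isBounded := R.lipschitz.isBounded_image h.isBounded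
      nonempty := h.nonempty.image _ }
  have hemb : MeasurableEmbedding R := R.toHomeomorph.measurableEmbedding
  have hvol : volume.real (R '' Ω) = volume.real Ω := by
    rw [measureReal_def, measureReal_def]
    congr 1
    have h2 := hmp.measure_preimage_emb hemb (R '' Ω)
    rw [Set.preimage_image_eq _ R.injective] at h2
    exact h2.symm
  have himg : pr d '' (R '' Ω) = b.repr '' (pr d '' Ω) := by
    rw [Set.image_image, Set.image_image]
    exact Set.image_congr fun x _ => hR x
  have hvol2 : volume.real (pr d '' (R '' Ω)) = volume.real (pr d '' Ω) := by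
    rw [himg, measureReal_def, measureReal_def]
    congr 1
    have h2 := (b.repr.measurePreserving).measure_preimage_emb
      (b.repr.toHomeomorph.measurableEmbedding) (b.repr '' (pr d '' Ω))
    rw [Set.preimage_image_eq _ b.repr.injective] at h2
    exact h2.symm
  have key := momdiag hd hmom hdom m v hv (fun i => by
    have h2 := hmp.setIntegral_image_emb hemb (fun x => (pr d x i - m i) ^ 2) Ω
    rw [h2, hvol]
    have h3 := h1 i i
    rw [if_pos rfl] at h3
    rw [← h3]
    refine integral_congr_ae (Filter.Eventually.of_forall fun x => ?_)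
    simp only
    rw [hR, OrthonormalBasis.repr_apply_apply, pow_two])
  rw [hvol2] at key
  exact key

end Pool.Agent.Helper876.NK
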