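import Pool.Agent.Helper876_NK.QDefs
import Pool.Agent.Helper876_NK.Bath
import Pool.Agent.Helper876_NK.MomDet

set_option autoImplicit false

open MeasureTheory Set Metric Filter Topology WithLp
open scoped ENNReal NNReal Pointwise Real

namespace Pool.Agent.Helper876.NK

open Pool.Agent.R225.NM

/-- the diagonal case -/
private theorem de_diag {n : ℕ} (hn : 1 ≤ n) {Ω : Set (EuclideanSpace ℝ (Fin n))}
    (h : IsConvexDomain Ω) (m v : Fin n → ℝ) (hv : ∀ i, 0 < v i)
    (h1 : ∀ i, ∫ x in Ω, (x i - m i) ^ 2 = volume.real Ω * v i) :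
    (1 / ((n : ℝ) + 2)) * (volume.real Ω / om n) ^ (2 / (n : ℝ)) ≤ (∏ i, v i) ^ (1 / (n : ℝ)) := by
  have hd0 : (0 : ℝ) < n := by exact_mod_cast hn
  set w : Fin n → ℝ := fun i => (Real.sqrt (v i))⁻¹ with hw
  have hwp : ∀ i, 0 < w i := fun i => inv_pos.2 (Real.sqrt_pos.2 (hv i))
  set q : ℝ := ∏ i, w i with hq
  have hq0 : 0 < q := Finset.prod_pos fun i _ => hwp i
  have hdom := dg_domain (w := w) (fun i => (hwp i).ne') h
  set c : EuclideanSpace ℝ (Fin n) := toLp 2 fun i => w i * m i with hc
  have h2 := bathtub hn hdom.isOpen.measurableSet hdom.isBounded c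
  rw [dg_vol w hq0.le, dg_int (fun i => (hwp i).ne') hq0.le h.isOpen.measurableSet, ← hq] at h2
  have hV : 0 < volume.real Ω := by
    rw [measureReal_def]
    exact ENNReal.toReal_pos (h.isOpen.measure_pos volume h.nonempty).ne'
      h.isBounded.measure_lt_top.ne
  have h4 : ∫ x in Ω, ‖dg w x - c‖ ^ 2 = n * volume.real Ω := by
    have h5 : ∀ x, ‖dg w x - c‖ ^ 2 = ∑ i, (v i)⁻¹ * (x i - m i) ^ 2 := by
      intro x
      rw [EuclideanSpace.real_norm_sq_eq]
      refine Finset.sum_congr rfl fun i _ => ?_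
      change (w i * x i - w i * m i) ^ 2 = _
      rw [← mul_sub, mul_pow]
      congr 1
      rw [hw]
      simp only
      rw [inv_pow, Real.sq_sqrt (hv i).le]
    simp only [h5]
    rw [integral_finsetSum]
    · simp only [integral_const_mul, h1]
      rw [show (∑ i : Fin n, (v i)⁻¹ * (volume.real Ω * v i)) = ∑ _i : Fin n, volume.real Ω from
        Finset.sum_congr rfl fun i _ => by
          have := (hv i).ne'
          field_simp]
      rw [Finset.sum_const, Finset.card_univ, Fintype.card_fin, nsmul_eq_mul]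
    · intro i _
      have hcont : Continuous fun x : EuclideanSpace ℝ (Fin n) =>
          (v i)⁻¹ * (x i - m i) ^ 2 := by
        have h6 : Continuous fun x : EuclideanSpace ℝ (Fin n) => x i := by
          fun_prop
        fun_prop
      exact (hcont.continuousOn.integrableOn_compact h.isBounded.isCompact_closure).mono_set
        subset_closure
  rw [h4] at h2
  have hA : 0 ≤ volume.real Ω / om n := by
    unfold om
    positivity
  set B : ℝ := volume.real Ω / om n with hB
  have h7 : q * volume.real Ω / om n = q * B := by rw [hB]; ring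
  rw [h7, Real.mul_rpow hq0.le hA] at h2
  have hP : 0 < ∏ i, v i := Finset.prod_pos fun i _ => hv i
  have h8 : q ^ (2 / (n : ℝ)) = ((∏ i, v i) ^ (1 / (n : ℝ)))⁻¹ := by
    have h9 : q = (∏ i, v i) ^ (-(1 / 2) : ℝ) := by
      rw [hq, ← Real.finsetProd_rpow _ _ (fun i _ => (hv i).le)]
      refine Finset.prod_congr rfl fun i _ => ?_
      rw [hw]
      simp only
      rw [Real.rpow_neg (hv i).le, Real.sqrt_eq_rpow]
    rw [h9, ← Real.rpow_mul hP.le, ← Real.rpow_neg hP.le]
    congr 1
    field_simp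
  rw [h8] at h2
  set T : ℝ := (∏ i, v i) ^ (1 / (n : ℝ)) with hT
  have hT0 : 0 < T := Real.rpow_pos_of_pos hP _
  have h10 : (n : ℝ) / (n + 2) * (T⁻¹ * B ^ (2 / (n : ℝ))) * (q * volume.real Ω)
      ≤ n * (q * volume.real Ω) := by
    calc _ ≤ q * (n * volume.real Ω) := h2
      _ = _ := by ring
  have h11 := le_of_mul_le_mul_right h10 (by positivity)
  have h12 : (n : ℝ) / (n + 2) * (T⁻¹ * B ^ (2 / (n : ℝ))) =
      (n : ℝ) * ((1 / ((n : ℝ) + 2) * B ^ (2 / (n : ℝ))) * T⁻¹) := by ring
  rw [h12] at h11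
  have h13 : ((1 / ((n : ℝ) + 2) * B ^ (2 / (n : ℝ))) * T⁻¹) ≤ 1 := by
    by_contra hcon
    push Not at hcon
    nlinarith
  rw [← div_eq_mul_inv, div_le_one hT0] at h13
  exact h13

theorem detN {n : ℕ} (hn : 1 ≤ n) {Ω : Set (EuclideanSpace ℝ (Fin n))} (h : IsConvexDomain Ω)
    (b : OrthonormalBasis (Fin n) ℝ (EuclideanSpace ℝ (Fin n))) (m v : Fin n → ℝ)
    (hv : ∀ i, 0 < v i)
    (h1 : ∀ i j, ∫ x in Ω, ((inner ℝ (b i) x : ℝ) - m i) *
        ((inner ℝ (b j) x : ℝ) - m j) = if i = j then volume.real Ω * v i else 0) :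
    (1 / ((n : ℝ) + 2)) * (volume.real Ω / om n) ^ (2 / (n : ℝ)) ≤ (∏ i, v i) ^ (1 / (n : ℝ)) := by
  set R := b.repr with hR
  have hmp : MeasurePreserving R volume volume := R.measurePreserving
  have hdom : IsConvexDomain (R '' Ω) :=
    { isOpen := R.toHomeomorph.isOpenMap _ h.isOpen
      convex := h.convex.linear_image R.toLinearEquiv.toLinearMap
      isBounded := R.lipschitz.isBounded_image h.isBounded
      nonempty := h.nonempty.image _ }
  have hemb : MeasurableEmbedding R := R.toHomeomorph.measurableEmbedding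
  have hvol : volume.real (R '' Ω) = volume.real Ω := by
    rw [measureReal_def, measureReal_def]
    congr 1
    have h2 := hmp.measure_preimage_emb hemb (R '' Ω)
    rw [Set.preimage_image_eq _ R.injective] at h2
    exact h2.symm
  have key := de_diag hn hdom m v hv (fun i => by
    have h2 := hmp.setIntegral_image_emb hemb (fun x => (x i - m i) ^ 2) Ω
    rw [h2, hvol]
    have h3 := h1 i i
    rw [if_pos rfl] at h3
    rw [← h3]
    refine integral_congr_ae (Filter.Eventually.of_forall fun x => ?_)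
    simp only
    rw [hR, OrthonormalBasis.repr_apply_apply, pow_two])
  rw [hvol] at key
  exact key

end Pool.Agent.Helper876.NK
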