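/- JOB DiagN of helper876 (done by helper59): orthonormal basis diagonalising the covariance. -/
import Pool.Agent.Helper876_NK.QDefs

set_option autoImplicit false

open MeasureTheory Set Metric Filter Topology WithLp
open scoped ENNReal NNReal Pointwise Real

namespace Pool.Agent.Helper876.NK

open Pool.Agent.R225.NM

theorem dn_int {n : ℕ} {Ω : Set (EuclideanSpace ℝ (Fin n))} (h : IsConvexDomain Ω)
    {F : Type*} [NormedAddCommGroup F] {f : EuclideanSpace ℝ (Fin n) → F}
    (hf : Continuous f) : IntegrableOn f Ω :=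
  (hf.continuousOn.integrableOn_compact h.isBounded.isCompact_closure).mono_set subset_closure

theorem dn_ne {n : ℕ} {Ω : Set (EuclideanSpace ℝ (Fin n))} (h : IsConvexDomain Ω)
    (y : EuclideanSpace ℝ (Fin n)) (m : ℝ) (hy : ‖y‖ = 1) :
    ∃ x ∈ Ω, (inner ℝ y x : ℝ) - m ≠ 0 := by
  obtain ⟨x0, hx0⟩ := h.nonempty
  by_contra hcon
  push Not at hcon
  have hcont : Continuous fun t : ℝ => x0 + t • y := by fun_prop
  have hmem : ∀ᶠ t : ℝ in 𝓝 0, x0 + t • y ∈ Ω := by
    apply hcont.continuousAt.eventually_mem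
    apply h.isOpen.mem_nhds
    simpa using hx0
  have h2 : ∀ᶠ t : ℝ in 𝓝[≠] 0, x0 + t • y ∈ Ω := hmem.filter_mono nhdsWithin_le_nhds
  obtain ⟨t, ht, ht0⟩ := (h2.and self_mem_nhdsWithin).exists
  have e1 := hcon x0 hx0
  have e2 := hcon _ ht
  rw [inner_add_right, real_inner_smul_right, real_inner_self_eq_norm_sq, hy] at e2
  apply ht0
  show t = 0
  linarith

theorem diagN {n : ℕ} {Ω : Set (EuclideanSpace ℝ (Fin n))} (h : IsConvexDomain Ω) :
    ∃ (b : OrthonormalBasis (Fin n) ℝ (EuclideanSpace ℝ (Fin n))) (m v : Fin n → ℝ),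
      (∀ i, 0 < v i) ∧ (∀ i, ∫ x in Ω, ((inner ℝ (b i) x : ℝ) - m i) = 0) ∧
      ∀ i j, ∫ x in Ω, ((inner ℝ (b i) x : ℝ) - m i) *
        ((inner ℝ (b j) x : ℝ) - m j) = if i = j then volume.real Ω * v i else 0 := by
  have hV : 0 < volume.real Ω := ENNReal.toReal_pos (h.isOpen.measure_pos volume h.nonempty).ne'
    h.isBounded.measure_lt_top.ne
  set V : ℝ := volume.real Ω with hVd
  set c : EuclideanSpace ℝ (Fin n) := (1 / V) • ∫ x in Ω, x with hc
  set q : EuclideanSpace ℝ (Fin n) → EuclideanSpace ℝ (Fin n) := fun x => x - c with hq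
  have hqc : Continuous q := continuous_id.sub continuous_const
  have hqi : IntegrableOn q Ω := dn_int h hqc
  have hqi2 : ∀ y : EuclideanSpace ℝ (Fin n), IntegrableOn (fun x => (inner ℝ y (q x) : ℝ) • q x) Ω :=
    fun y => dn_int h ((Continuous.inner (𝕜 := ℝ) (continuous_const (y := y)) hqc).smul hqc)
  have hq0 : ∫ x in Ω, q x = 0 := by
    have hI : IntegrableOn (fun x : EuclideanSpace ℝ (Fin n) => x) Ω := dn_int h continuous_id
    have hcst : IntegrableOn (fun _ : EuclideanSpace ℝ (Fin n) => c) Ω :=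
      dn_int h continuous_const
    have h1 : ∫ x in Ω, q x = (∫ x in Ω, x) - ∫ _x in Ω, c := integral_sub hI hcst
    rw [h1, setIntegral_const, hc, smul_smul, ← hVd, mul_one_div_cancel hV.ne', one_smul, sub_self]
  let T : EuclideanSpace ℝ (Fin n) →ₗ[ℝ] EuclideanSpace ℝ (Fin n) :=
    { toFun := fun y => ∫ x in Ω, (inner ℝ y (q x) : ℝ) • q x
      map_add' := fun y z => by
        rw [← integral_add (hqi2 y) (hqi2 z)]
        refine integral_congr_ae (Filter.Eventually.of_forall fun x => ?_)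
        show (inner ℝ (y + z) (q x) : ℝ) • q x = _
        rw [inner_add_left, add_smul]
      map_smul' := fun a y => by
        rw [RingHom.id_apply, ← integral_smul]
        refine integral_congr_ae (Filter.Eventually.of_forall fun x => ?_)
        show (inner ℝ (a • y) (q x) : ℝ) • q x = _
        rw [real_inner_smul_left, mul_smul] }
  have hTi : ∀ y z : EuclideanSpace ℝ (Fin n),
      (inner ℝ z (T y) : ℝ) = ∫ x in Ω, (inner ℝ y (q x) : ℝ) * inner ℝ z (q x) := by
    intro y z
    have h1 := integral_inner (𝕜 := ℝ) (hqi2 y) z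
    show (inner ℝ z (∫ x in Ω, (inner ℝ y (q x) : ℝ) • q x) : ℝ) = _
    rw [← h1]
    refine integral_congr_ae (Filter.Eventually.of_forall fun x => ?_)
    show (inner ℝ z ((inner ℝ y (q x) : ℝ) • q x) : ℝ) = _
    rw [real_inner_smul_right]
  have hT : T.IsSymmetric := by
    intro y z
    rw [real_inner_comm, hTi, hTi]
    refine integral_congr_ae (Filter.Eventually.of_forall fun x => ?_)
    show (inner ℝ y (q x) : ℝ) * inner ℝ z (q x) = (inner ℝ z (q x) : ℝ) * inner ℝ y (q x)
    rw [mul_comm]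
  have hn : Module.finrank ℝ (EuclideanSpace ℝ (Fin n)) = n := by simp
  set b := hT.eigenvectorBasis hn with hb
  have hqe : ∀ (i : Fin n) (x : EuclideanSpace ℝ (Fin n)),
      (inner ℝ (b i) x : ℝ) - inner ℝ (b i) c = inner ℝ (b i) (q x) := by
    intro i x
    rw [hq]
    exact (inner_sub_right _ _ _).symm
  have horth : ∀ i j : Fin n, ∫ x in Ω, (inner ℝ (b i) (q x) : ℝ) * inner ℝ (b j) (q x) =
      if i = j then hT.eigenvalues hn i else 0 := by
    intro i j
    rw [← hTi, hb, hT.apply_eigenvectorBasis hn i, real_inner_smul_right, ← hb]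
    have h1 := orthonormal_iff_ite.1 b.orthonormal j i
    rw [h1]
    by_cases hij : i = j
    · rw [if_pos hij, if_pos hij.symm]
      simp
    · rw [if_neg hij, if_neg (Ne.symm hij)]
      simp
  have hpos : ∀ i : Fin n, 0 < hT.eigenvalues hn i := by
    intro i
    have h1 := horth i i
    rw [if_pos rfl] at h1
    rw [← h1]
    obtain ⟨x, hx, hfx⟩ := dn_ne h (b i) (inner ℝ (b i) c) (b.orthonormal.1 i)
    have h2 := cont_sq_pos h.isOpen h.isBounded
      (f := fun x => (inner ℝ (b i) x : ℝ) - inner ℝ (b i) c)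
      ((continuous_const.inner continuous_id).sub continuous_const) hx hfx
    refine h2.trans_le (le_of_eq ?_)
    refine integral_congr_ae (Filter.Eventually.of_forall fun x => ?_)
    show ((inner ℝ (b i) x : ℝ) - inner ℝ (b i) c) ^ 2 = _
    rw [hqe, sq]
  refine ⟨b, fun i => inner ℝ (b i) c, fun i => hT.eigenvalues hn i / V,
    fun i => div_pos (hpos i) hV, fun i => ?_, fun i j => ?_⟩
  · have h1 := integral_inner (𝕜 := ℝ) hqi (b i)
    rw [hq0, inner_zero_right] at h1
    rw [← h1]
    exact integral_congr_ae (Filter.Eventually.of_forall fun x => hqe i x)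
  · have h1 := horth i j
    have h2 : ∫ x in Ω, ((inner ℝ (b i) x : ℝ) - inner ℝ (b i) c) *
        ((inner ℝ (b j) x : ℝ) - inner ℝ (b j) c) =
        ∫ x in Ω, (inner ℝ (b i) (q x) : ℝ) * inner ℝ (b j) (q x) := by
      refine integral_congr_ae (Filter.Eventually.of_forall fun x => ?_)
      show ((inner ℝ (b i) x : ℝ) - inner ℝ (b i) c) *
        ((inner ℝ (b j) x : ℝ) - inner ℝ (b j) c) = _
      rw [hqe, hqe]
    rw [h2, h1]
    split_ifs
    · rw [mul_div_cancel₀ _ hV.ne']
    · rfl

end Pool.Agent.Helper876.NK
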