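import Pool.Agent.Helper876_NK.QDefs
import Pool.Agent.Helper876_NK.Two

set_option autoImplicit false

open MeasureTheory Set Metric Filter Topology WithLp
open scoped ENNReal NNReal Pointwise Real

namespace Pool.Agent.Helper876.NK

open Pool.Agent.R225.NM

private def ln_up {d : ℕ} (y : EuclideanSpace ℝ (Fin d)) : EuclideanSpace ℝ (Fin d) := y

private theorem ln_inner {d : ℕ} (y x : EuclideanSpace ℝ (Fin d)) :
    (inner ℝ (ln_up y) x : ℝ) = inner ℝ y x := rfl

private theorem ln_up_sum {d k : ℕ} (c : Fin k → ℝ) (y : Fin k → EuclideanSpace ℝ (Fin d)) :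
    ln_up (∑ j, c j • y j) = ∑ j, c j • ln_up (y j) := rfl

private theorem ln_norm {d : ℕ} (y : EuclideanSpace ℝ (Fin d)) : ‖ln_up y‖ = ‖y‖ := rfl

private theorem ln_gram {n K : ℕ} {Ω : Set (EuclideanSpace ℝ (Fin n))}
    (hb : Bornology.IsBounded Ω) {G : Fin K → EuclideanSpace ℝ (Fin n) → ℝ}
    (hG : ∀ i, Continuous (G i)) (c : Fin K → ℝ) :
    ∫ x in Ω, (∑ i, c i * G i x) ^ 2 = ∑ i, ∑ j, c i * c j * ∫ x in Ω, G i x * G j x := by
  have e : ∀ x, (∑ i, c i * G i x) ^ 2 = ∑ i, ∑ j, c i * c j * (G i x * G j x) := by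
    intro x
    rw [sq, Finset.sum_mul_sum]
    refine Finset.sum_congr rfl fun i _ => Finset.sum_congr rfl fun j _ => ?_
    ring
  simp only [e]
  have hint : ∀ i j, Integrable (fun x => c i * c j * (G i x * G j x)) (volume.restrict Ω) :=
    fun i j => Integrable.const_mul (int_bdd hb (f := fun x => G i x * G j x) ((hG i).mul (hG j))) _
  rw [integral_finsetSum _ fun i _ => integrable_finsetSum _ fun j _ => hint i j]
  refine Finset.sum_congr rfl fun i _ => ?_
  rw [integral_finsetSum _ fun j _ => hint i j]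
  refine Finset.sum_congr rfl fun j _ => ?_
  rw [integral_const_mul]

theorem linKN {d k : ℕ} {Ω : Set (EuclideanSpace ℝ (Fin d))} (h : IsConvexDomain Ω)
    (b : OrthonormalBasis (Fin d) ℝ (EuclideanSpace ℝ (Fin d))) (m v : Fin d → ℝ)
    (h0 : ∀ i, ∫ x in Ω, ((inner ℝ (b i) x : ℝ) - m i) = 0)
    (h1 : ∀ i j, ∫ x in Ω, ((inner ℝ (b i) x : ℝ) - m i) *
        ((inner ℝ (b j) x : ℝ) - m j) = if i = j then volume.real Ω * v i else 0)
    (f : Fin k → Fin d) (hf : Function.Injective f) {w : ℝ} (hw : 0 < w) (hfw : ∀ j, w ≤ v (f j)) :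
    RayleighBound Ω k (1 / w) := by
  have hfin : volume Ω ≠ ⊤ := h.isBounded.measure_lt_top.ne
  have hpos : 0 < volume.real Ω :=
    ENNReal.toReal_pos (h.isOpen.measure_pos volume h.nonempty).ne' hfin
  set V : ℝ := volume.real Ω with hV
  -- the functions
  let L : Fin k → EuclideanSpace ℝ (Fin d) → ℝ :=
    fun j x => (inner ℝ (b (f j)) x : ℝ) - m (f j)
  let g : Fin (k + 1) → EuclideanSpace ℝ (Fin d) → ℝ := Fin.cons (fun _ => 1) L
  have hL : ∀ j, L j = fun x => (inner ℝ (ln_up (b (f j))) x : ℝ) - m (f j) := by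
    intro j
    funext x
    simp only [L, ln_inner]
  have hLd : ∀ j, ContDiff ℝ 1 (L j) := by
    intro j
    rw [hL j]
    exact (contDiff_const.inner ℝ contDiff_id).sub contDiff_const
  have hgd : ∀ i, ContDiff ℝ 1 (g i) := by
    intro i
    refine Fin.cases ?_ (fun j => ?_) i
    · exact contDiff_const
    · exact hLd j
  have hgc : ∀ i, Continuous (g i) := fun i => (hgd i).continuous
  -- the Gram matrix
  have hsq : ∀ c : Fin (k + 1) → ℝ, ∫ x in Ω, (∑ i, c i * g i x) ^ 2 =
      V * c 0 ^ 2 + V * ∑ j : Fin k, c j.succ ^ 2 * v (f j) := by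
    intro c
    rw [ln_gram h.isBounded hgc c, Fin.sum_univ_succ]
    have e00 : ∫ x in Ω, g 0 x * g 0 x = V := by
      simp only [g, Fin.cons_zero, mul_one]
      rw [setIntegral_const]
      simp [hV]
    have e0s : ∀ j : Fin k, ∫ x in Ω, g 0 x * g j.succ x = 0 := by
      intro j
      simp only [g, Fin.cons_zero, Fin.cons_succ, one_mul]
      exact h0 (f j)
    have es0 : ∀ j : Fin k, ∫ x in Ω, g j.succ x * g 0 x = 0 := by
      intro j
      simp only [g, Fin.cons_zero, Fin.cons_succ, mul_one]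
      exact h0 (f j)
    have ess : ∀ i j : Fin k, ∫ x in Ω, g i.succ x * g j.succ x =
        if i = j then V * v (f i) else 0 := by
      intro i j
      simp only [g, Fin.cons_succ]
      rw [h1 (f i) (f j)]
      by_cases hij : i = j
      · rw [if_pos hij, if_pos (by rw [hij])]
      · rw [if_neg hij, if_neg (fun hh => hij (hf hh))]
    congr 1
    · rw [Fin.sum_univ_succ, e00]
      simp only [e0s, mul_zero, Finset.sum_const_zero, add_zero]
      ring
    · rw [Finset.mul_sum]
      refine Finset.sum_congr rfl fun i _ => ?_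
      rw [Fin.sum_univ_succ, es0, mul_zero, zero_add]
      simp only [ess, mul_ite, mul_zero]
      rw [Finset.sum_ite_eq Finset.univ i, if_pos (Finset.mem_univ _)]
      ring
  have happ : ∀ (c : Fin (k + 1) → ℝ) x, (∑ i, c i • g i) x = ∑ i, c i * g i x := by
    intro c x
    simp [Finset.sum_apply]
  refine ⟨g, hgd, ?_, fun c => ?_⟩
  · rw [Fintype.linearIndependent_iff]
    intro c hc
    have hz : ∀ x ∈ Ω, ∑ i, c i * g i x = 0 := by
      intro x hx
      have := congrFun hc ⟨x, hx⟩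
      simpa [Finset.sum_apply] using this
    have h2 : ∫ x in Ω, (∑ i, c i * g i x) ^ 2 = 0 := by
      rw [setIntegral_congr_fun h.isOpen.measurableSet (g := fun _ => 0)]
      · simp
      · intro x hx
        simp [hz x hx]
    rw [hsq c] at h2
    have h3 : 0 ≤ ∑ j : Fin k, c j.succ ^ 2 * v (f j) :=
      Finset.sum_nonneg fun j _ => mul_nonneg (sq_nonneg _) (hw.le.trans (hfw j))
    have h4 : c 0 = 0 := by
      have h5 : 0 ≤ V * ∑ j : Fin k, c j.succ ^ 2 * v (f j) := mul_nonneg hpos.le h3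
      have h6 : 0 ≤ V * c 0 ^ 2 := by positivity
      have h7 : V * c 0 ^ 2 = 0 := by linarith
      rcases mul_eq_zero.1 h7 with h8 | h8
      · exact absurd h8 hpos.ne'
      · exact pow_eq_zero_iff two_ne_zero |>.1 h8
    have h5 : ∑ j : Fin k, c j.succ ^ 2 * v (f j) = 0 := by
      rw [h4] at h2
      have h6 : V * ∑ j : Fin k, c j.succ ^ 2 * v (f j) = 0 := by linarith
      rcases mul_eq_zero.1 h6 with h8 | h8
      · exact absurd h8 hpos.ne'
      · exact h8
    have h6 := (Finset.sum_eq_zero_iff_of_nonneg (fun j _ =>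
      mul_nonneg (sq_nonneg _) (hw.le.trans (hfw j)))).1 h5
    intro i
    refine Fin.cases h4 (fun j => ?_) i
    have h7 := h6 j (Finset.mem_univ _)
    rcases mul_eq_zero.1 h7 with h8 | h8
    · exact pow_eq_zero_iff two_ne_zero |>.1 h8
    · exact absurd h8 (hw.trans_le (hfw j)).ne'
  · -- the gradient
    set A : EuclideanSpace ℝ (Fin d) := ∑ j : Fin k, c j.succ • ln_up (b (f j)) with hA
    have hu : (∑ i, c i • g i) = fun x => (innerSL ℝ A) x +
        (c 0 - ∑ j : Fin k, c j.succ * m (f j)) := by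
      funext x
      rw [happ c x, Fin.sum_univ_succ, innerSL_apply_apply, hA, sum_inner]
      simp only [g, Fin.cons_zero, Fin.cons_succ, hL, real_inner_smul_left, mul_sub,
        Finset.sum_sub_distrib]
      ring
    have hfd : ∀ x, fderiv ℝ (∑ i, c i • g i) x = innerSL ℝ A := by
      intro x
      rw [hu]
      exact ((innerSL ℝ A).hasFDerivAt.add_const _).fderiv
    have hAn : ‖A‖ ^ 2 = ∑ j : Fin k, c j.succ ^ 2 := by
      have hon := (b.orthonormal.comp f hf).inner_sum (fun j : Fin k => c j.succ)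
        (fun j => c j.succ) Finset.univ
      simp only [Function.comp_apply] at hon
      rw [hA, ← ln_up_sum (fun j : Fin k => c j.succ) (fun j => b (f j)), ln_norm,
        ← real_inner_self_eq_norm_sq, hon]
      refine Finset.sum_congr rfl fun j _ => ?_
      simp [sq]
    have e1 : ∫ x in Ω, ‖fderiv ℝ (∑ i, c i • g i) x‖ ^ 2 = V * ∑ j : Fin k, c j.succ ^ 2 := by
      simp only [hfd, innerSL_apply_norm, hAn]
      rw [setIntegral_const, smul_eq_mul]
    have e2 : ∫ x in Ω, (∑ i, c i • g i) x ^ 2 =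
        V * c 0 ^ 2 + V * ∑ j : Fin k, c j.succ ^ 2 * v (f j) := by
      rw [← hsq c]
      simp only [happ c]
    rw [e1, e2, div_mul_eq_mul_div, one_mul, le_div_iff₀ hw]
    have e3 : (∑ j : Fin k, c j.succ ^ 2) * w ≤ ∑ j : Fin k, c j.succ ^ 2 * v (f j) := by
      rw [Finset.sum_mul]
      exact Finset.sum_le_sum fun j _ => mul_le_mul_of_nonneg_left (hfw j) (sq_nonneg _)
    have e4 : V * ((∑ j : Fin k, c j.succ ^ 2) * w) ≤ V * ∑ j : Fin k, c j.succ ^ 2 * v (f j) :=
      mul_le_mul_of_nonneg_left e3 hpos.le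
    have e5 : 0 ≤ V * c 0 ^ 2 := by positivity
    linarith

theorem dirN {d : ℕ} {Ω : Set (EuclideanSpace ℝ (Fin d))} (h : IsConvexDomain Ω)
    (b : OrthonormalBasis (Fin d) ℝ (EuclideanSpace ℝ (Fin d))) (m v : Fin d → ℝ)
    (h0 : ∀ i, ∫ x in Ω, ((inner ℝ (b i) x : ℝ) - m i) = 0)
    (h1 : ∀ i j, ∫ x in Ω, ((inner ℝ (b i) x : ℝ) - m i) *
        ((inner ℝ (b j) x : ℝ) - m j) = if i = j then volume.real Ω * v i else 0)
    (i : Fin d) : ∃ a : EuclideanSpace ℝ (Fin d), ‖a‖ = 1 ∧
      ∀ m' : ℝ, volume.real Ω * v i ≤ ∫ x in Ω, ((inner ℝ x a : ℝ) - m') ^ 2 := by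
  refine ⟨ln_up (b i), by rw [ln_norm]; exact b.orthonormal.1 i, fun m' => ?_⟩
  have hc : Continuous fun x : EuclideanSpace ℝ (Fin d) =>
      (inner ℝ (b i) x : ℝ) - m i := by
    have : (fun x : EuclideanSpace ℝ (Fin d) => (inner ℝ (b i) x : ℝ) - m i) =
        fun x => (inner ℝ (ln_up (b i)) x : ℝ) - m i := by
      funext x
      rw [ln_inner]
    rw [this]
    exact (continuous_const.inner continuous_id).sub continuous_const
  have e : ∀ x : EuclideanSpace ℝ (Fin d), ((inner ℝ x (ln_up (b i)) : ℝ) - m') ^ 2 =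
      ((inner ℝ (b i) x : ℝ) - m i) * ((inner ℝ (b i) x : ℝ) - m i) +
      (2 * (m i - m') * ((inner ℝ (b i) x : ℝ) - m i) + (m i - m') ^ 2) := by
    intro x
    rw [real_inner_comm, ln_inner]
    ring
  simp only [e]
  have i1 : Integrable (fun x => ((inner ℝ (b i) x : ℝ) - m i) *
      ((inner ℝ (b i) x : ℝ) - m i)) (volume.restrict Ω) :=
    int_bdd h.isBounded (f := fun x => ((inner ℝ (b i) x : ℝ) - m i) *
      ((inner ℝ (b i) x : ℝ) - m i)) (hc.mul hc)
  have i2 : Integrable (fun x => 2 * (m i - m') * ((inner ℝ (b i) x : ℝ) - m i))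
      (volume.restrict Ω) := (int_bdd h.isBounded hc).const_mul _
  have i3 : Integrable (fun _ : EuclideanSpace ℝ (Fin d) => (m i - m') ^ 2)
      (volume.restrict Ω) := int_bdd h.isBounded continuous_const
  have i23 : Integrable (fun x => 2 * (m i - m') * ((inner ℝ (b i) x : ℝ) - m i) +
      (m i - m') ^ 2) (volume.restrict Ω) := i2.add i3
  rw [integral_add i1 i23, integral_add i2 i3, integral_const_mul, h0 i, h1 i i,
    if_pos rfl, setIntegral_const, smul_eq_mul]
  have : 0 ≤ volume.real Ω * (m i - m') ^ 2 := by positivity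
  linarith

end Pool.Agent.Helper876.NK
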