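import Pool.Agent.Helper876_NK.QDefs

set_option autoImplicit false

open MeasureTheory Set Metric Filter Topology WithLp
open scoped ENNReal NNReal Pointwise Real

namespace Pool.Agent.Helper876.NK

private theorem np_om {d : ℕ} (hd : 1 ≤ d) :
    om d = Real.sqrt π ^ d / Real.Gamma (d / 2 + 1) := by
  have : Nonempty (Fin d) := ⟨⟨0, hd⟩⟩
  unfold om
  rw [Measure.real, EuclideanSpace.volume_ball, Fintype.card_fin, ENNReal.ofReal_one, one_pow,
    one_mul, ENNReal.toReal_ofReal]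
  have : 0 < Real.Gamma ((d : ℝ) / 2 + 1) := Real.Gamma_pos_of_pos (by positivity)
  positivity

private theorem np_rec {n : ℕ} (hn : 1 ≤ n) :
    ((n : ℝ) + 2) * om (n + 2) = 2 * π * om n := by
  rw [np_om hn, np_om (by omega : 1 ≤ n + 2)]
  have h2 : (((n + 2 : ℕ) : ℝ) / 2 + 1) = ((n : ℝ) / 2 + 1) + 1 := by push_cast; ring
  rw [h2, Real.Gamma_add_one (s := (n : ℝ) / 2 + 1) (by positivity)]
  have h3 : 0 < Real.Gamma ((n : ℝ) / 2 + 1) := Real.Gamma_pos_of_pos (by positivity)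
  have h4 : Real.sqrt π ^ (n + 2) = Real.sqrt π ^ n * π := by
    rw [pow_add, Real.sq_sqrt Real.pi_pos.le]
  rw [h4]
  field_simp

private theorem np_pos (n : ℕ) : 0 ≤ om n := by
  unfold om
  exact measureReal_nonneg

private theorem np_exp {n : ℕ} (hn : 1 ≤ n) :
    ((n : ℝ) + 2) ^ n ≤ Real.exp 1 ^ 2 * (n : ℝ) ^ n := by
  have hn' : (0 : ℝ) < n := by exact_mod_cast hn
  have h1 : ((n : ℝ) + 2) / n ≤ Real.exp (2 / n) := by
    have := Real.add_one_le_exp (2 / (n : ℝ))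
    have e : ((n : ℝ) + 2) / n = 2 / n + 1 := by field_simp; ring
    rw [e]; exact this
  have h2 : (((n : ℝ) + 2) / n) ^ n ≤ Real.exp 1 ^ 2 := by
    calc (((n : ℝ) + 2) / n) ^ n ≤ Real.exp (2 / n) ^ n := pow_le_pow_left₀ (by positivity) h1 n
      _ = Real.exp 2 := by
          rw [← Real.exp_nat_mul]
          congr 1
          field_simp
      _ = Real.exp 1 ^ 2 := by
          rw [← Real.exp_nat_mul]
          congr 1
          norm_num
  rw [div_pow, div_le_iff₀ (by positivity)] at h2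
  exact h2

private theorem np_bound : ∀ n : ℕ, 1 ≤ n → (n : ℝ) ^ n * om n ^ 2 ≤ (2 * π * Real.exp 1) ^ n := by
  intro n
  induction n using Nat.strong_induction_on with
  | _ n ih =>
    intro hn
    have hpi := Real.pi_gt_three
    have hpi4 := Real.pi_lt_four
    have he : (2 : ℝ) < Real.exp 1 := by
      have := Real.exp_one_gt_d9
      linarith
    rcases Nat.lt_or_ge n 3 with h3 | h3
    · interval_cases n
      · have h1 : om 1 = 2 := by
          rw [np_om (le_refl 1)]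
          have e : (((1 : ℕ) : ℝ) / 2 + 1) = 1 / 2 + 1 := by norm_num
          rw [e, Real.Gamma_add_one (by norm_num), Real.Gamma_one_half_eq, pow_one]
          have : Real.sqrt π ≠ 0 := (Real.sqrt_pos.2 Real.pi_pos).ne'
          field_simp
        rw [h1]
        norm_num
        nlinarith
      · have h1 : om 2 = π := by
          rw [np_om (by norm_num : 1 ≤ 2)]
          have e : (((2 : ℕ) : ℝ) / 2 + 1) = 1 + 1 := by norm_num
          rw [e, Real.Gamma_add_one (by norm_num), Real.Gamma_one, Real.sq_sqrt Real.pi_pos.le]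
          norm_num
        rw [h1]
        push_cast
        rw [← mul_pow]
        apply pow_le_pow_left₀ (by positivity)
        nlinarith
    · obtain ⟨m, rfl⟩ : ∃ m, n = m + 2 := ⟨n - 2, by omega⟩
      have hm : 1 ≤ m := by omega
      have h1 := ih m (by omega) hm
      have h2 := np_rec hm
      have h4 := np_exp hm
      have hm0 : (0 : ℝ) < (m : ℝ) := by exact_mod_cast hm
      have ho := np_pos m
      push_cast
      calc ((m : ℝ) + 2) ^ (m + 2) * om (m + 2) ^ 2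
          = ((m : ℝ) + 2) ^ m * (((m : ℝ) + 2) * om (m + 2)) ^ 2 := by ring
        _ = ((m : ℝ) + 2) ^ m * (2 * π * om m) ^ 2 := by rw [h2]
        _ ≤ (Real.exp 1 ^ 2 * (m : ℝ) ^ m) * (2 * π * om m) ^ 2 := by gcongr
        _ = (2 * π * Real.exp 1) ^ 2 * ((m : ℝ) ^ m * om m ^ 2) := by ring
        _ ≤ (2 * π * Real.exp 1) ^ 2 * (2 * π * Real.exp 1) ^ m := by gcongr
        _ = (2 * π * Real.exp 1) ^ (m + 2) := by ring

theorem num_polya (c : ℝ) (hc : 1 ≤ c) : ∃ N : ℕ, 1 ≤ N ∧ ∀ n k : ℕ, N ≤ n → 1 ≤ k → 4 * k ≤ n →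
    (200 * (c * ((k : ℝ) + 1) ^ 3)) ^ (k - 1) * ((n : ℝ) + 2) ^ n * om n ^ 4 ≤ (4 * π ^ 2) ^ n := by
  set E := Real.exp 1 with hE
  have hE0 : 0 < E := Real.exp_pos 1
  refine ⟨⌈200 * c * 81 * E ^ 8⌉₊ + 1, by omega, ?_⟩
  intro n k hN hk hkn
  have hn1 : 1 ≤ n := by omega
  have hn0 : (1 : ℝ) ≤ n := by exact_mod_cast hn1
  have hNn : 200 * c * 81 * E ^ 8 ≤ n := by
    have h1 := Nat.le_ceil (200 * c * 81 * E ^ 8)
    have h2 : ((⌈200 * c * 81 * E ^ 8⌉₊ : ℕ) : ℝ) ≤ n := by exact_mod_cast (by omega)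
    linarith
  have hk1 : ((k : ℝ) + 1) ≤ n := by exact_mod_cast (by omega : k + 1 ≤ n)
  set B : ℝ := 200 * (c * ((k : ℝ) + 1) ^ 3) with hB
  have hB0 : 0 ≤ B := by positivity
  set M : ℝ := 200 * (c * (n : ℝ) ^ 3) with hM
  have hBM : B ≤ M := by
    rw [hB, hM]
    gcongr
  have hM1 : 1 ≤ M := by
    have h3 : (1 : ℝ) ≤ (n : ℝ) ^ 3 := one_le_pow₀ hn0
    have h4 : (1 : ℝ) ≤ c * (n : ℝ) ^ 3 := by nlinarith
    rw [hM]; linarith
  clear_value B
  have key : B ^ (k - 1) * ((n : ℝ) + 2) ^ n * (E ^ 2) ^ n ≤ ((n : ℝ) ^ 2) ^ n := by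
    have h4 : (B ^ (k - 1) * ((n : ℝ) + 2) ^ n * (E ^ 2) ^ n) ^ 4 ≤ (((n : ℝ) ^ 2) ^ n) ^ 4 := by
      calc (B ^ (k - 1) * ((n : ℝ) + 2) ^ n * (E ^ 2) ^ n) ^ 4
          = B ^ (4 * (k - 1)) * (((n : ℝ) + 2) ^ 4 * E ^ 8) ^ n := by
            generalize ((n : ℝ) + 2) = w
            generalize k - 1 = j
            ring
        _ ≤ M ^ (4 * (k - 1)) * ((3 * (n : ℝ)) ^ 4 * E ^ 8) ^ n := by
            gcongr
            linarith
        _ ≤ M ^ n * ((3 * (n : ℝ)) ^ 4 * E ^ 8) ^ n := by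
            have hle : 4 * (k - 1) ≤ n := by omega
            exact mul_le_mul_of_nonneg_right (pow_le_pow_right₀ hM1 hle) (by positivity)
        _ = ((200 * c * 81 * E ^ 8) * (n : ℝ) ^ 7) ^ n := by
            rw [← mul_pow, hM]
            congr 1
            ring
        _ ≤ ((n : ℝ) * (n : ℝ) ^ 7) ^ n := by
            gcongr
        _ = (((n : ℝ) ^ 2) ^ n) ^ 4 := by
            rw [← pow_mul, ← pow_mul, ← pow_succ', ← pow_mul]
            congr 1
            ring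
    exact le_of_pow_le_pow_left₀ (by norm_num) (by positivity) h4
  have hb := np_bound n hn1
  have ho := np_pos n
  have hnn : (0 : ℝ) < ((n : ℝ) ^ 2) ^ n := by positivity
  have h5 : ((n : ℝ) ^ 2) ^ n * om n ^ 4 ≤ (4 * π ^ 2) ^ n * (E ^ 2) ^ n := by
    calc ((n : ℝ) ^ 2) ^ n * om n ^ 4 = ((n : ℝ) ^ n * om n ^ 2) ^ 2 := by
          rw [mul_pow, ← pow_mul, ← pow_mul, ← pow_mul]
          congr 1
          congr 1
          ring
      _ ≤ ((2 * π * E) ^ n) ^ 2 := pow_le_pow_left₀ (by positivity) hb 2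
      _ = (4 * π ^ 2) ^ n * (E ^ 2) ^ n := by
          rw [← pow_mul, mul_comm n 2, pow_mul, ← mul_pow]
          congr 1
          ring
  have h6 : 0 ≤ B ^ (k - 1) * ((n : ℝ) + 2) ^ n := by positivity
  have hEn : (0 : ℝ) < (E ^ 2) ^ n := by positivity
  refine le_of_mul_le_mul_right ?_ hnn
  calc B ^ (k - 1) * ((n : ℝ) + 2) ^ n * om n ^ 4 * ((n : ℝ) ^ 2) ^ n
      = B ^ (k - 1) * ((n : ℝ) + 2) ^ n * (((n : ℝ) ^ 2) ^ n * om n ^ 4) := by ring
    _ ≤ B ^ (k - 1) * ((n : ℝ) + 2) ^ n * ((4 * π ^ 2) ^ n * (E ^ 2) ^ n) := by gcongr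
    _ = (4 * π ^ 2) ^ n * (B ^ (k - 1) * ((n : ℝ) + 2) ^ n * (E ^ 2) ^ n) := by ring
    _ ≤ (4 * π ^ 2) ^ n * ((n : ℝ) ^ 2) ^ n := by gcongr

end Pool.Agent.Helper876.NK
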