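import Pool.Agent.Helper876_NK.QDefs

set_option autoImplicit false

open MeasureTheory Set Metric Filter Topology WithLp
open scoped ENNReal NNReal Pointwise Real

namespace Pool.Agent.Helper876.NK

open Pool.Agent.R225.NM

namespace SlabAux

/-- the slab -/
def Sl {n : ℕ} (Ω : Set (EuclideanSpace ℝ (Fin n))) (a : EuclideanSpace ℝ (Fin n)) (l s : ℝ) :
    Set (EuclideanSpace ℝ (Fin n)) :=
  Ω ∩ {x | s < (inner ℝ x a : ℝ) ∧ (inner ℝ x a : ℝ) < s + l}

lemma cont {n : ℕ} (a : EuclideanSpace ℝ (Fin n)) :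
    Continuous fun x : EuclideanSpace ℝ (Fin n) => (inner ℝ x a : ℝ) :=
  continuous_id.inner continuous_const

lemma sl_open {n : ℕ} {Ω : Set (EuclideanSpace ℝ (Fin n))} (h : IsConvexDomain Ω)
    (a : EuclideanSpace ℝ (Fin n)) (l s : ℝ) : IsOpen (Sl Ω a l s) := by
  refine h.isOpen.inter ?_
  have h1 : {x : EuclideanSpace ℝ (Fin n) | s < (inner ℝ x a : ℝ) ∧ (inner ℝ x a : ℝ) < s + l} =
      (fun x : EuclideanSpace ℝ (Fin n) => (inner ℝ x a : ℝ)) ⁻¹' Ioo s (s + l) := rfl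
  rw [h1]
  exact isOpen_Ioo.preimage (cont a)

lemma sl_sub {n : ℕ} (Ω : Set (EuclideanSpace ℝ (Fin n)))
    (a : EuclideanSpace ℝ (Fin n)) (l s : ℝ) : Sl Ω a l s ⊆ Ω := inter_subset_left

lemma sl_dom {n : ℕ} {Ω : Set (EuclideanSpace ℝ (Fin n))} (h : IsConvexDomain Ω)
    (a : EuclideanSpace ℝ (Fin n)) (l s : ℝ) (hne : (Sl Ω a l s).Nonempty) :
    IsConvexDomain (Sl Ω a l s) := by
  refine ⟨sl_open h a l s, ?_, h.isBounded.subset (sl_sub Ω a l s), hne⟩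
  intro x hx y hy p q hp hq hpq
  refine ⟨h.convex hx.1 hy.1 hp hq hpq, ?_⟩
  have h1 := convex_Ioo s (s + l) (x := (inner ℝ x a : ℝ)) ⟨hx.2.1, hx.2.2⟩
    (y := (inner ℝ y a : ℝ)) ⟨hy.2.1, hy.2.2⟩ hp hq hpq
  have h2 : (inner ℝ (p • x + q • y) a : ℝ) = p • (inner ℝ x a : ℝ) + q • (inner ℝ y a : ℝ) := by
    rw [inner_add_left, real_inner_smul_left, real_inner_smul_left, smul_eq_mul, smul_eq_mul]
  rw [mem_ofPred_eq, h2]
  exact h1

lemma dom_fin {n : ℕ} {Ω : Set (EuclideanSpace ℝ (Fin n))} (h : IsConvexDomain Ω) :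
    volume Ω ≠ ∞ := h.isBounded.measure_lt_top.ne

lemma sl_fin {n : ℕ} {Ω : Set (EuclideanSpace ℝ (Fin n))} (h : IsConvexDomain Ω)
    (a : EuclideanSpace ℝ (Fin n)) (l s : ℝ) : volume (Sl Ω a l s) ≠ ∞ :=
  (h.isBounded.subset (sl_sub Ω a l s)).measure_lt_top.ne

lemma pos_of_ne {n : ℕ} {Ω : Set (EuclideanSpace ℝ (Fin n))} (h : IsConvexDomain Ω)
    (a : EuclideanSpace ℝ (Fin n)) (l s : ℝ) (hne : (Sl Ω a l s).Nonempty) :
    0 < volume.real (Sl Ω a l s) :=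
  ENNReal.toReal_pos ((sl_open h a l s).measure_pos volume hne).ne' (sl_fin h a l s)

lemma ne_of_pos {n : ℕ} {Ω : Set (EuclideanSpace ℝ (Fin n))}
    (a : EuclideanSpace ℝ (Fin n)) (l s : ℝ) (hp : 0 < volume.real (Sl Ω a l s)) :
    (Sl Ω a l s).Nonempty := by
  by_contra hcon
  rw [not_nonempty_iff_eq_empty] at hcon
  rw [hcon] at hp
  simp at hp

lemma hyper {n : ℕ} (a : EuclideanSpace ℝ (Fin n)) (ha : ‖a‖ = 1) (c : ℝ) :
    volume {x : EuclideanSpace ℝ (Fin n) | (inner ℝ x a : ℝ) = c} = 0 := by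
  have hne : (LinearMap.ker (innerSL ℝ a : EuclideanSpace ℝ (Fin n) →L[ℝ] ℝ).toLinearMap) ≠ ⊤ := by
    intro hcon
    have h1 : a ∈ (LinearMap.ker (innerSL ℝ a : EuclideanSpace ℝ (Fin n) →L[ℝ] ℝ).toLinearMap) := by
      rw [hcon]; trivial
    rw [LinearMap.mem_ker] at h1
    have h2 : (inner ℝ a a : ℝ) = 0 := h1
    rw [real_inner_self_eq_norm_sq, ha] at h2
    norm_num at h2
  have h0 := Measure.addHaar_submodule (volume : Measure (EuclideanSpace ℝ (Fin n))) _ hne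
  have h1 : {x : EuclideanSpace ℝ (Fin n) | (inner ℝ x a : ℝ) = c} =
      (fun x => x + (-(c • a))) ⁻¹'
        ((LinearMap.ker (innerSL ℝ a : EuclideanSpace ℝ (Fin n) →L[ℝ] ℝ).toLinearMap :
          Submodule ℝ (EuclideanSpace ℝ (Fin n))) : Set (EuclideanSpace ℝ (Fin n))) := by
    ext x
    rw [mem_preimage, SetLike.mem_coe, LinearMap.mem_ker]
    have h3 : (innerSL ℝ a : EuclideanSpace ℝ (Fin n) →L[ℝ] ℝ).toLinearMap (x + (-(c • a))) =
        (inner ℝ x a : ℝ) - c := by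
      show (inner ℝ a (x + (-(c • a))) : ℝ) = _
      rw [inner_add_right, inner_neg_right, real_inner_smul_right, real_inner_self_eq_norm_sq, ha,
        real_inner_comm]
      ring
    rw [h3, mem_ofPred_eq, sub_eq_zero]
  rw [h1, measure_preimage_add_right]
  exact h0

/-- the null set of the hyperplanes -/
def Z {n : ℕ} (a : EuclideanSpace ℝ (Fin n)) (l : ℝ) : Set (EuclideanSpace ℝ (Fin n)) :=
  ⋃ i : ℤ, {x | (inner ℝ x a : ℝ) = i * l}

lemma Z_null {n : ℕ} (a : EuclideanSpace ℝ (Fin n)) (ha : ‖a‖ = 1) (l : ℝ) :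
    volume (Z a l) = 0 := measure_iUnion_null fun i => hyper a ha _

/-- in which slab -/
lemma loc {n : ℕ} {Ω : Set (EuclideanSpace ℝ (Fin n))} (a : EuclideanSpace ℝ (Fin n))
    {l : ℝ} (hl : 0 < l) {x : EuclideanSpace ℝ (Fin n)} (hx : x ∈ Ω) (hZ : x ∉ Z a l) :
    ∃ k : ℤ, x ∈ Sl Ω a l (k * l) ∧ ∀ i : ℤ, i ≠ k → x ∉ Sl Ω a l (i * l) := by
  refine ⟨⌊(inner ℝ x a : ℝ) / l⌋, ⟨hx, ?_, ?_⟩, ?_⟩
  · have h1 : ((⌊(inner ℝ x a : ℝ) / l⌋ : ℤ) : ℝ) * l ≤ (inner ℝ x a : ℝ) := by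
      rw [← le_div_iff₀ hl]
      exact Int.floor_le _
    refine lt_of_le_of_ne h1 fun hcon => hZ ?_
    exact mem_iUnion.2 ⟨_, hcon.symm⟩
  · have h1 := Int.lt_floor_add_one ((inner ℝ x a : ℝ) / l)
    rw [div_lt_iff₀ hl] at h1
    linarith
  · rintro i hi ⟨-, h1, h2⟩
    apply hi
    symm
    rw [Int.floor_eq_iff, le_div_iff₀ hl, div_lt_iff₀ hl]
    constructor
    · exact h1.le
    · linarith

end SlabAux

open SlabAux

/- (hbm is the Brunn-Minkowski inequality, already proved; RayleighBound, IsConvexDomain are in Pool/Agent/R225/NM/*.lean.)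
PLAIN PROOFS. slab_lc: A, B the two slabs of the left side. If one is empty the left side is 0. Otherwise they are convex domains and
(1/2) A + (1/2) B is a subset of the slab on the right (convexity). hbm with s = 1/2 gives volume(right) ^ (1/n) ≥ (a^(1/n) + b^(1/n)) / 2 ≥ sqrt (a^(1/n) b^(1/n)) for
a = volume A, b = volume B (hbm is needed for A, B with nonempty interior only). slab_pos: x in the slab of s, y in the slab of t; a convex combination is in the slab of r, which is open.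
slab_var: Ω is bounded, so only finitely many slabs are nonempty; the hyperplanes ⟨x, a⟩ = i l are null sets (ha), and |t - i0 l| ≤ (|i - i0| + 1) l for t in (i l, (i + 1) l). -/
theorem slab_lc {n : ℕ} (hn : 1 ≤ n)
    (hbm : ∀ (A B : Set (EuclideanSpace ℝ (Fin n))), IsConvexDomain A → IsConvexDomain B →
      ∀ s : ℝ, 0 ≤ s → s ≤ 1 →
      (1 - s) * volume.real A ^ (1 / (n : ℝ)) + s * volume.real B ^ (1 / (n : ℝ)) ≤
      volume.real ((1 - s) • A + s • B) ^ (1 / (n : ℝ)))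
    {Ω : Set (EuclideanSpace ℝ (Fin n))} (h : IsConvexDomain Ω) (a : EuclideanSpace ℝ (Fin n))
    (l s t : ℝ) :
    volume.real (Ω ∩ {x | s < (inner ℝ x a : ℝ) ∧ (inner ℝ x a : ℝ) < s + l}) *
      volume.real (Ω ∩ {x | t < (inner ℝ x a : ℝ) ∧ (inner ℝ x a : ℝ) < t + l}) ≤
      volume.real (Ω ∩ {x | (s + t) / 2 < (inner ℝ x a : ℝ) ∧
        (inner ℝ x a : ℝ) < (s + t) / 2 + l}) ^ 2 := by
  change volume.real (Sl Ω a l s) * volume.real (Sl Ω a l t) ≤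
    volume.real (Sl Ω a l ((s + t) / 2)) ^ 2
  by_cases hA : (Sl Ω a l s).Nonempty
  swap
  · rw [not_nonempty_iff_eq_empty] at hA
    rw [hA]
    simp only [measureReal_empty, zero_mul]
    positivity
  by_cases hB : (Sl Ω a l t).Nonempty
  swap
  · rw [not_nonempty_iff_eq_empty] at hB
    rw [hB]
    simp only [measureReal_empty, mul_zero]
    positivity
  have h1 := hbm _ _ (sl_dom h a l s hA) (sl_dom h a l t hB) (1 / 2) (by norm_num) (by norm_num)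
  have hsub : ((1 - (1 / 2 : ℝ)) • Sl Ω a l s + (1 / 2 : ℝ) • Sl Ω a l t) ⊆
      Sl Ω a l ((s + t) / 2) := by
    rintro z hz
    obtain ⟨u, hu, v, hv, rfl⟩ := Set.mem_add.1 hz
    obtain ⟨x, hx, rfl⟩ := Set.mem_smul_set.1 hu
    obtain ⟨y, hy, rfl⟩ := Set.mem_smul_set.1 hv
    refine ⟨h.convex hx.1 hy.1 (by norm_num) (by norm_num) (by norm_num), ?_⟩
    have h2 : (inner ℝ ((1 - (1 / 2 : ℝ)) • x + (1 / 2 : ℝ) • y) a : ℝ) =
        (1 - (1 / 2 : ℝ)) * (inner ℝ x a : ℝ) + (1 / 2 : ℝ) * (inner ℝ y a : ℝ) := by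
      rw [inner_add_left, real_inner_smul_left, real_inner_smul_left]
    rw [mem_ofPred_eq, h2]
    have h3 := hx.2
    have h4 := hy.2
    rw [mem_ofPred_eq] at h3 h4
    constructor
    · linarith [h3.1, h4.1]
    · linarith [h3.2, h4.2]
  have hmono : volume.real ((1 - (1 / 2 : ℝ)) • Sl Ω a l s + (1 / 2 : ℝ) • Sl Ω a l t) ≤
      volume.real (Sl Ω a l ((s + t) / 2)) := measureReal_mono hsub (sl_fin h a l _)
  set A := volume.real (Sl Ω a l s) with hAd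
  set B := volume.real (Sl Ω a l t) with hBd
  set R := volume.real (Sl Ω a l ((s + t) / 2)) with hRd
  have hA0 : 0 ≤ A := measureReal_nonneg
  have hB0 : 0 ≤ B := measureReal_nonneg
  have hR0 : 0 ≤ R := measureReal_nonneg
  have hn0 : n ≠ 0 := by omega
  have h5 : (1 - (1 / 2 : ℝ)) * A ^ (1 / (n : ℝ)) + 1 / 2 * B ^ (1 / (n : ℝ)) ≤ R ^ (1 / (n : ℝ)) :=
    h1.trans (Real.rpow_le_rpow measureReal_nonneg hmono (by positivity))
  have hα : 0 ≤ A ^ (1 / (n : ℝ)) := Real.rpow_nonneg hA0 _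
  have hβ : 0 ≤ B ^ (1 / (n : ℝ)) := Real.rpow_nonneg hB0 _
  have hρ : 0 ≤ R ^ (1 / (n : ℝ)) := Real.rpow_nonneg hR0 _
  have eA : (A ^ (1 / (n : ℝ))) ^ n = A := by
    rw [one_div]; exact Real.rpow_inv_natCast_pow hA0 hn0
  have eB : (B ^ (1 / (n : ℝ))) ^ n = B := by
    rw [one_div]; exact Real.rpow_inv_natCast_pow hB0 hn0
  have eR : (R ^ (1 / (n : ℝ))) ^ n = R := by
    rw [one_div]; exact Real.rpow_inv_natCast_pow hR0 hn0
  have h6 : A ^ (1 / (n : ℝ)) * B ^ (1 / (n : ℝ)) ≤ (R ^ (1 / (n : ℝ))) ^ 2 := by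
    nlinarith [sq_nonneg (A ^ (1 / (n : ℝ)) - B ^ (1 / (n : ℝ)))]
  have h7 := pow_le_pow_left₀ (mul_nonneg hα hβ) h6 n
  rw [mul_pow, eA, eB, ← pow_mul, mul_comm 2 n, pow_mul, eR] at h7
  exact h7

theorem slab_pos {n : ℕ} {Ω : Set (EuclideanSpace ℝ (Fin n))} (h : IsConvexDomain Ω)
    (a : EuclideanSpace ℝ (Fin n)) {l s r t : ℝ} (hl : 0 < l) (hsr : s ≤ r) (hrt : r ≤ t)
    (hs : 0 < volume.real (Ω ∩ {x | s < (inner ℝ x a : ℝ) ∧ (inner ℝ x a : ℝ) < s + l}))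
    (ht : 0 < volume.real (Ω ∩ {x | t < (inner ℝ x a : ℝ) ∧ (inner ℝ x a : ℝ) < t + l})) :
    0 < volume.real (Ω ∩ {x | r < (inner ℝ x a : ℝ) ∧ (inner ℝ x a : ℝ) < r + l}) := by
  refine pos_of_ne h a l r ?_
  obtain ⟨x, hx⟩ := ne_of_pos a l s hs
  obtain ⟨y, hy⟩ := ne_of_pos a l t ht
  rcases eq_or_lt_of_le (hsr.trans hrt) with hst | hst
  · have : r = s := le_antisymm (by rw [hst]; exact hrt) hsr
    rw [this]
    exact ⟨x, hx⟩
  · have hts : 0 < t - s := by linarith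
    have hx1 := hx.2.1
    have hx2 := hx.2.2
    have hy1 := hy.2.1
    have hy2 := hy.2.2
    obtain ⟨θ, h0, h1, hr⟩ : ∃ θ : ℝ, 0 ≤ θ ∧ θ ≤ 1 ∧ (1 - θ) * s + θ * t = r := by
      refine ⟨(r - s) / (t - s), div_nonneg (by linarith) hts.le, ?_, ?_⟩
      · rw [div_le_one hts]
        linarith
      · field_simp
        ring
    refine ⟨(1 - θ) • x + θ • y, h.convex hx.1 hy.1 (by linarith) h0 (by ring), ?_⟩
    have h2 : (inner ℝ ((1 - θ) • x + θ • y) a : ℝ) =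
        (1 - θ) * (inner ℝ x a : ℝ) + θ * (inner ℝ y a : ℝ) := by
      rw [inner_add_left, real_inner_smul_left, real_inner_smul_left]
    have hc := convex_Ioo (0 : ℝ) l (x := (inner ℝ x a : ℝ) - s) ⟨by linarith, by linarith⟩
      (y := (inner ℝ y a : ℝ) - t) ⟨by linarith, by linarith⟩
      (a := 1 - θ) (b := θ) (by linarith) h0 (by ring)
    obtain ⟨hc1, hc2⟩ := hc
    simp only [smul_eq_mul] at hc1 hc2
    rw [mem_ofPred_eq, h2]
    constructor
    · nlinarith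
    · nlinarith

theorem slab_var {n : ℕ} {Ω : Set (EuclideanSpace ℝ (Fin n))} (h : IsConvexDomain Ω)
    (a : EuclideanSpace ℝ (Fin n)) (ha : ‖a‖ = 1) {l : ℝ} (hl : 0 < l) :
    ∃ N : ℕ,
      (∀ i : ℤ, (N : ℤ) < |i| →
        volume.real (Ω ∩ {x | (i : ℝ) * l < (inner ℝ x a : ℝ) ∧ (inner ℝ x a : ℝ) < (i : ℝ) * l + l}) = 0) ∧
      (∑ i ∈ Finset.Icc (-(N : ℤ)) N,
        volume.real (Ω ∩ {x | (i : ℝ) * l < (inner ℝ x a : ℝ) ∧ (inner ℝ x a : ℝ) < (i : ℝ) * l + l}) =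
        volume.real Ω) ∧
      ∀ i0 : ℤ, ∫ x in Ω, ((inner ℝ x a : ℝ) - i0 * l) ^ 2 ≤
        l ^ 2 * ∑ i ∈ Finset.Icc (-(N : ℤ)) N, (|((i - i0 : ℤ) : ℝ)| + 1) ^ 2 *
          volume.real (Ω ∩ {x | (i : ℝ) * l < (inner ℝ x a : ℝ) ∧ (inner ℝ x a : ℝ) < (i : ℝ) * l + l}) := by
  obtain ⟨R, hR⟩ := isBounded_iff_forall_norm_le.1 h.isBounded
  have hin : ∀ x ∈ Ω, |(inner ℝ x a : ℝ)| ≤ R := by
    intro x hx
    have h1 := abs_real_inner_le_norm x a
    rw [ha, mul_one] at h1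
    exact h1.trans (hR x hx)
  have hempty : ∀ i : ℤ, ((⌈R / l⌉₊ : ℕ) : ℤ) < |i| → Sl Ω a l (i * l) = ∅ := by
    intro i hi
    rw [eq_empty_iff_forall_notMem]
    rintro x ⟨hx, h1, h2⟩
    have h3 := abs_le.1 (hin x hx)
    have h4 : R ≤ (⌈R / l⌉₊ : ℝ) * l := by
      rw [← div_le_iff₀ hl]
      exact Nat.le_ceil _
    have h5 : ((⌈R / l⌉₊ : ℕ) : ℝ) + 1 ≤ |(i : ℝ)| := by
      have : ((⌈R / l⌉₊ : ℕ) : ℤ) + 1 ≤ |i| := hi
      have h6 : ((((⌈R / l⌉₊ : ℕ) : ℤ) + 1 : ℤ) : ℝ) ≤ ((|i| : ℤ) : ℝ) := by exact_mod_cast this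
      rw [Int.cast_abs] at h6
      push_cast at h6
      exact h6
    rcases le_total 0 (i : ℝ) with hi0 | hi0
    · rw [abs_of_nonneg hi0] at h5
      nlinarith
    · rw [abs_of_nonpos hi0] at h5
      nlinarith
  -- sums of indicator functions
  set N : ℕ := ⌈R / l⌉₊ with hN
  have hpt : ∀ g : ℤ → ℝ, ∀ x ∈ Ω, x ∉ Z a l → ∃ k : ℤ, x ∈ Sl Ω a l (k * l) ∧
      ∑ i ∈ Finset.Icc (-(N : ℤ)) N, g i * (Sl Ω a l (i * l)).indicator (fun _ => (1 : ℝ)) x = g k := by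
    intro g x hx hZ
    obtain ⟨k, hk, huniq⟩ := loc a hl hx hZ
    refine ⟨k, hk, ?_⟩
    have hkN : k ∈ Finset.Icc (-(N : ℤ)) N := by
      rw [Finset.mem_Icc, ← abs_le]
      by_contra hcon
      push Not at hcon
      have := hempty k hcon
      rw [this] at hk
      exact hk
    rw [Finset.sum_eq_single k]
    · rw [indicator_of_mem hk, mul_one]
    · intro i _ hik
      rw [indicator_of_notMem (huniq i hik), mul_zero]
    · intro hcon
      exact absurd hkN hcon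
  have hOm : MeasurableSet Ω := h.isOpen.measurableSet
  have hSm : ∀ s : ℝ, MeasurableSet (Sl Ω a l s) := fun s => (sl_open h a l s).measurableSet
  have hae : ∀ᵐ x ∂(volume.restrict Ω), x ∈ Ω ∧ x ∉ Z a l := by
    have h1 : ∀ᵐ x ∂(volume.restrict Ω), x ∉ Z a l :=
      ae_restrict_of_ae (compl_mem_ae_iff.2 (Z_null a ha l))
    filter_upwards [h1, ae_restrict_mem hOm] with x hx1 hx2 using ⟨hx2, hx1⟩
  have : IsFiniteMeasure (volume.restrict Ω) := ⟨by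
    rw [Measure.restrict_apply_univ]; exact (dom_fin h).lt_top⟩
  have hint1 : ∀ (g : ℤ → ℝ) (i : ℤ), Integrable
      (fun x => g i * (Sl Ω a l (i * l)).indicator (fun _ => (1 : ℝ)) x) (volume.restrict Ω) := by
    intro g i
    exact ((integrable_const (1 : ℝ)).indicator (hSm _)).const_mul _
  have hsum : ∀ g : ℤ → ℝ, ∫ x in Ω, ∑ i ∈ Finset.Icc (-(N : ℤ)) N,
      g i * (Sl Ω a l (i * l)).indicator (fun _ => (1 : ℝ)) x =
      ∑ i ∈ Finset.Icc (-(N : ℤ)) N, g i * volume.real (Sl Ω a l (i * l)) := by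
    intro g
    rw [integral_finsetSum _ (fun i _ => hint1 g i)]
    refine Finset.sum_congr rfl fun i _ => ?_
    rw [integral_const_mul]
    congr 1
    rw [integral_indicator (hSm _), Measure.restrict_restrict (hSm _),
      inter_eq_left.2 (sl_sub Ω a l _)]
    simp
  refine ⟨N, ?_, ?_, ?_⟩
  · intro i hi
    change volume.real (Sl Ω a l (i * l)) = 0
    rw [hempty i hi]
    simp
  · change ∑ i ∈ Finset.Icc (-(N : ℤ)) N, volume.real (Sl Ω a l (i * l)) = volume.real Ω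
    have h1 := hsum (fun _ => 1)
    simp only [one_mul] at h1
    rw [← h1]
    have h2 : ∫ x in Ω, ∑ i ∈ Finset.Icc (-(N : ℤ)) N,
        (Sl Ω a l (i * l)).indicator (fun _ => (1 : ℝ)) x = ∫ x in Ω, (1 : ℝ) := by
      refine integral_congr_ae ?_
      filter_upwards [hae] with x hx
      obtain ⟨k, -, hk⟩ := hpt (fun _ => 1) x hx.1 hx.2
      simpa using hk
    rw [h2]
    simp
  · intro i0
    change _ ≤ l ^ 2 * ∑ i ∈ Finset.Icc (-(N : ℤ)) N, (|((i - i0 : ℤ) : ℝ)| + 1) ^ 2 *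
      volume.real (Sl Ω a l (i * l))
    rw [← hsum (fun i => (|((i - i0 : ℤ) : ℝ)| + 1) ^ 2), ← integral_const_mul]
    refine integral_mono_ae ?_ ?_ ?_
    · refine Measure.integrableOn_of_bounded (s_finite := dom_fin h) (M := (R + |(i0 : ℝ) * l|) ^ 2)
        ?_ ?_
      · exact (((cont a).sub continuous_const).pow 2).aestronglyMeasurable
      · filter_upwards [ae_restrict_mem hOm] with x hx
        rw [Real.norm_eq_abs, abs_pow]
        refine pow_le_pow_left₀ (abs_nonneg _) ?_ 2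
        exact (abs_sub _ _).trans (add_le_add (hin x hx) le_rfl)
    · exact (integrable_finsetSum (Finset.Icc (-(N : ℤ)) N)
        (fun i _ => hint1 (fun i => (|((i - i0 : ℤ) : ℝ)| + 1) ^ 2) i)).const_mul (l ^ 2)
    · filter_upwards [hae] with x hx
      obtain ⟨k, hk, hs⟩ := hpt (fun i => (|((i - i0 : ℤ) : ℝ)| + 1) ^ 2) x hx.1 hx.2
      beta_reduce at hs
      rw [hs, ← mul_pow, ← sq_abs ((inner ℝ x a : ℝ) - i0 * l)]
      refine pow_le_pow_left₀ (abs_nonneg _) ?_ 2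
      have h1 := hk.2.1
      have h2 := hk.2.2
      push_cast
      rw [abs_le]
      have h3 := le_abs_self ((k : ℝ) - i0)
      have h4 := neg_abs_le ((k : ℝ) - i0)
      constructor <;> nlinarith

end Pool.Agent.Helper876.NK
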