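import Pool.Agent.Helper876_NK.SeqC
import Pool.Agent.Helper876_NK.SlabLC
import Pool.Agent.Helper876_NK.Bumps
import Pool.Agent.Helper876_NK.BMc
import Pool.Agent.Helper876_NK.DiagN
import Pool.Agent.Helper876_NK.LinKN
import Pool.Agent.Helper876_NK.DetN
import Pool.Agent.Helper876_NK.NumP
import Pool.Agent.Helper876_NK.Two

set_option autoImplicit false

/-!
# Pólya's inequality for the Neumann eigenvalues of convex domains in high dimension
-/

open MeasureTheory Set Metric Filter Topology WithLp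
open scoped ENNReal NNReal Pointwise Real

namespace Pool.Agent.Helper876.NK

open Pool.Agent.R225.NM

private theorem pm_vol {n : ℕ} {Ω : Set (EuclideanSpace ℝ (Fin n))} (h : IsConvexDomain Ω) :
    0 < volume.real Ω := by
  rw [Measure.real, ENNReal.toReal_pos_iff]
  exact ⟨h.isOpen.measure_pos _ h.nonempty, h.isBounded.measure_lt_top⟩

private theorem pm_om (d : ℕ) : 0 < om d := by
  unfold om
  rw [Measure.real, ENNReal.toReal_pos_iff]
  exact ⟨measure_ball_pos _ _ one_pos, measure_ball_lt_top⟩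

/-- the bound of `μ_k` by the variance of a linear function, with a constant cubic in `k` -/
theorem var_boundC : ∃ c : ℝ, 1 ≤ c ∧ ∀ (k n : ℕ), 1 ≤ n →
    ∀ (Ω : Set (EuclideanSpace ℝ (Fin n))), IsConvexDomain Ω →
    ∀ a : EuclideanSpace ℝ (Fin n), ‖a‖ = 1 → ∀ S : ℝ, 0 < S →
    (∀ m : ℝ, S ≤ ∫ x in Ω, ((inner ℝ x a : ℝ) - m) ^ 2) →
    RayleighBound Ω k (200 * (c * ((k : ℝ) + 1) ^ 3) * volume.real Ω / S) := by
  obtain ⟨c, hc, hseq0⟩ := seqC
  refine ⟨c, hc, fun k n hn Ω h a ha S hS hvar => ?_⟩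
  have hseq := hseq0 k
  set C0 : ℝ := c * ((k : ℝ) + 1) ^ 3 with hC0def
  have hC0 : 0 < C0 := by positivity
  have hV := pm_vol h
  set V := volume.real Ω with hVdef
  set l : ℝ := √(S / (2 * C0 * V)) with hl
  have hl2 : l ^ 2 = S / (2 * C0 * V) := Real.sq_sqrt (by positivity)
  have hlpos : 0 < l := Real.sqrt_pos.2 (by positivity)
  set p : ℤ → ℝ := fun i => volume.real (Ω ∩ {x | (i : ℝ) * l < (inner ℝ x a : ℝ) ∧
    (inner ℝ x a : ℝ) < (i : ℝ) * l + l}) with hp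
  obtain ⟨N, hN0, hNsum, hNvar⟩ := slab_var h a ha hlpos
  have hple : ∀ i, p i ≤ V := fun i =>
    measureReal_mono inter_subset_left h.isBounded.measure_lt_top.ne
  have hs1 : ∃ i, 0 < p i := by
    by_contra hcon
    push Not at hcon
    have h1 : ∑ i ∈ Finset.Icc (-(N : ℤ)) N, p i ≤ 0 := Finset.sum_nonpos fun i _ => hcon i
    have h2 : ∑ i ∈ Finset.Icc (-(N : ℤ)) N, p i = V := hNsum
    linarith
  have hs2 : ∀ i, p (i - 1) * p (i + 1) ≤ p i ^ 2 := by
    intro i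
    have h1 := slab_lc hn (fun A B hA hB s hs hs1 => bm_conv hn hA hB hs hs1) h a l
      (((i - 1 : ℤ) : ℝ) * l) (((i + 1 : ℤ) : ℝ) * l)
    have e : (((i - 1 : ℤ) : ℝ) * l + ((i + 1 : ℤ) : ℝ) * l) / 2 = (i : ℝ) * l := by
      push_cast
      ring
    rw [e] at h1
    exact h1
  have hs3 : ∀ i j m : ℤ, i ≤ j → j ≤ m → 0 < p i → 0 < p m → 0 < p j := by
    intro i j m hij hjm hi hm
    refine slab_pos h a (s := (i : ℝ) * l) (t := (m : ℝ) * l) hlpos ?_ ?_ hi hm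
    · exact mul_le_mul_of_nonneg_right (by exact_mod_cast hij) hlpos.le
    · exact mul_le_mul_of_nonneg_right (by exact_mod_cast hjm) hlpos.le
  rcases hseq p (fun i => measureReal_nonneg) ⟨N, hN0⟩ hs1 hs2 hs3 with ⟨i0, M, hM, hI⟩ | ⟨i0, hi0, hI⟩
  · have hb := bumps (k := k) h a ha hlpos hM ((i0 : ℝ) * l) (fun i hi => ?_) (fun i hi => ?_)
    · have e : 100 / l ^ 2 = 200 * C0 * V / S := by
        rw [hl2]
        field_simp
        norm_num
      rwa [e] at hb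
    · have h1 := (hI (i0 + i) (by omega) (by omega)).1
      have e : ((i0 + (i : ℤ) : ℤ) : ℝ) * l = (i0 : ℝ) * l + i * l := by push_cast; ring
      simp only [hp, e] at h1
      exact h1
    · have h1 := (hI (i0 + i) (by omega) (by omega)).2
      have e : ((i0 + (i : ℤ) : ℤ) : ℝ) * l = (i0 : ℝ) * l + i * l := by push_cast; ring
      simp only [hp, e] at h1
      exact h1
  · exfalso
    have h1 := hvar ((i0 : ℝ) * l)
    have h2 := hNvar i0
    have h3 := hI N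
    have h4 : S ≤ l ^ 2 * (C0 * V) :=
      h1.trans (h2.trans (mul_le_mul_of_nonneg_left
        (h3.trans (mul_le_mul_of_nonneg_left (hple i0) hC0.le)) (sq_nonneg _)))
    rw [hl2] at h4
    have h5 : S / (2 * C0 * V) * (C0 * V) = S / 2 := by field_simp
    linarith

/-- `μ_k` and the volume -/
theorem vol_mu {n k : ℕ} (hn : 1 ≤ n) (hk : 1 ≤ k) {C : ℝ} (hC1 : 1 ≤ C)
    (hC : ∀ (Ω : Set (EuclideanSpace ℝ (Fin n))), IsConvexDomain Ω →
      ∀ a : EuclideanSpace ℝ (Fin n), ‖a‖ = 1 → ∀ S : ℝ, 0 < S →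
      (∀ m : ℝ, S ≤ ∫ x in Ω, ((inner ℝ x a : ℝ) - m) ^ 2) →
      RayleighBound Ω k (C * volume.real Ω / S))
    {Ω : Set (EuclideanSpace ℝ (Fin n))} (h : IsConvexDomain Ω) :
    neumannEigenvalue Ω k ≤ (C ^ (k - 1)) ^ (1 / (n : ℝ)) * ((n : ℝ) + 2) *
      (om n / volume.real Ω) ^ (2 / (n : ℝ)) := by
  have hn0 : (0:ℝ) < n := by exact_mod_cast hn
  have hV := pm_vol h
  have hom := pm_om n
  obtain ⟨b, m, v, hv, h0, h1⟩ := diagN h
  have hμ : 0 < neumannEigenvalue Ω k := by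
    obtain ⟨d, rfl⟩ : ∃ d, n = d + 1 := ⟨n - 1, by omega⟩
    exact mu_pos h hk
  set μ := neumannEigenvalue Ω k with hμdef
  have hvi : ∀ i, v i ≤ C / μ := by
    intro i
    obtain ⟨a, ha, hle⟩ := dirN h b m v h0 h1 i
    have h2 := mu_le h.isOpen h.isBounded (hC Ω h a ha _ (mul_pos hV (hv i)) hle)
    have h3 : C * volume.real Ω / (volume.real Ω * v i) = C / v i := by
      field_simp
    rw [h3, ← hμdef, le_div_iff₀ (hv i)] at h2
    rw [le_div_iff₀ hμ]
    linarith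
  classical
  set T : Finset (Fin n) := Finset.univ.filter (fun i => 1 / μ < v i) with hT
  have hcard : T.card ≤ k - 1 := by
    by_contra hcon
    push Not at hcon
    have hkT : k ≤ T.card := by omega
    have hne : Nonempty (Fin k) := ⟨⟨0, hk⟩⟩
    set f := T.orderEmbOfCardLe hkT with hf
    obtain ⟨j0, hj0⟩ := Finite.exists_min (fun j => v (f j))
    have hm : ∀ i ∈ T, 1 / μ < v i := fun i hi => by
      rw [hT, Finset.mem_filter] at hi
      exact hi.2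
    have h2 : 1 / μ < v (f j0) := hm _ (T.orderEmbOfCardLe_mem hkT j0)
    have h3 := mu_le h.isOpen h.isBounded (linKN h b m v h0 h1 f f.injective (hv (f j0)) hj0)
    rw [← hμdef] at h3
    rw [div_lt_iff₀ hμ] at h2
    rw [le_div_iff₀ (hv _)] at h3
    nlinarith
  have hprod : ∏ i, v i ≤ C ^ (k - 1) * (1 / μ) ^ n := by
    have h2 : ∀ i, v i ≤ (if i ∈ T then C else 1) * (1 / μ) := by
      intro i
      split_ifs with hi
      · rw [mul_one_div]
        exact hvi i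
      · rw [one_mul]
        by_contra hcon
        push Not at hcon
        exact hi (by rw [hT, Finset.mem_filter]; exact ⟨Finset.mem_univ _, hcon⟩)
    have h3 : ∏ i, v i ≤ ∏ i : Fin n, ((if i ∈ T then C else 1) * (1 / μ)) :=
      Finset.prod_le_prod (fun i _ => (hv i).le) fun i _ => h2 i
    rw [Finset.prod_mul_distrib, Finset.prod_const, Finset.card_univ, Fintype.card_fin] at h3
    have h4 : ∏ i : Fin n, (if i ∈ T then C else 1) = C ^ T.card := by
      rw [Finset.prod_ite_mem, Finset.univ_inter, Finset.prod_const]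
    rw [h4] at h3
    refine h3.trans (mul_le_mul_of_nonneg_right (pow_le_pow_right₀ hC1 hcard) (by positivity))
  have hmom := detN hn h b m v hv h1
  have hpw : (∏ i, v i) ^ (1 / (n : ℝ)) ≤ (C ^ (k - 1)) ^ (1 / (n : ℝ)) * (1 / μ) := by
    have h2 : (∏ i, v i) ^ (1 / (n : ℝ)) ≤ (C ^ (k - 1) * (1 / μ) ^ n) ^ (1 / (n : ℝ)) :=
      Real.rpow_le_rpow (Finset.prod_nonneg fun i _ => (hv i).le) hprod (by positivity)
    rw [Real.mul_rpow (by positivity) (by positivity)] at h2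
    have h3 : ((1 / μ) ^ n) ^ (1 / (n : ℝ)) = 1 / μ := by
      rw [← Real.rpow_natCast (1 / μ) n, ← Real.rpow_mul (by positivity),
        mul_one_div_cancel hn0.ne', Real.rpow_one]
    rwa [h3] at h2
  set A := volume.real Ω with hAdef
  set q : ℝ := (A / om n) ^ (2 / (n : ℝ)) with hq
  have hqpos : 0 < q := Real.rpow_pos_of_pos (by positivity) _
  have h2 : (om n / A) ^ (2 / (n : ℝ)) = q⁻¹ := by
    rw [hq, ← Real.inv_rpow (by positivity), inv_div]
  rw [h2]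
  have h3 := hmom.trans hpw
  set E : ℝ := (C ^ (k - 1)) ^ (1 / (n : ℝ)) with hE
  rw [mul_one_div, le_div_iff₀ hμ] at h3
  rw [← div_eq_mul_inv, le_div_iff₀ hqpos]
  have h5 : 1 / ((n : ℝ) + 2) * q * μ = (μ * q) / ((n : ℝ) + 2) := by ring
  rw [h5, div_le_iff₀ (by positivity)] at h3
  exact h3

/-- Pólya's inequality for convex domains in high dimension, `k ≤ n / 4` -/
theorem polya_convex : ∃ N : ℕ, 1 ≤ N ∧ ∀ n k : ℕ, N ≤ n → 1 ≤ k → 4 * k ≤ n →
    ∀ Ω : Set (EuclideanSpace ℝ (Fin n)), IsConvexDomain Ω →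
      neumannEigenvalue Ω k ≤ (2 * π) ^ 2 * (k / (om n * volume.real Ω)) ^ (2 / (n : ℝ)) := by
  obtain ⟨c, hc, hvar⟩ := var_boundC
  obtain ⟨N, hN1, hN⟩ := num_polya c hc
  refine ⟨N, hN1, fun n k hn hk hkn Ω h => ?_⟩
  have hn1 : 1 ≤ n := by omega
  have hn0 : (0:ℝ) < n := by exact_mod_cast hn1
  have hk1 : (1:ℝ) ≤ k := by exact_mod_cast hk
  have hV := pm_vol h
  have hom := pm_om n
  have hpi := Real.pi_pos
  set C : ℝ := 200 * (c * ((k : ℝ) + 1) ^ 3) with hC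
  have hC1 : 1 ≤ C := by
    have h1 : (1:ℝ) ≤ ((k : ℝ) + 1) ^ 3 := one_le_pow₀ (by linarith)
    nlinarith
  refine (vol_mu hn1 hk hC1 (fun Ω' hΩ' a ha S hS hv => hvar k n hn1 Ω' hΩ' a ha S hS hv) h).trans ?_
  set V := volume.real Ω with hVdef
  -- take the `n`-th power
  have hx0 : 0 ≤ (C ^ (k - 1)) ^ (1 / (n : ℝ)) * ((n : ℝ) + 2) * (om n / V) ^ (2 / (n : ℝ)) := by
    positivity
  have hy0 : 0 ≤ (2 * π) ^ 2 * (k / (om n * V)) ^ (2 / (n : ℝ)) := by positivity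
  refine le_of_pow_le_pow_left₀ (n := n) (by omega) hy0 ?_
  have hp1 : ∀ x : ℝ, 0 ≤ x → (x ^ (1 / (n : ℝ))) ^ n = x := fun x hx => by
    rw [← Real.rpow_natCast, ← Real.rpow_mul hx, one_div_mul_cancel hn0.ne', Real.rpow_one]
  have hp2 : ∀ x : ℝ, 0 ≤ x → (x ^ (2 / (n : ℝ))) ^ n = x ^ 2 := fun x hx => by
    rw [← Real.rpow_natCast, ← Real.rpow_mul hx, div_mul_cancel₀ _ hn0.ne']
    norm_num
  have hnum := hN n k hn hk hkn
  rw [← hC] at hnum
  clear_value C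
  have e1 : ((2 * π) ^ 2) ^ n = (4 * π ^ 2) ^ n := by
    congr 1
    ring
  have eL : ((C ^ (k - 1)) ^ (1 / (n : ℝ)) * ((n : ℝ) + 2) * (om n / V) ^ (2 / (n : ℝ))) ^ n =
      C ^ (k - 1) * ((n : ℝ) + 2) ^ n * (om n / V) ^ 2 := by
    rw [mul_pow, mul_pow, hp1 _ (by positivity), hp2 _ (by positivity)]
  have eR : ((2 * π) ^ 2 * (k / (om n * V)) ^ (2 / (n : ℝ))) ^ n =
      (4 * π ^ 2) ^ n * (k / (om n * V)) ^ 2 := by
    rw [mul_pow, hp2 _ (by positivity), e1]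
  rw [eL, eR]
  rw [div_pow, div_pow, mul_pow (om n) V, mul_div_assoc', mul_div_assoc', div_le_div_iff₀ (by positivity) (by positivity)]
  have h1 : C ^ (k - 1) * ((n : ℝ) + 2) ^ n * om n ^ 4 ≤ (4 * π ^ 2) ^ n * (k : ℝ) ^ 2 := by
    have h2 : (1:ℝ) ≤ (k : ℝ) ^ 2 := one_le_pow₀ hk1
    have h3 : 0 ≤ (4 * π ^ 2) ^ n := by positivity
    nlinarith
  calc C ^ (k - 1) * ((n : ℝ) + 2) ^ n * om n ^ 2 * (om n ^ 2 * V ^ 2)
      = (C ^ (k - 1) * ((n : ℝ) + 2) ^ n * om n ^ 4) * V ^ 2 := by ring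
    _ ≤ ((4 * π ^ 2) ^ n * (k : ℝ) ^ 2) * V ^ 2 :=
        mul_le_mul_of_nonneg_right h1 (sq_nonneg V)

end Pool.Agent.Helper876.NK
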