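import Pool.Agent.Helper876_NK.QDefs
import Pool.Agent.Helper876_NK.SeqLem

set_option autoImplicit false

open MeasureTheory Set Metric Filter Topology WithLp
open scoped ENNReal NNReal Pointwise Real

namespace Pool.Agent.Helper876.NK

private theorem sc_ratio (q : ℕ → ℝ) (h0 : ∀ j, 0 ≤ q j) (hl : ∀ j, q j * q (j + 2) ≤ q (j + 1) ^ 2)
    (hz : ∀ i j m, i ≤ j → j ≤ m → 0 < q i → 0 < q m → 0 < q j) (a : ℕ) :
    ∀ d, q a * q (a + d + 1) ≤ q (a + 1) * q (a + d) := by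
  intro d
  induction d with
  | zero => rw [add_zero, mul_comm]
  | succ d ih =>
    rcases (h0 a).eq_or_lt with ha | ha
    · rw [← ha, zero_mul]
      exact mul_nonneg (h0 _) (h0 _)
    rcases (h0 (a + (d + 1) + 1)).eq_or_lt with hb | hb
    · rw [← hb, mul_zero]
      exact mul_nonneg (h0 _) (h0 _)
    have hm : 0 < q (a + d) := hz a (a + d) (a + (d + 1) + 1) (by omega) (by omega) ha hb
    have h1 := hl (a + d)
    have e1 : a + d + 2 = a + (d + 1) + 1 := by ring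
    have e2 : a + d + 1 = a + (d + 1) := by ring
    rw [e1, e2] at h1
    rw [e2] at ih
    have h2 : q (a + d) * (q a * q (a + (d + 1) + 1)) ≤ q (a + d) * (q (a + 1) * q (a + (d + 1))) := by
      calc q (a + d) * (q a * q (a + (d + 1) + 1))
          = q a * (q (a + d) * q (a + (d + 1) + 1)) := by ring
        _ ≤ q a * q (a + (d + 1)) ^ 2 := mul_le_mul_of_nonneg_left h1 ha.le
        _ = (q a * q (a + (d + 1))) * q (a + (d + 1)) := by ring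
        _ ≤ (q (a + 1) * q (a + d)) * q (a + (d + 1)) := mul_le_mul_of_nonneg_right ih (h0 _)
        _ = q (a + d) * (q (a + 1) * q (a + (d + 1))) := by ring
    exact le_of_mul_le_mul_left h2 hm

private theorem sc_anti (q : ℕ → ℝ) (h0 : ∀ j, 0 ≤ q j) (hl : ∀ j, q j * q (j + 2) ≤ q (j + 1) ^ 2)
    (hz : ∀ i j m, i ≤ j → j ≤ m → 0 < q i → 0 < q m → 0 < q j) (hp : 0 < q 0) (hm : ∀ j, q j ≤ q 0) :
    Antitone q := by
  refine antitone_nat_of_succ_le fun j => ?_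
  have h1 := sc_ratio q h0 hl hz 0 j
  rw [zero_add, zero_add] at h1
  have h2 : q 0 * q (j + 1) ≤ q 0 * q j := h1.trans (mul_le_mul_of_nonneg_right (hm 1) (h0 j))
  exact le_of_mul_le_mul_left h2 hp

private theorem sc_shift (q : ℕ → ℝ) (h0 : ∀ j, 0 ≤ q j) (hl : ∀ j, q j * q (j + 2) ≤ q (j + 1) ^ 2)
    (hz : ∀ i j m, i ≤ j → j ≤ m → 0 < q i → 0 < q m → 0 < q j) (hp : 0 < q 0) (R : ℕ) :
    ∀ j, q (j + R) * q 0 ≤ q j * q R := by
  intro j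
  induction j with
  | zero => rw [zero_add, mul_comm]
  | succ j ih =>
    rcases (h0 (j + 1 + R)).eq_or_lt with hb | hb
    · rw [← hb, zero_mul]
      exact mul_nonneg (h0 _) (h0 _)
    have hj : 0 < q j := hz 0 j (j + 1 + R) (by omega) (by omega) hp hb
    have h1 := sc_ratio q h0 hl hz j R
    have e1 : j + R + 1 = j + 1 + R := by ring
    rw [e1] at h1
    have h2 : q j * (q (j + 1 + R) * q 0) ≤ q j * (q (j + 1) * q R) := by
      calc q j * (q (j + 1 + R) * q 0) = (q j * q (j + 1 + R)) * q 0 := by ring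
        _ ≤ (q (j + 1) * q (j + R)) * q 0 := mul_le_mul_of_nonneg_right h1 hp.le
        _ = q (j + 1) * (q (j + R) * q 0) := by ring
        _ ≤ q (j + 1) * (q j * q R) := mul_le_mul_of_nonneg_left ih (h0 _)
        _ = q j * (q (j + 1) * q R) := by ring
    exact le_of_mul_le_mul_left h2 hj

private theorem sc_geo (q : ℕ → ℝ) (h0 : ∀ j, 0 ≤ q j) (hl : ∀ j, q j * q (j + 2) ≤ q (j + 1) ^ 2)
    (hz : ∀ i j m, i ≤ j → j ≤ m → 0 < q i → 0 < q m → 0 < q j) (hp : 0 < q 0) (hm : ∀ j, q j ≤ q 0)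
    (R : ℕ) (hR : 0 < R) (hh : q R < q 0 / 2) (ρ : ℝ) (hρ0 : 0 < ρ) (hρ1 : ρ < 1) (hρ : ρ ^ R = 1 / 2) :
    ∀ j, q j ≤ 2 * q 0 * ρ ^ j := by
  intro j
  induction j using Nat.strong_induction_on with
  | _ j ih =>
    by_cases hj : j < R
    · have h1 : (1 / 2 : ℝ) ≤ ρ ^ j := by
        rw [← hρ]
        exact pow_le_pow_of_le_one hρ0.le hρ1.le hj.le
      calc q j ≤ q 0 := hm j
        _ = 2 * q 0 * (1 / 2) := by ring
        _ ≤ 2 * q 0 * ρ ^ j := mul_le_mul_of_nonneg_left h1 (by positivity)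
    · push Not at hj
      obtain ⟨i, rfl⟩ := Nat.exists_eq_add_of_le' hj
      have h1 := ih i (by omega)
      have h2 := sc_shift q h0 hl hz hp R i
      have h3 : q (i + R) * q 0 ≤ (q i / 2) * q 0 := by
        calc q (i + R) * q 0 ≤ q i * q R := h2
          _ ≤ q i * (q 0 / 2) := mul_le_mul_of_nonneg_left hh.le (h0 i)
          _ = (q i / 2) * q 0 := by ring
      have h4 : q (i + R) ≤ q i / 2 := le_of_mul_le_mul_right h3 hp
      calc q (i + R) ≤ q i / 2 := h4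
        _ ≤ (2 * q 0 * ρ ^ i) / 2 := by linarith
        _ = 2 * q 0 * ρ ^ (i + R) := by rw [pow_add, hρ]; ring

private theorem sc_summ (ρ : ℝ) (hρ0 : 0 < ρ) (hρ1 : ρ < 1) :
    Summable fun t : ℤ => (|(t : ℝ)| + 1) ^ 2 * (2 * ρ ^ t.natAbs) := by
  have hn : Summable fun n : ℕ => ((n : ℝ) + 1) ^ 2 * (2 * ρ ^ n) := by
    have hr : ‖ρ‖ < 1 := by rw [Real.norm_eq_abs, abs_of_pos hρ0]; exact hρ1
    have s2 := (summable_pow_mul_geometric_of_norm_lt_one 2 hr).mul_left 2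
    have s1 := (summable_pow_mul_geometric_of_norm_lt_one 1 hr).mul_left 4
    have s0 := (summable_pow_mul_geometric_of_norm_lt_one 0 hr).mul_left 2
    refine ((s2.add s1).add s0).congr fun n => ?_
    ring
  refine Summable.of_nat_of_neg ?_ ?_
  · refine hn.congr fun n => ?_
    simp
  · refine hn.congr fun n => ?_
    simp

private theorem sc_sum (ρ : ℝ) (hρ0 : 0 < ρ) (hρ1 : ρ < 1) :
    ∑' t : ℤ, (|(t : ℝ)| + 1) ^ 2 * (2 * ρ ^ t.natAbs) ≤ 8 / (1 - ρ) ^ 3 := by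
  have hr : ‖ρ‖ < 1 := by rw [Real.norm_eq_abs, abs_of_pos hρ0]; exact hρ1
  have hn : Summable fun n : ℕ => ((n : ℝ) + 1) ^ 2 * (2 * ρ ^ n) := by
    have s2 := (summable_pow_mul_geometric_of_norm_lt_one 2 hr).mul_left 2
    have s1 := (summable_pow_mul_geometric_of_norm_lt_one 1 hr).mul_left 4
    have s0 := (summable_pow_mul_geometric_of_norm_lt_one 0 hr).mul_left 2
    refine ((s2.add s1).add s0).congr fun n => ?_
    ring
  have hc := tsum_choose_mul_geometric_of_norm_lt_one 2 hr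
  have hcs := summable_choose_mul_geometric_of_norm_lt_one 2 hr
  have hle : ∑' n : ℕ, ((n : ℝ) + 1) ^ 2 * (2 * ρ ^ n) ≤ 4 * (1 / (1 - ρ) ^ (2 + 1)) := by
    rw [← hc, ← tsum_mul_left]
    refine hn.tsum_le_tsum (fun n => ?_) (hcs.mul_left 4)
    have e1 : (((n + 2).choose 2 : ℕ) : ℝ) = ((n : ℝ) + 2) * (n + 1) / 2 := by
      rw [Nat.cast_choose_two]
      push_cast
      ring
    rw [e1]
    have h1 : 0 ≤ ρ ^ n := by positivity
    have hn0 : (0 : ℝ) ≤ n := Nat.cast_nonneg n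
    have h2 : ((n : ℝ) + 1) ^ 2 * 2 ≤ 4 * (((n : ℝ) + 2) * (n + 1) / 2) := by nlinarith
    calc ((n : ℝ) + 1) ^ 2 * (2 * ρ ^ n) = (((n : ℝ) + 1) ^ 2 * 2) * ρ ^ n := by ring
      _ ≤ (4 * (((n : ℝ) + 2) * (n + 1) / 2)) * ρ ^ n := mul_le_mul_of_nonneg_right h2 h1
      _ = 4 * (((n : ℝ) + 2) * (n + 1) / 2 * ρ ^ n) := by ring
  have f1 : Summable (fun n : ℕ => (|(((n : ℕ) : ℤ) : ℝ)| + 1) ^ 2 * (2 * ρ ^ ((n : ℤ)).natAbs)) := by
    refine hn.congr fun n => ?_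
    simp
  have f2 : Summable (fun n : ℕ =>
      (|((-((n : ℕ) : ℤ) : ℤ) : ℝ)| + 1) ^ 2 * (2 * ρ ^ (-(n : ℤ)).natAbs)) := by
    refine hn.congr fun n => ?_
    simp
  have t1 : ∑' n : ℕ, (|(((n : ℕ) : ℤ) : ℝ)| + 1) ^ 2 * (2 * ρ ^ ((n : ℤ)).natAbs) =
      ∑' n : ℕ, ((n : ℝ) + 1) ^ 2 * (2 * ρ ^ n) := by
    refine tsum_congr fun n => ?_
    simp
  have t2 : ∑' n : ℕ, (|((-((n : ℕ) : ℤ) : ℤ) : ℝ)| + 1) ^ 2 * (2 * ρ ^ (-(n : ℤ)).natAbs) =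
      ∑' n : ℕ, ((n : ℝ) + 1) ^ 2 * (2 * ρ ^ n) := by
    refine tsum_congr fun n => ?_
    simp
  have h3 := HasSum.of_nat_of_neg (f := fun t : ℤ => (|(t : ℝ)| + 1) ^ 2 * (2 * ρ ^ t.natAbs))
    f1.hasSum f2.hasSum
  rw [h3.tsum_eq, t1, t2]
  have e8 : 4 * (1 / (1 - ρ) ^ (2 + 1)) + 4 * (1 / (1 - ρ) ^ (2 + 1)) = 8 / (1 - ρ) ^ 3 := by ring
  rw [← e8]
  have h5 : (0 : ℝ) ≤ (|((0 : ℤ) : ℝ)| + 1) ^ 2 * (2 * ρ ^ (0 : ℤ).natAbs) := by positivity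
  linarith

/- This is seqlem of Pool/Agent/Helper876_NK/SeqLem.lean (on origin/main, finished) with an explicit constant c (k + 1)^3, c absolute. ADAPT that proof: R = 3 (k + 1), M = p i0 = max p,
p (i0 ± i) ≤ M 2^(-⌊i / R⌋). So ∑ (|i - i0| + 1)^2 p i ≤ 2 M ∑_{i ≥ 0} (i + 1)^2 2^(-⌊i/R⌋) ≤ 2 M ∑_{q ≥ 0} R ((q + 1) R)^2 2^(-q) = 2 M R^3 ∑_q (q + 1)^2 2^(-q) = 24 M R^3 = 648 (k + 1)^3 M
(grouping i = q R + s, 0 ≤ s < R, i + 1 ≤ (q + 1) R; ∑ (q + 1)^2 2^(-q) = 12). Any absolute constant c ≥ 1 is fine. Give every auxiliary lemma a new name (prefix sc_) or make it private. -/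
theorem seqC : ∃ c : ℝ, 1 ≤ c ∧ ∀ (k : ℕ) (p : ℤ → ℝ), (∀ i, 0 ≤ p i) →
    (∃ N : ℕ, ∀ i : ℤ, (N : ℤ) < |i| → p i = 0) → (∃ i, 0 < p i) →
    (∀ i, p (i - 1) * p (i + 1) ≤ p i ^ 2) →
    (∀ i j m : ℤ, i ≤ j → j ≤ m → 0 < p i → 0 < p m → 0 < p j) →
    (∃ (i0 : ℤ) (M : ℝ), 0 < M ∧ ∀ i : ℤ, i0 ≤ i → i < i0 + 3 * (k + 1) → M / 2 ≤ p i ∧ p i ≤ M) ∨
    (∃ i0 : ℤ, 0 < p i0 ∧
      ∀ N : ℕ, ∑ i ∈ Finset.Icc (-(N : ℤ)) N, (|((i - i0 : ℤ) : ℝ)| + 1) ^ 2 * p i ≤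
        c * ((k : ℝ) + 1) ^ 3 * p i0) := by
  refine ⟨1729, by norm_num, fun k p h0 hfin hpos hl hz => ?_⟩
  obtain ⟨R, hR⟩ : ∃ R : ℕ, R = 3 * (k + 1) := ⟨_, rfl⟩
  have hRpos : 0 < R := by omega
  have hR0 : (R : ℝ) ≠ 0 := by exact_mod_cast hRpos.ne'
  obtain ⟨ρ, hρdef⟩ : ∃ ρ : ℝ, ρ = (1 / 2 : ℝ) ^ ((R : ℝ)⁻¹) := ⟨_, rfl⟩
  have hρ0 : 0 < ρ := by rw [hρdef]; positivity
  have hρ1 : ρ < 1 := by
    rw [hρdef]
    exact Real.rpow_lt_one (by norm_num) (by norm_num) (by positivity)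
  have hρ : ρ ^ R = 1 / 2 := by
    rw [hρdef]
    exact Real.rpow_inv_natCast_pow (by norm_num) hRpos.ne'
  have hs := sc_summ ρ hρ0 hρ1
  have hbig : ∑' t : ℤ, (|(t : ℝ)| + 1) ^ 2 * (2 * ρ ^ t.natAbs) ≤ 1728 * ((k : ℝ) + 1) ^ 3 := by
    have hb1 : 1 + (R : ℝ) * (ρ - 1) ≤ (1 + (ρ - 1)) ^ R :=
      one_add_mul_le_pow (by linarith) R
    rw [add_sub_cancel, hρ] at hb1
    have hRk : (R : ℝ) = 3 * ((k : ℝ) + 1) := by
      rw [hR]
      push_cast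
      ring
    have hRp : (0 : ℝ) < R := by exact_mod_cast hRpos
    have hx : 0 < 1 - ρ := by linarith
    have hb2 : 1 ≤ (2 * R) * (1 - ρ) := by nlinarith
    have hb3 : 1 ≤ ((2 * R) * (1 - ρ)) ^ 3 := one_le_pow₀ hb2
    refine (sc_sum ρ hρ0 hρ1).trans ?_
    rw [div_le_iff₀ (by positivity)]
    have e9 : 1728 * ((k : ℝ) + 1) ^ 3 * (1 - ρ) ^ 3 = 8 * ((2 * R) * (1 - ρ)) ^ 3 := by
      rw [hRk]
      ring
    rw [e9]
    linarith
  obtain ⟨N, hN⟩ := hfin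
  obtain ⟨i1, hi1⟩ := hpos
  have hmem : ∀ i, 0 < p i → i ∈ Finset.Icc (-(N : ℤ)) N := by
    intro i hi
    rw [Finset.mem_Icc, ← abs_le]
    by_contra hcon
    push Not at hcon
    rw [hN i hcon] at hi
    exact lt_irrefl _ hi
  obtain ⟨i0, hi0, hmax'⟩ := Finset.exists_max_image (Finset.Icc (-(N : ℤ)) N) p ⟨i1, hmem i1 hi1⟩
  have hMpos : 0 < p i0 := hi1.trans_le (hmax' i1 (hmem i1 hi1))
  have hmax : ∀ i, p i ≤ p i0 := by
    intro i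
    rcases (h0 i).eq_or_lt with h | h
    · rw [← h]; exact hMpos.le
    · exact hmax' i (hmem i h)
  -- the two sides
  have hq1 : ∀ j : ℕ, 0 ≤ p (i0 + j) := fun j => h0 _
  have hq2 : ∀ j : ℕ, 0 ≤ p (i0 - j) := fun j => h0 _
  have hl1 : ∀ j : ℕ, p (i0 + j) * p (i0 + ((j + 2 : ℕ) : ℤ)) ≤ p (i0 + ((j + 1 : ℕ) : ℤ)) ^ 2 := by
    intro j
    have := hl (i0 + ((j + 1 : ℕ) : ℤ))
    have e1 : i0 + ((j + 1 : ℕ) : ℤ) - 1 = i0 + j := by push_cast; ring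
    have e2 : i0 + ((j + 1 : ℕ) : ℤ) + 1 = i0 + ((j + 2 : ℕ) : ℤ) := by push_cast; ring
    rwa [e1, e2] at this
  have hl2 : ∀ j : ℕ, p (i0 - j) * p (i0 - ((j + 2 : ℕ) : ℤ)) ≤ p (i0 - ((j + 1 : ℕ) : ℤ)) ^ 2 := by
    intro j
    have := hl (i0 - ((j + 1 : ℕ) : ℤ))
    have e1 : i0 - ((j + 1 : ℕ) : ℤ) + 1 = i0 - j := by push_cast; ring
    have e2 : i0 - ((j + 1 : ℕ) : ℤ) - 1 = i0 - ((j + 2 : ℕ) : ℤ) := by push_cast; ring
    rw [e1, e2, mul_comm] at this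
    exact this
  have hz1 : ∀ i j m : ℕ, i ≤ j → j ≤ m → 0 < p (i0 + i) → 0 < p (i0 + m) → 0 < p (i0 + j) :=
    fun i j m hij hjm hi hm => hz _ _ _ (by omega) (by omega) hi hm
  have hz2 : ∀ i j m : ℕ, i ≤ j → j ≤ m → 0 < p (i0 - i) → 0 < p (i0 - m) → 0 < p (i0 - j) :=
    fun i j m hij hjm hi hm => hz (i0 - m) (i0 - j) (i0 - i) (by omega) (by omega) hm hi
  have hp1 : 0 < p (i0 + ((0 : ℕ) : ℤ)) := by simpa using hMpos
  have hp2 : 0 < p (i0 - ((0 : ℕ) : ℤ)) := by simpa using hMpos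
  have hm1 : ∀ j : ℕ, p (i0 + j) ≤ p (i0 + ((0 : ℕ) : ℤ)) := fun j => by simpa using hmax _
  have hm2 : ∀ j : ℕ, p (i0 - j) ≤ p (i0 - ((0 : ℕ) : ℤ)) := fun j => by simpa using hmax _
  have ha1 := sc_anti (fun j : ℕ => p (i0 + j)) hq1 hl1 hz1 hp1 hm1
  have ha2 := sc_anti (fun j : ℕ => p (i0 - j)) hq2 hl2 hz2 hp2 hm2
  by_cases c1 : p i0 / 2 ≤ p (i0 + R)
  · left
    refine ⟨i0, p i0, hMpos, fun i hi hi' => ⟨?_, hmax i⟩⟩
    obtain ⟨j, hj⟩ := Int.eq_ofNat_of_zero_le (sub_nonneg.2 hi)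
    have hij : i = i0 + j := by omega
    have hjR : j ≤ R := by omega
    have := ha1 hjR
    simp only at this
    rw [hij]
    exact c1.trans this
  by_cases c2 : p i0 / 2 ≤ p (i0 - R)
  · left
    refine ⟨i0 - R + 1, p i0, hMpos, fun i hi hi' => ⟨?_, hmax i⟩⟩
    have hi3 : 0 ≤ i0 - i := by omega
    obtain ⟨j, hj⟩ := Int.eq_ofNat_of_zero_le hi3
    have hij : i = i0 - j := by omega
    have hjR : j ≤ R := by omega
    have := ha2 hjR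
    simp only at this
    rw [hij]
    exact c2.trans this
  right
  push Not at c1 c2
  have hg1 := sc_geo (fun j : ℕ => p (i0 + j)) hq1 hl1 hz1 hp1 hm1 R hRpos (by simpa using c1) ρ hρ0 hρ1 hρ
  have hg2 := sc_geo (fun j : ℕ => p (i0 - j)) hq2 hl2 hz2 hp2 hm2 R hRpos (by simpa using c2) ρ hρ0 hρ1 hρ
  simp only [Nat.cast_zero, add_zero, sub_zero] at hg1 hg2
  have hbound : ∀ i : ℤ, p i ≤ p i0 * (2 * ρ ^ (i - i0).natAbs) := by
    intro i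
    rcases le_total i0 i with h | h
    · have e : i = i0 + ((i - i0).natAbs : ℤ) := by omega
      have h1 := hg1 (i - i0).natAbs
      rw [← e] at h1
      linarith
    · have e : i = i0 - ((i - i0).natAbs : ℤ) := by omega
      have h1 := hg2 (i - i0).natAbs
      rw [← e] at h1
      linarith
  refine ⟨i0, hMpos, fun N' => ?_⟩
  have hs' : Summable fun i : ℤ => (|((i - i0 : ℤ) : ℝ)| + 1) ^ 2 * (2 * ρ ^ (i - i0).natAbs) :=
    (Equiv.subRight i0).summable_iff.2 hs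
  have ht : ∑' i : ℤ, (|((i - i0 : ℤ) : ℝ)| + 1) ^ 2 * (2 * ρ ^ (i - i0).natAbs) =
      ∑' t : ℤ, (|(t : ℝ)| + 1) ^ 2 * (2 * ρ ^ t.natAbs) :=
    (Equiv.subRight i0).tsum_eq (fun t : ℤ => (|(t : ℝ)| + 1) ^ 2 * (2 * ρ ^ t.natAbs))
  calc ∑ i ∈ Finset.Icc (-(N' : ℤ)) N', (|((i - i0 : ℤ) : ℝ)| + 1) ^ 2 * p i
      ≤ ∑ i ∈ Finset.Icc (-(N' : ℤ)) N', p i0 * ((|((i - i0 : ℤ) : ℝ)| + 1) ^ 2 * (2 * ρ ^ (i - i0).natAbs)) := by
        refine Finset.sum_le_sum fun i _ => ?_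
        have h1 := mul_le_mul_of_nonneg_left (hbound i) (sq_nonneg (|((i - i0 : ℤ) : ℝ)| + 1))
        linarith
    _ = p i0 * ∑ i ∈ Finset.Icc (-(N' : ℤ)) N', ((|((i - i0 : ℤ) : ℝ)| + 1) ^ 2 * (2 * ρ ^ (i - i0).natAbs)) := by
        rw [Finset.mul_sum]
    _ ≤ p i0 * ∑' i : ℤ, (|((i - i0 : ℤ) : ℝ)| + 1) ^ 2 * (2 * ρ ^ (i - i0).natAbs) := by
        refine mul_le_mul_of_nonneg_left ?_ hMpos.le
        exact hs'.sum_le_tsum _ fun i _ => by positivity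
    _ ≤ 1729 * ((k : ℝ) + 1) ^ 3 * p i0 := by
        rw [ht, mul_comm]
        refine mul_le_mul_of_nonneg_right (hbig.trans ?_) hMpos.le
        have : (0 : ℝ) ≤ ((k : ℝ) + 1) ^ 3 := by positivity
        linarith

end Pool.Agent.Helper876.NK

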